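import Pool.Agent.PCV.ADefs

/-!
# [PCY] functions holomorphic in a neighbourhood of the closed ball: definitions
-/

open MeasureTheory Set Filter Topology

namespace PCY

open PCM

/-- the closed unit ball of `ℂ^d` -/
def CB (d : ℕ) : Set (Fin d → ℂ) := {z | ∑ i, ‖z i‖ ^ 2 ≤ 1}

/-- the closed ball of radius `r` -/
def KB (d : ℕ) (r : ℝ) : Set (Fin d → ℂ) := {z | ∑ i, ‖z i‖ ^ 2 ≤ r ^ 2}

/-- the radial derivative `∑ z_i ∂F/∂z_i` of a function -/
noncomputable def RF {d : ℕ} (F : (Fin d → ℂ) → ℂ) (z : Fin d → ℂ) : ℂ := fderiv ℂ F z z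

/-- `F` is holomorphic in a neighbourhood of the closed unit ball and `a` is its power series -/
structure Hol {d : ℕ} (a : A d) (F : (Fin d → ℂ) → ℂ) : Prop where
  conv : Conv a
  an : AnalyticOnNhd ℂ F (CB d)
  ev_eq : ∀ z ∈ Ball d, ev a z = F z

/-- the dilation `z ↦ a (ρ z)` of a power series -/
noncomputable def dl {d : ℕ} (ρ : ℝ) (a : A d) : A d :=
  fun α => (ρ : ℂ) ^ (∑ i, α i) * MvPowerSeries.coeff α a

/-- the factor `r (a - t) / (r² - conj a t)`, of modulus one on the circle of radius `r` -/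
noncomputable def bl (r : ℝ) (a t : ℂ) : ℂ := (r : ℂ) * (a - t) / ((r : ℂ) ^ 2 - (starRingEnd ℂ) a * t)

/-- at every point of the closed ball one of the first `k` radial derivatives is not zero -/
def Ord {d : ℕ} (k : ℕ) (F : (Fin d → ℂ) → ℂ) : Prop := ∀ z ∈ CB d, ∃ j ≤ k, (RF^[j] F) z ≠ 0

/-- the point `τ (1, w)` (with the `1` at place `i`) -/
noncomputable def pt {m : ℕ} (i : Fin (m + 1)) (w : Fin m → ℂ) (τ : ℂ) : Fin (m + 1) → ℂ :=
  fun j => τ * PCV.ins i w j

end PCY
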