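import Pool.Agent.PCY.Defs
import Pool.Agent.PCM.P1
import Pool.Agent.PCM.P2
import Pool.Agent.PCM.P20

/-!
# [PCY-H1] algebra of the functions holomorphic near the closed ball

`PCM/P1`: `conv_add`, `conv_mul`, `conv_smul`, `conv_one`, `conv_pow`, `ev_add`, `ev_mul`, `ev_smul`, `ev_one`, `ev_pow`,
`ev_zero_point`; `AnalyticOnNhd.add`, `.mul`, `.pow`, `analyticOnNhd_const`.
* `ball_sub`, `smul_mem_ball`: `∑ ‖r z i‖² = r² ∑ ‖z i‖²`.
* `hol_R`: `conv_R` (`PCM/P2`); `fun z => fderiv ℂ F z z` is analytic (`AnalyticOnNhd.fderiv`, `.clm_apply`,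
  `analyticOnNhd_id`).  For `z ∈ Ball d`: `hasDerivAt_ev` (`PCM/P2`) gives the derivative of `t ↦ ev a (t z)` at `1`; for `t`
  near `1` the point `t z` is in the open ball (`p20_eventually` of `PCM/P20`), so this function is `F (t z)` near `1`, and the
  derivative of the latter at `1` is `fderiv ℂ F z z` (chain rule, `HasFDerivAt.comp_hasDerivAt`); uniqueness.
* `hol_R_pow`: induction (`R_pow_succ_apply`, `Function.iterate_succ'`).
* `hol_unique`: for `z ∈ CB d` the points `r z`, `r < 1`, are in the ball, `F (r z) = ev a (r z) = G (r z)`; let `r → 1`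
  (`F`, `G` are continuous at `z`).
* `hol_zero`: `ev_zero_point`, `p20_zero_mem_ball`.
-/

open MeasureTheory Set Filter Topology

namespace PCY

open PCM

variable {d : ℕ} {a b : A d} {F G : (Fin d → ℂ) → ℂ}

private theorem h1_sum {d : ℕ} (z : Fin d → ℂ) {r : ℝ} (h0 : 0 ≤ r) :
    ∑ i, ‖(r : ℂ) * z i‖ ^ 2 = r ^ 2 * ∑ i, ‖z i‖ ^ 2 := by
  rw [Finset.mul_sum]
  refine Finset.sum_congr rfl fun i _ => ?_
  rw [norm_mul, Complex.norm_real, Real.norm_eq_abs, abs_of_nonneg h0, mul_pow]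

private theorem h1_nn {d : ℕ} (z : Fin d → ℂ) : 0 ≤ ∑ i, ‖z i‖ ^ 2 :=
  Finset.sum_nonneg fun _ _ => by positivity

theorem ball_sub (d : ℕ) : Ball d ⊆ CB d := by
  intro z hz
  exact le_of_lt (show ∑ i, ‖z i‖ ^ 2 < 1 from hz)

theorem smul_mem_ball {z : Fin d → ℂ} (hz : z ∈ CB d) {r : ℝ} (h0 : 0 ≤ r) (h1 : r < 1) :
    (fun i => (r : ℂ) * z i) ∈ Ball d := by
  show ∑ i, ‖(r : ℂ) * z i‖ ^ 2 < 1
  rw [h1_sum z h0]
  have h2 : ∑ i, ‖z i‖ ^ 2 ≤ 1 := hz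
  have h3 := h1_nn z
  nlinarith

theorem smul_mem_ball' {z : Fin d → ℂ} (hz : z ∈ Ball d) {r : ℝ} (h0 : 0 ≤ r) (h1 : r ≤ 1) :
    (fun i => (r : ℂ) * z i) ∈ Ball d := by
  show ∑ i, ‖(r : ℂ) * z i‖ ^ 2 < 1
  rw [h1_sum z h0]
  have h2 : ∑ i, ‖z i‖ ^ 2 < 1 := hz
  have h3 := h1_nn z
  have h4 : r ^ 2 ≤ 1 := pow_le_one₀ h0 h1
  nlinarith

theorem smul_mem_CB {z : Fin d → ℂ} (hz : z ∈ CB d) {r : ℝ} (h0 : 0 ≤ r) (h1 : r ≤ 1) :
    (fun i => (r : ℂ) * z i) ∈ CB d := by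
  show ∑ i, ‖(r : ℂ) * z i‖ ^ 2 ≤ 1
  rw [h1_sum z h0]
  have h2 : ∑ i, ‖z i‖ ^ 2 ≤ 1 := hz
  have h3 := h1_nn z
  have h4 : r ^ 2 ≤ 1 := pow_le_one₀ h0 h1
  nlinarith

theorem hol_one : Hol (1 : A d) (fun _ => 1) :=
  ⟨conv_one, analyticOnNhd_const, fun z _ => ev_one z⟩

theorem hol_add (ha : Hol a F) (hb : Hol b G) : Hol (a + b) (fun z => F z + G z) :=
  ⟨conv_add ha.conv hb.conv, ha.an.add hb.an, fun z hz => by
    rw [ev_add ha.conv hb.conv hz, ha.ev_eq z hz, hb.ev_eq z hz]⟩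

theorem hol_mul (ha : Hol a F) (hb : Hol b G) : Hol (a * b) (fun z => F z * G z) :=
  ⟨conv_mul ha.conv hb.conv, ha.an.mul hb.an, fun z hz => by
    rw [ev_mul ha.conv hb.conv hz, ha.ev_eq z hz, hb.ev_eq z hz]⟩

theorem hol_smul (c : ℂ) (ha : Hol a F) : Hol (c • a) (fun z => c * F z) :=
  ⟨conv_smul c ha.conv, analyticOnNhd_const.mul ha.an, fun z hz => by
    rw [ev_smul, ha.ev_eq z hz]⟩

theorem hol_pow (n : ℕ) (ha : Hol a F) : Hol (a ^ n) (fun z => F z ^ n) := by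
  induction n with
  | zero => simpa using (hol_one (d := d))
  | succ n ih =>
    have h1 := hol_mul ih ha
    have h2 : (fun z => F z ^ (n + 1)) = fun z => F z ^ n * F z := by
      funext z
      rw [pow_succ]
    rw [pow_succ, h2]
    exact h1

theorem hol_R (ha : Hol a F) : Hol (R d a) (RF F) := by
  refine ⟨conv_R ha.conv, fun x hx => ?_, fun z hz => ?_⟩
  · have h1 : AnalyticAt ℂ (fun z => (fderiv ℂ F z, z)) x :=
      AnalyticAt.prod (ha.an.fderiv x hx) analyticAt_id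
    have h2 := (ContinuousLinearMap.id ℂ ((Fin d → ℂ) →L[ℂ] ℂ)).analyticAt_bilinear
      (fderiv ℂ F x, x)
    exact AnalyticAt.comp (g := fun p : ((Fin d → ℂ) →L[ℂ] ℂ) × (Fin d → ℂ) => p.1 p.2)
      (f := fun z => (fderiv ℂ F z, z)) h2 h1
  have h1 := hasDerivAt_ev ha.conv hz
  have h2 : (fun t : ℂ => F (fun i => t * z i)) =ᶠ[𝓝 1] fun t : ℂ => ev a (fun i => t * z i) := by
    filter_upwards [p20_eventually hz] with t ht
    exact (ha.ev_eq _ ht).symm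
  have h3 : HasDerivAt (fun t : ℂ => F (fun i => t * z i)) (ev (R d a) z) 1 :=
    h1.congr_of_eventuallyEq h2
  have h4 : HasFDerivAt F (fderiv ℂ F z) z :=
    (ha.an z (ball_sub d hz)).differentiableAt.hasFDerivAt
  have h5 : HasDerivAt (fun t : ℂ => (fun i => t * z i : Fin d → ℂ)) z 1 := by
    rw [hasDerivAt_pi]
    intro i
    have h6 := (hasDerivAt_id (1 : ℂ)).mul_const (z i)
    rwa [one_mul] at h6
  have h7 : (fun i => (1 : ℂ) * z i) = z := by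
    funext i
    rw [one_mul]
  have h8 : HasFDerivAt F (fderiv ℂ F z) ((fun t : ℂ => (fun i => t * z i : Fin d → ℂ)) 1) := by
    show HasFDerivAt F (fderiv ℂ F z) (fun i => (1 : ℂ) * z i)
    rw [h7]
    exact h4
  have h9 := h8.comp_hasDerivAt (1 : ℂ) h5
  exact h3.unique h9

theorem hol_R_pow (k : ℕ) (ha : Hol a F) : Hol ((R d ^ k) a) (RF^[k] F) := by
  induction k with
  | zero => exact ha
  | succ k ih =>
    rw [pow_succ', Function.iterate_succ_apply']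
    exact hol_R ih

theorem hol_unique (ha : Hol a F) (hb : Hol a G) : ∀ z ∈ CB d, F z = G z := by
  intro z hz
  have hc : Tendsto (fun r : ℝ => (fun i => (r : ℂ) * z i : Fin d → ℂ)) (𝓝[<] 1) (𝓝 z) := by
    have h1 : Continuous (fun r : ℝ => (fun i => (r : ℂ) * z i : Fin d → ℂ)) := by fun_prop
    have h2 := (h1.tendsto 1).mono_left (nhdsWithin_le_nhds (s := Set.Iio (1 : ℝ)))
    have h3 : (fun i => ((1 : ℝ) : ℂ) * z i) = z := by
      funext i
      rw [Complex.ofReal_one, one_mul]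
    rw [h3] at h2
    exact h2
  have hF : Tendsto (fun r : ℝ => F (fun i => (r : ℂ) * z i)) (𝓝[<] 1) (𝓝 (F z)) :=
    (ha.an z hz).continuousAt.tendsto.comp hc
  have hG : Tendsto (fun r : ℝ => G (fun i => (r : ℂ) * z i)) (𝓝[<] 1) (𝓝 (G z)) :=
    (hb.an z hz).continuousAt.tendsto.comp hc
  refine tendsto_nhds_unique hF (hG.congr' ?_)
  have h4 : Set.Ioo (0 : ℝ) 1 ∈ 𝓝[<] (1 : ℝ) := Ioo_mem_nhdsLT one_pos
  filter_upwards [h4] with r hr
  have h5 := smul_mem_ball hz hr.1.le hr.2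
  rw [← ha.ev_eq _ h5, ← hb.ev_eq _ h5]

theorem hol_zero (ha : Hol a F) : F (fun _ => 0) = MvPowerSeries.coeff 0 a := by
  rw [← ha.ev_eq _ p20_zero_mem_ball]
  exact ev_zero_point a

end PCY
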