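import Pool.Agent.PCY.H1

/-!
# [PCY-H2] bounds

* `isCompact_KB`: closed and bounded in `Fin d → ℂ` (`‖z i‖² ≤ ∑ ≤ r²`); `CB d = KB d 1`.
* `convex_KB`: `z ↦ ∑ ‖z i‖²` is a convex function (each `‖z i‖²` is; `ConvexOn`), sublevel sets are convex; or Cauchy-Schwarz
  / the Euclidean norm `EuclideanSpace`.
* `hol_bdd`: an analytic function is continuous on the compact set `CB d` (`IsCompact.exists_bound_of_continuousOn`).
* `hol_lip`: the derivative of `ρ ↦ F (ρ z)` on `[0,1]` is `fderiv ℂ F (ρ z) z`, of norm `≤ C ‖z‖ ≤ C`, `C` a bound of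
  `‖fderiv ℂ F‖` on `CB d` (compactness; `‖z‖ ≤ 1` for the maximum norm); mean value inequality on the segment
  (`Convex.norm_image_sub_le_of_norm_deriv_le` or `norm_image_sub_le_of_norm_deriv_le_segment'`).
* `exists_ext`: `U = {z | AnalyticAt ℂ F z}` is open (`isOpen_analyticAt`) and contains `CB d`.  If no `r > 1` had
  `KB d r ⊆ U`, choose `z_n ∈ KB d (1 + 1/(n+1))`, `z_n ∉ U`; a subsequence converges (compact `KB d 2`) to a point of `CB d ⊆ U`,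
  a contradiction.  (Or `IsCompact.exists_cthickening_subset_open` and the fact that `KB d r` is in the thickening:
  `z = (1 - 1/r) z + z/r`.)  The bound `M` by compactness of `KB d r`.
-/

open MeasureTheory Set Filter Topology

namespace PCY

open PCM

variable {d : ℕ} {a : A d} {F : (Fin d → ℂ) → ℂ}

theorem isCompact_KB (d : ℕ) (r : ℝ) : IsCompact (KB d r) := by
  refine (isCompact_closedBall (0 : Fin d → ℂ) |r|).of_isClosed_subset ?_ ?_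
  · exact isClosed_le (continuous_finsetSum _ fun i _ => ((continuous_apply i).norm.pow 2))
      continuous_const
  · intro z hz
    rw [mem_closedBall_zero_iff, pi_norm_le_iff_of_nonneg (abs_nonneg r)]
    intro i
    have h1 : ∑ i, ‖z i‖ ^ 2 ≤ r ^ 2 := hz
    have h2 : ‖z i‖ ^ 2 ≤ ∑ i, ‖z i‖ ^ 2 :=
      Finset.single_le_sum (f := fun i => ‖z i‖ ^ 2) (fun j _ => by positivity) (Finset.mem_univ i)
    have h3 : ‖z i‖ ^ 2 ≤ |r| ^ 2 := by rw [sq_abs]; exact h2.trans h1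
    exact le_of_sq_le_sq h3 (abs_nonneg r)

theorem convex_KB (d : ℕ) (r : ℝ) : Convex ℝ (KB d r) := by
  intro x hx y hy s t hs ht hst
  have h1 : ∑ i, ‖x i‖ ^ 2 ≤ r ^ 2 := hx
  have h2 : ∑ i, ‖y i‖ ^ 2 ≤ r ^ 2 := hy
  have h3 : ∀ i, ‖(s • x + t • y) i‖ ^ 2 ≤ s * ‖x i‖ ^ 2 + t * ‖y i‖ ^ 2 := by
    intro i
    have h4 : ‖(s • x + t • y) i‖ ≤ s * ‖x i‖ + t * ‖y i‖ := by
      refine (norm_add_le _ _).trans (le_of_eq ?_)
      simp only [Pi.smul_apply, norm_smul, Real.norm_of_nonneg hs, Real.norm_of_nonneg ht]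
    have h5 : ‖(s • x + t • y) i‖ ^ 2 ≤ (s * ‖x i‖ + t * ‖y i‖) ^ 2 :=
      pow_le_pow_left₀ (norm_nonneg _) h4 2
    refine h5.trans ?_
    have h6 : s = 1 - t := by linarith
    have h7 : 0 ≤ t * s * (‖x i‖ - ‖y i‖) ^ 2 := by positivity
    rw [h6] at h7 ⊢
    nlinarith
  have h4 : ∑ i, ‖(s • x + t • y) i‖ ^ 2 ≤ ∑ i, (s * ‖x i‖ ^ 2 + t * ‖y i‖ ^ 2) :=
    Finset.sum_le_sum fun i _ => h3 i
  rw [Finset.sum_add_distrib, ← Finset.mul_sum, ← Finset.mul_sum] at h4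
  show ∑ i, ‖(s • x + t • y) i‖ ^ 2 ≤ r ^ 2
  have h5 : s * ∑ i, ‖x i‖ ^ 2 ≤ s * r ^ 2 := mul_le_mul_of_nonneg_left h1 hs
  have h6 : t * ∑ i, ‖y i‖ ^ 2 ≤ t * r ^ 2 := mul_le_mul_of_nonneg_left h2 ht
  have h7 : s * r ^ 2 + t * r ^ 2 = r ^ 2 := by rw [← add_mul, hst, one_mul]
  linarith

theorem isCompact_CB (d : ℕ) : IsCompact (CB d) := by
  have h : CB d = KB d 1 := by
    ext z
    simp only [CB, KB, one_pow]
  rw [h]
  exact isCompact_KB d 1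

theorem hol_bdd (ha : Hol a F) : ∃ C : ℝ, 0 ≤ C ∧ ∀ z ∈ CB d, ‖F z‖ ≤ C := by
  obtain ⟨C, hC⟩ := (isCompact_CB d).exists_bound_of_continuousOn ha.an.continuousOn
  exact ⟨max C 0, le_max_right _ _, fun z hz => (hC z hz).trans (le_max_left _ _)⟩

private theorem h2_norm {z : Fin d → ℂ} {r : ℝ} (hr : 0 ≤ r) (hz : z ∈ KB d r) : ‖z‖ ≤ r := by
  rw [pi_norm_le_iff_of_nonneg hr]
  intro i
  have h1 : ∑ i, ‖z i‖ ^ 2 ≤ r ^ 2 := hz
  have h2 : ‖z i‖ ^ 2 ≤ ∑ i, ‖z i‖ ^ 2 :=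
    Finset.single_le_sum (f := fun i => ‖z i‖ ^ 2) (fun j _ => by positivity) (Finset.mem_univ i)
  exact le_of_sq_le_sq (h2.trans h1) hr

private theorem h2_CB (d : ℕ) : CB d = KB d 1 := by
  ext z
  simp only [CB, KB, one_pow]

theorem hol_lip (ha : Hol a F) : ∃ C : ℝ, 0 ≤ C ∧ ∀ r s : ℝ, 0 ≤ r → r ≤ 1 → 0 ≤ s → s ≤ 1 →
    ∀ z ∈ CB d, ‖F (fun i => (r : ℂ) * z i) - F (fun i => (s : ℂ) * z i)‖ ≤ C * |r - s| := by
  obtain ⟨C, hC⟩ := (isCompact_CB d).exists_bound_of_continuousOn ha.an.fderiv.continuousOn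
  refine ⟨max C 0, le_max_right _ _, fun r s hr0 hr1 hs0 hs1 z hz => ?_⟩
  have hconv : Convex ℝ (CB d) := by rw [h2_CB]; exact convex_KB d 1
  have h1 := hconv.norm_image_sub_le_of_norm_fderiv_le (𝕜 := ℂ) (f := F) (C := max C 0)
    (x := fun i => (s : ℂ) * z i) (y := fun i => (r : ℂ) * z i)
    (fun x hx => (ha.an x hx).differentiableAt)
    (fun x hx => (hC x hx).trans (le_max_left _ _)) (smul_mem_CB hz hs0 hs1)
    (smul_mem_CB hz hr0 hr1)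
  refine h1.trans ?_
  have h2 : (fun i => (r : ℂ) * z i) - (fun i => (s : ℂ) * z i) = ((r - s : ℝ) : ℂ) • z := by
    funext i
    simp only [Pi.sub_apply, Pi.smul_apply, smul_eq_mul]
    push_cast
    ring
  rw [h2, norm_smul, Complex.norm_real, Real.norm_eq_abs]
  have h3 : ‖z‖ ≤ 1 := h2_norm zero_le_one (by rw [← h2_CB]; exact hz)
  have h4 : |r - s| * ‖z‖ ≤ |r - s| * 1 := mul_le_mul_of_nonneg_left h3 (abs_nonneg _)
  rw [mul_one] at h4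
  exact mul_le_mul_of_nonneg_left h4 (le_max_right _ _)

theorem exists_ext (hF : AnalyticOnNhd ℂ F (CB d)) : ∃ r M : ℝ, 1 < r ∧ 1 ≤ M ∧
    AnalyticOnNhd ℂ F (KB d r) ∧ ∀ z ∈ KB d r, ‖F z‖ ≤ M := by
  have hUo : IsOpen {z | AnalyticAt ℂ F z} := isOpen_analyticAt ℂ F
  obtain ⟨δ, hδ, hsub⟩ := (isCompact_CB d).exists_cthickening_subset_open hUo (fun z hz => hF z hz)
  have hKB : KB d (1 + δ) ⊆ Metric.cthickening δ (CB d) := by
    intro z hz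
    have hr : (0 : ℝ) < 1 + δ := by linarith
    have hzn := h2_norm hr.le hz
    have hz' : ∑ i, ‖z i‖ ^ 2 ≤ (1 + δ) ^ 2 := hz
    refine Metric.mem_cthickening_of_dist_le z (((1 + δ)⁻¹ : ℝ) • z) δ (CB d) ?_ ?_
    · show ∑ i, ‖(((1 + δ)⁻¹ : ℝ) • z) i‖ ^ 2 ≤ 1
      have h1 : ∀ i, ‖(((1 + δ)⁻¹ : ℝ) • z) i‖ ^ 2 = ((1 + δ)⁻¹) ^ 2 * ‖z i‖ ^ 2 := by
        intro i
        rw [Pi.smul_apply, norm_smul, Real.norm_of_nonneg (by positivity), mul_pow]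
      rw [Finset.sum_congr rfl fun i _ => h1 i, ← Finset.mul_sum]
      calc ((1 + δ)⁻¹) ^ 2 * ∑ i, ‖z i‖ ^ 2 ≤ ((1 + δ)⁻¹) ^ 2 * (1 + δ) ^ 2 := by gcongr
        _ = 1 := by field_simp
    · rw [dist_eq_norm]
      have h1 : z - ((1 + δ)⁻¹ : ℝ) • z = (1 - (1 + δ)⁻¹ : ℝ) • z := by
        rw [sub_smul, one_smul]
      have h2 : (0 : ℝ) ≤ 1 - (1 + δ)⁻¹ := by
        rw [sub_nonneg]
        exact inv_le_one_of_one_le₀ (by linarith)
      rw [h1, norm_smul, Real.norm_of_nonneg h2]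
      calc (1 - (1 + δ)⁻¹) * ‖z‖ ≤ (1 - (1 + δ)⁻¹) * (1 + δ) := by gcongr
        _ = δ := by field_simp; ring
  have hAn : AnalyticOnNhd ℂ F (KB d (1 + δ)) := fun z hz => hsub (hKB hz)
  obtain ⟨C, hC⟩ := (isCompact_KB d (1 + δ)).exists_bound_of_continuousOn hAn.continuousOn
  exact ⟨1 + δ, max C 1, by linarith, le_max_right _ _, hAn,
    fun z hz => (hC z hz).trans (le_max_left _ _)⟩

end PCY
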