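import Pool.Agent.PCY.H2
import Pool.Agent.PCX.X12
import Pool.Agent.PCV.N1
import Pool.Agent.PCM.P10
import Pool.Agent.PCM.P11

/-!
# [PCY-H3] functions holomorphic near the closed ball are multipliers

Let `g ∈ H2 d` (`Conv g`: `conv_of_mem`, `PCM/P11`), `k = d`, `ν` a law for `(d, 2d)` (`exists_law_density d d` of `PCV/N1`, or
`exists_law` of `PCM`).  By `mem_of_bound` (`PCM/P10`) it suffices to bound
`∫ ‖ev ((R^d) (a g)) (r z)‖² dν` uniformly in `r < 1`.  `R_pow_mul` (`PCX/X12`): `R^d (a g) = ∑_j choose d j • R^j a R^(d-j) g`;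
on the support `∑ ‖z i‖² ≤ 1` (`ν.supp`), so `r z ∈ Ball d` and `‖ev (R^j a)(r z)‖ = ‖(RF^[j] F)(r z)‖ ≤ M`
(`hol_R_pow`, `hol_bdd`).  So the integrand is `≤ C ∑_j ‖ev (R^(d-j) g) (r z)‖²` (`ev_sum`, `ev_smul`, `ev_mul`,
`sum_pow_le_pow_mul_sum_pow` / Cauchy-Schwarz).
`∫ ‖ev (R^i g)(r z)‖² dν ≤ ‖coeff 0 g‖² + ∫ ‖ev (R^d g)(r z)‖² dν` for `i ≤ d`: `parseval` (`PCM/P7`) for both; termwise
`|α|^(2i) ≤ |α|^(2d)` for `α ≠ 0` (`coeff_R_pow`), and for `α = 0` the term is at most `‖coeff 0 g‖²` (`vv (2d) 0 ≤ 1`).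
`bound_of_mem`: `∫ ‖ev (R^d g)(r z)‖² dν ≤ (2d)! nrm g²`.  Integrability: `integrable_sq` (`PCM/P7`).
-/

open MeasureTheory Set Filter Topology

namespace PCY

open PCM

variable {d : ℕ} {a : A d} {F : (Fin d → ℂ) → ℂ}

theorem h3_ev_sum {ι : Type*} (s : Finset ι) (f : ι → A d) (hf : ∀ j ∈ s, Conv (f j))
    {w : Fin d → ℂ} (hw : w ∈ Ball d) : ev (∑ j ∈ s, f j) w = ∑ j ∈ s, ev (f j) w := by
  classical
  induction s using Finset.induction_on with
  | empty =>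
    rw [Finset.sum_empty, Finset.sum_empty]
    unfold ev
    simp
  | insert x t hx ih =>
    have h1 : ∀ j ∈ t, Conv (f j) := fun j hj => hf j (Finset.mem_insert_of_mem hj)
    have h2 : Conv (∑ j ∈ t, f j) := by
      clear ih hf
      induction t using Finset.induction_on with
      | empty => rw [Finset.sum_empty]; exact conv_zero
      | insert y u hy ih2 =>
        rw [Finset.sum_insert hy]
        exact conv_add (h1 y (Finset.mem_insert_self _ _))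
          (ih2 (fun h => hx (Finset.mem_insert_of_mem h))
            fun j hj => h1 j (Finset.mem_insert_of_mem hj))
    rw [Finset.sum_insert hx, Finset.sum_insert hx, ev_add (hf x (Finset.mem_insert_self _ _)) h2 hw,
      ih h1]

theorem h3_vv_zero (m : ℕ) : vv m (0 : Fin d →₀ ℕ) = 1 := by
  unfold vv
  have h : (∑ i, (0 : Fin d →₀ ℕ) i) = 0 := by simp
  rw [h, zero_add]
  have h2 : (∏ i, (((0 : Fin d →₀ ℕ) i).factorial : ℝ)) = 1 := by simp
  rw [h2, one_mul]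
  exact div_self (by positivity)

theorem h3_norm_sq (b : A d) (k : ℕ) (α : Fin d →₀ ℕ) :
    ‖MvPowerSeries.coeff α ((R d ^ k) b)‖ ^ 2 =
      ((∑ i, α i : ℕ) : ℝ) ^ (2 * k) * ‖MvPowerSeries.coeff α b‖ ^ 2 := by
  rw [coeff_R_pow, norm_mul, norm_pow, Complex.norm_natCast, mul_pow, ← pow_mul, mul_comm k 2]

theorem h3_lower (ν : Measure (Fin d → ℂ)) (hν : IsLaw d (2 * d) ν) {g : A d} (hg : Conv g)
    {i : ℕ} (hi : i ≤ d) {r : ℝ} (hr0 : 0 ≤ r) (hr : r < 1) :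
    ∫ z, ‖ev ((R d ^ i) g) (fun i => (r : ℂ) * z i)‖ ^ 2 ∂ν ≤
      ‖MvPowerSeries.coeff 0 g‖ ^ 2 +
        ∫ z, ‖ev ((R d ^ d) g) (fun i => (r : ℂ) * z i)‖ ^ 2 ∂ν := by
  classical
  have h1 := parseval (conv_R_pow hg i) hr0 hr (2 * d) ν hν
  have h2 := parseval (conv_R_pow hg d) hr0 hr (2 * d) ν hν
  have h3 := hasSum_ite_eq (0 : Fin d →₀ ℕ) (‖MvPowerSeries.coeff 0 g‖ ^ 2)
  refine hasSum_le (fun α => ?_) h1 (h3.add h2)
  rw [h3_norm_sq, h3_norm_sq]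
  have hv := vv_pos (2 * d) α
  by_cases h0 : α = 0
  · subst h0
    rw [if_pos rfl, h3_vv_zero]
    have hs : (∑ i, (0 : Fin d →₀ ℕ) i) = 0 := by simp
    rw [hs]
    have h4 : (((0 : ℕ) : ℝ)) ^ (2 * i) ≤ 1 := pow_le_one₀ (by simp) (by simp)
    have h5 : 0 ≤ ‖MvPowerSeries.coeff (0 : Fin d →₀ ℕ) g‖ ^ 2 := by positivity
    have h6 : 0 ≤ (((0 : ℕ) : ℝ)) ^ (2 * d) * ‖MvPowerSeries.coeff (0 : Fin d →₀ ℕ) g‖ ^ 2 := by
      positivity
    simp only [mul_zero, pow_zero, mul_one]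
    nlinarith
  · rw [if_neg h0, zero_add]
    have h4 : 1 ≤ ∑ i, α i := by
      by_contra h
      push Not at h
      apply h0
      ext j
      have h5 : α j ≤ ∑ i, α i := Finset.single_le_sum (fun _ _ => Nat.zero_le _)
        (Finset.mem_univ j)
      show α j = 0
      omega
    have h5 : (1 : ℝ) ≤ ((∑ i, α i : ℕ) : ℝ) := by exact_mod_cast h4
    have h6 : ((∑ i, α i : ℕ) : ℝ) ^ (2 * i) ≤ ((∑ i, α i : ℕ) : ℝ) ^ (2 * d) :=
      pow_le_pow_right₀ h5 (by omega)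
    refine mul_le_mul_of_nonneg_right (mul_le_mul_of_nonneg_right
      (mul_le_mul_of_nonneg_right h6 (by positivity)) (by positivity)) hv.le

theorem hol_mult (ha : Hol a F) : IsMult a := by
  intro g hg
  have hgc : Conv g := conv_of_mem hg
  obtain ⟨ν, hν⟩ := exists_law d (2 * d) (by omega)
  have hbd : ∀ j : ℕ, ∃ C : ℝ, 0 ≤ C ∧ ∀ z ∈ CB d, ‖(RF^[j] F) z‖ ≤ C := fun j =>
    hol_bdd (hol_R_pow j ha)
  choose M hM0 hM using hbd
  set G : ℝ := ‖MvPowerSeries.coeff 0 g‖ ^ 2 + ((2 * d).factorial : ℝ) * nrm g ^ 2 with hG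
  set W : ℝ := ∑ j ∈ Finset.range (d + 1), ((d.choose j : ℝ) * M j) ^ 2 with hW
  have hW0 : 0 ≤ W := Finset.sum_nonneg fun j _ => sq_nonneg _
  apply (mem_of_bound d ν hν (conv_mul ha.conv hgc)
    (W * ∑ j ∈ Finset.range (d + 1), G) ?_).1
  intro r hr0 hr
  have hpt : ∀ᵐ z ∂ν, ‖ev ((R d ^ d) (a * g)) (fun i => (r : ℂ) * z i)‖ ^ 2 ≤
      W * ∑ j ∈ Finset.range (d + 1), ‖ev ((R d ^ (d - j)) g) (fun i => (r : ℂ) * z i)‖ ^ 2 := by
    filter_upwards [hν.supp] with z hz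
    have hzc : z ∈ CB d := hz
    have hrz : (fun i => (r : ℂ) * z i) ∈ Ball d := smul_mem_ball hzc hr0 hr
    set w : Fin d → ℂ := fun i => (r : ℂ) * z i with hw
    have hconvj : ∀ j, Conv ((R d ^ j) a * (R d ^ (d - j)) g) := fun j =>
      conv_mul (conv_R_pow ha.conv j) (conv_R_pow hgc _)
    have h1 : ev ((R d ^ d) (a * g)) w = ∑ j ∈ Finset.range (d + 1),
        (d.choose j : ℂ) * (ev ((R d ^ j) a) w * ev ((R d ^ (d - j)) g) w) := by
      rw [PCX.R_pow_mul]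
      have h2 := h3_ev_sum (Finset.range (d + 1)) (fun j => (d.choose j : ℂ) • ((R d ^ j) a *
        (R d ^ (d - j)) g)) (fun j _ => conv_smul _ (hconvj j)) hrz
      rw [h2]
      refine Finset.sum_congr rfl (fun j _ => ?_)
      rw [ev_smul, ev_mul (conv_R_pow ha.conv j) (conv_R_pow hgc _) hrz]
    have h3 : ‖ev ((R d ^ d) (a * g)) w‖ ≤ ∑ j ∈ Finset.range (d + 1),
        ((d.choose j : ℝ) * M j) * ‖ev ((R d ^ (d - j)) g) w‖ := by
      rw [h1]
      refine (norm_sum_le _ _).trans (Finset.sum_le_sum fun j _ => ?_)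
      rw [norm_mul, norm_mul, Complex.norm_natCast, mul_assoc]
      refine mul_le_mul_of_nonneg_left ?_ (Nat.cast_nonneg _)
      refine mul_le_mul_of_nonneg_right ?_ (norm_nonneg _)
      rw [(hol_R_pow j ha).ev_eq w hrz]
      exact hM j w (ball_sub d hrz)
    calc ‖ev ((R d ^ d) (a * g)) w‖ ^ 2 ≤ (∑ j ∈ Finset.range (d + 1),
        ((d.choose j : ℝ) * M j) * ‖ev ((R d ^ (d - j)) g) w‖) ^ 2 :=
          pow_le_pow_left₀ (norm_nonneg _) h3 2
      _ ≤ _ := Finset.sum_mul_sq_le_sq_mul_sq _ _ _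
  have hint : ∀ j, Integrable
      (fun z => ‖ev ((R d ^ (d - j)) g) (fun i => (r : ℂ) * z i)‖ ^ 2) ν := fun j =>
    integrable_sq (conv_R_pow hgc _) hr0 hr (2 * d) ν hν
  calc ∫ z, ‖ev ((R d ^ d) (a * g)) (fun i => (r : ℂ) * z i)‖ ^ 2 ∂ν
      ≤ ∫ z, W * ∑ j ∈ Finset.range (d + 1),
          ‖ev ((R d ^ (d - j)) g) (fun i => (r : ℂ) * z i)‖ ^ 2 ∂ν := by
        apply integral_mono_ae (integrable_sq (conv_R_pow (conv_mul ha.conv hgc) d) hr0 hr
          (2 * d) ν hν) _ hpt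
        exact (integrable_finsetSum _ fun j _ => hint j).const_mul W
    _ = W * ∑ j ∈ Finset.range (d + 1),
          ∫ z, ‖ev ((R d ^ (d - j)) g) (fun i => (r : ℂ) * z i)‖ ^ 2 ∂ν := by
        rw [integral_const_mul, integral_finsetSum _ fun j _ => hint j]
    _ ≤ W * ∑ j ∈ Finset.range (d + 1), G := by
        refine mul_le_mul_of_nonneg_left (Finset.sum_le_sum fun j _ => ?_) hW0
        have h5 := h3_lower ν hν hgc (Nat.sub_le d j) hr0 hr
        have h6 := bound_of_mem d ν hν hgc hg r hr0 hr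
        linarith

end PCY
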