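import Pool.Agent.PCY.H2

/-!
# [PCY-H4] dilations

`∏ (ρ z i)^{α i} = ρ^{∑ α i} ∏ (z i)^{α i}` (`Finset.prod_mul_distrib`, `Finset.prod_pow_eq_pow_sum`).
* `dl_mul`: `MvPowerSeries.coeff_mul`; on the antidiagonal `α = β + γ` and `ρ^|α| = ρ^|β| ρ^|γ|`.
* `dl_one`: `MvPowerSeries.coeff_one`.
* `hol_dl`: `ev_dl`, `conv_dl`; `F (ρ z)` is analytic on `CB d` because `ρ z ∈ CB d` (composition with a continuous
  linear map).
-/

open MeasureTheory Set Filter Topology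

namespace PCY

open PCM

variable {d : ℕ} {a b : A d} {F : (Fin d → ℂ) → ℂ}

theorem coeff_dl (ρ : ℝ) (a : A d) (α : Fin d →₀ ℕ) :
    MvPowerSeries.coeff α (dl ρ a) = (ρ : ℂ) ^ (∑ i, α i) * MvPowerSeries.coeff α a := rfl

theorem dl_mul (ρ : ℝ) (a b : A d) : dl ρ (a * b) = dl ρ a * dl ρ b := by
  ext α
  rw [coeff_dl, MvPowerSeries.coeff_mul, MvPowerSeries.coeff_mul, Finset.mul_sum]
  refine Finset.sum_congr rfl fun p hp => ?_
  rw [coeff_dl, coeff_dl]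
  have h : p.1 + p.2 = α := Finset.HasAntidiagonal.mem_antidiagonal.1 hp
  have h1 : ∑ i, α i = ∑ i, p.1 i + ∑ i, p.2 i := by
    rw [← h, ← Finset.sum_add_distrib]
    rfl
  rw [h1, pow_add]
  ring

theorem dl_one (ρ : ℝ) : dl ρ (1 : A d) = 1 := by
  ext α
  rw [coeff_dl, MvPowerSeries.coeff_one]
  split_ifs with h
  · rw [h]
    simp
  · rw [mul_zero]

theorem dl_sub (ρ : ℝ) (a b : A d) : dl ρ (a - b) = dl ρ a - dl ρ b := by
  ext α
  rw [coeff_dl, map_sub, map_sub, coeff_dl, coeff_dl, mul_sub]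

theorem dl_R (ρ : ℝ) (a : A d) : R d (dl ρ a) = dl ρ (R d a) := by
  ext α
  rw [coeff_R, coeff_dl, coeff_dl, coeff_R]
  ring

theorem dl_R_pow (ρ : ℝ) (k : ℕ) (a : A d) : (R d ^ k) (dl ρ a) = dl ρ ((R d ^ k) a) := by
  induction k with
  | zero => rfl
  | succ k ih =>
    rw [pow_succ', Module.End.mul_apply, Module.End.mul_apply, ih, dl_R]

theorem coeff_zero_dl (ρ : ℝ) (a : A d) :
    MvPowerSeries.coeff 0 (dl ρ a) = MvPowerSeries.coeff 0 a := by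
  rw [coeff_dl]
  simp

theorem ev_dl (ρ : ℝ) (a : A d) (z : Fin d → ℂ) : ev (dl ρ a) z = ev a (fun i => (ρ : ℂ) * z i) := by
  unfold ev
  refine tsum_congr fun α => ?_
  rw [coeff_dl]
  simp only [mul_pow]
  rw [Finset.prod_mul_distrib, Finset.prod_pow_eq_pow_sum]
  ring

theorem conv_dl (ha : Conv a) {ρ : ℝ} (h0 : 0 ≤ ρ) (h1 : ρ ≤ 1) : Conv (dl ρ a) := by
  intro z hz
  refine Summable.of_nonneg_of_le (fun α => ?_) (fun α => ?_) (ha z hz)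
  · exact mul_nonneg (norm_nonneg _) (Finset.prod_nonneg fun i _ => pow_nonneg (norm_nonneg _) _)
  · refine mul_le_mul_of_nonneg_right ?_ (Finset.prod_nonneg fun i _ => pow_nonneg (norm_nonneg _) _)
    rw [coeff_dl, norm_mul, norm_pow, Complex.norm_real, Real.norm_of_nonneg h0]
    calc ρ ^ (∑ i, α i) * ‖MvPowerSeries.coeff α a‖ ≤ 1 * ‖MvPowerSeries.coeff α a‖ :=
          mul_le_mul_of_nonneg_right (pow_le_one₀ h0 h1) (norm_nonneg _)
      _ = ‖MvPowerSeries.coeff α a‖ := one_mul _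

theorem hol_dl (ha : Hol a F) {ρ : ℝ} (h0 : 0 ≤ ρ) (h1 : ρ ≤ 1) :
    Hol (dl ρ a) (fun z => F (fun i => (ρ : ℂ) * z i)) := by
  refine ⟨conv_dl ha.conv h0 h1, ?_, ?_⟩
  · intro z hz
    have h2 : AnalyticAt ℂ F (fun i => (ρ : ℂ) * z i) := ha.an _ (smul_mem_CB hz h0 h1)
    have h3 : AnalyticAt ℂ (fun z : Fin d → ℂ => (ρ : ℂ) • z) z :=
      ((ρ : ℂ) • ContinuousLinearMap.id ℂ (Fin d → ℂ)).analyticAt z
    exact AnalyticAt.comp (g := F) (f := fun z : Fin d → ℂ => (ρ : ℂ) • z) h2 h3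
  · intro z hz
    rw [ev_dl]
    exact ha.ev_eq _ (smul_mem_ball' hz h0 h1)

end PCY
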