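import Pool.Agent.PCY.H3
import Pool.Agent.PCY.H4
import Pool.Agent.PCM.D1
import Pool.Agent.PCM.T2

/-!
# [PCY-H5] inverses

* `inv_dil`: `z ↦ F (ρ z)` is continuous and nonzero on the compact set `CB d` (`ρ z ∈ Ball d` as `ρ < 1`: `smul_mem_ball`), so
  `‖F (ρ z)‖ ≥ δ > 0` there.  `hol_dl`: `ev (dl ρ a) z = F (ρ z)` on the ball.  `exists_inv` (`PCM/T2`) gives `G` with
  `Conv G`, `dl ρ a * G = 1` and the values, `isMult_inv` (`PCM/D1`, with `hol_mult` for `dl ρ a`) gives `IsMult G`.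
* `hol_inv`: the same with `ρ = 1`; `z ↦ (F z)⁻¹` is analytic on `CB d` (`AnalyticOnNhd.inv`).
-/

open MeasureTheory Set Filter Topology

namespace PCY

open PCM

variable {d : ℕ} {a : A d} {F : (Fin d → ℂ) → ℂ}

theorem h5_main (ha : Hol a F) (hF : ∀ z ∈ CB d, F z ≠ 0) :
    ∃ b : A d, Conv b ∧ IsMult b ∧ a * b = 1 ∧ ∀ z ∈ Ball d, ev b z = (F z)⁻¹ := by
  have hc : ContinuousOn (fun z => (F z)⁻¹) (CB d) := ha.an.continuousOn.inv₀ hF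
  obtain ⟨C, hC⟩ := (isCompact_CB d).exists_bound_of_continuousOn hc
  have hC' : 0 < |C| + 1 := by positivity
  have hlow : ∀ z ∈ Ball d, (|C| + 1)⁻¹ ≤ ‖ev a z‖ := by
    intro z hz
    rw [ha.ev_eq z hz]
    have h1 := hC z (ball_sub d hz)
    rw [norm_inv] at h1
    have h2 : 0 < ‖F z‖ := norm_pos_iff.2 (hF z (ball_sub d hz))
    apply inv_le_of_inv_le₀ h2
    exact h1.trans ((le_abs_self C).trans (by linarith))
  obtain ⟨b, hb, hab, hev⟩ := exists_inv ha.conv (inv_pos.2 hC') hlow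
  refine ⟨b, hb, isMult_inv (hol_mult ha) hb hab (inv_pos.2 hC') hlow, hab, fun z hz => ?_⟩
  rw [hev z hz, ha.ev_eq z hz]

theorem inv_dil (ha : Hol a F) (hF : ∀ z ∈ Ball d, F z ≠ 0) {ρ : ℝ} (h0 : 0 ≤ ρ) (h1 : ρ < 1) :
    ∃ G : A d, Conv G ∧ IsMult G ∧ dl ρ a * G = 1 ∧
      ∀ z ∈ Ball d, ev G z = (F (fun i => (ρ : ℂ) * z i))⁻¹ := by
  obtain ⟨G, h2, h3, h4, h5⟩ := h5_main (hol_dl ha h0 h1.le)
    (fun z hz => hF _ (smul_mem_ball hz h0 h1))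
  exact ⟨G, h2, h3, h4, h5⟩

theorem hol_inv (ha : Hol a F) (hF : ∀ z ∈ CB d, F z ≠ 0) :
    ∃ b : A d, Hol b (fun z => (F z)⁻¹) ∧ a * b = 1 := by
  obtain ⟨b, h2, h3, h4, h5⟩ := h5_main ha hF
  exact ⟨b, ⟨h2, ha.an.inv hF, h5⟩, h4⟩

end PCY
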