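import Pool.Agent.PCY.H2

/-!
# [PCY-M1] zeros near points where `F` is small

Notation: `Φ(z)(t) = F (t z)`.  For `z ∈ KB d r₂`, `‖t‖ r₂ ≤ r₁`: `t z ∈ KB d r₁` and the derivative of `t ↦ F (t z)` is
`fderiv ℂ F (t z) z`.  `L₁` = Lipschitz constant of `z ↦ fderiv ℂ F z` on the convex compact set `KB d r₁`
(`AnalyticOnNhd.fderiv`, a bound of the second derivative, mean value theorem), `‖z‖ ≤ r₁`.  So
`‖F (t z) - F z - (t-1) RF F z‖ ≤ L ‖t-1‖²` with `L = L₁ r₁² + 1` for `‖t-1‖ ≤ η := (r₁ - r₂)/r₁ ..` (then `‖t‖ r₂ ≤ r₁`)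
(mean value inequality for `t ↦ F (t z) - t RF F z` on the segment: derivative `fderiv F (t z) z - fderiv F z z`, norm
`≤ L₁ ‖t-1‖ ‖z‖²`).
`c₀ = min 1 (min (1/(18 L)) (η/3))`.  If `F z = 0` take `t = 1`.  Otherwise `δ = 3 ‖F z‖/y ≤ 3 c₀ y ≤ η`, `δ > 0`.  Suppose
`F (t z) ≠ 0` for all `‖t-1‖ ≤ δ`.  On the circle `‖t-1‖ = δ`: `‖F (t z)‖ ≥ δ y - ‖F z‖ - L δ² = 2‖F z‖ - 9 L ‖F z‖²/y²
≥ 2‖F z‖ - 9 L c₀ ‖F z‖ ≥ (3/2) ‖F z‖`.  The function `1/F (t z)` is holomorphic on the closed disc, so by the maximum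
principle `1/‖F z‖ ≤ 1/((3/2)‖F z‖)`, a contradiction (`Complex.norm_le_of_forall_mem_frontier_norm_le`).
-/

open MeasureTheory Set Filter Topology

namespace PCY

open PCM

variable {d : ℕ} {F : (Fin d → ℂ) → ℂ}

theorem M1_bd {d : ℕ} {E : Type} [NormedAddCommGroup E] (K : Set (Fin d → ℂ)) (hK : IsCompact K)
    (g : (Fin d → ℂ) → E) (hg : ContinuousOn g K) : ∃ C : ℝ, ∀ x ∈ K, ‖g x‖ ≤ C :=
  hK.exists_bound_of_continuousOn hg

theorem M1_smul {r₁ r₂ : ℝ} (h2 : 0 ≤ r₂) {z : Fin d → ℂ} (hz : z ∈ KB d r₂) {t : ℂ}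
    (ht : ‖t‖ * r₂ ≤ r₁) : (fun j => t * z j) ∈ KB d r₁ := by
  have hz' : ∑ i, ‖z i‖ ^ 2 ≤ r₂ ^ 2 := hz
  change ∑ i, ‖t * z i‖ ^ 2 ≤ r₁ ^ 2
  have e : ∑ i, ‖t * z i‖ ^ 2 = ‖t‖ ^ 2 * ∑ i, ‖z i‖ ^ 2 := by
    rw [Finset.mul_sum]
    refine Finset.sum_congr rfl fun i _ => ?_
    rw [norm_mul, mul_pow]
  rw [e]
  calc ‖t‖ ^ 2 * ∑ i, ‖z i‖ ^ 2 ≤ ‖t‖ ^ 2 * r₂ ^ 2 := mul_le_mul_of_nonneg_left hz' (by positivity)
    _ = (‖t‖ * r₂) ^ 2 := by ring
    _ ≤ r₁ ^ 2 := pow_le_pow_left₀ (mul_nonneg (norm_nonneg _) h2) ht 2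

theorem M1_norm {r : ℝ} (h : 0 ≤ r) {z : Fin d → ℂ} (hz : z ∈ KB d r) : ‖z‖ ≤ r := by
  rw [pi_norm_le_iff_of_nonneg h]
  intro i
  have hz' : ∑ i, ‖z i‖ ^ 2 ≤ r ^ 2 := hz
  have h1 : ‖z i‖ ^ 2 ≤ ∑ i, ‖z i‖ ^ 2 :=
    Finset.single_le_sum (f := fun i => ‖z i‖ ^ 2) (fun j _ => by positivity) (Finset.mem_univ i)
  exact (pow_le_pow_iff_left₀ (norm_nonneg _) h two_ne_zero).1 (h1.trans hz')

theorem M1_line (z : Fin d → ℂ) (s : ℂ) : HasDerivAt (fun s : ℂ => (fun j => s * z j : Fin d → ℂ)) z s := by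
  rw [hasDerivAt_pi]
  intro j
  simpa using (hasDerivAt_id s).mul_const (z j)

theorem M1_taylor (r₁ r₂ : ℝ) (h2 : 0 < r₂) (h12 : r₂ < r₁) (hF : AnalyticOnNhd ℂ F (KB d r₁)) :
    ∃ L : ℝ, 0 < L ∧ ∀ z ∈ KB d r₂, ∀ δ : ℝ, 0 ≤ δ → (1 + δ) * r₂ ≤ r₁ → ∀ t : ℂ, ‖t - 1‖ ≤ δ →
      ‖F (fun j => t * z j) - F z - (t - 1) * RF F z‖ ≤ L * δ ^ 2 := by
  have hg : AnalyticOnNhd ℂ (fderiv ℂ F) (KB d r₁) := hF.fderiv
  have hg2 : AnalyticOnNhd ℂ (fderiv ℂ (fderiv ℂ F)) (KB d r₁) := hg.fderiv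
  obtain ⟨C1, hC1⟩ : ∃ C1 : ℝ, ∀ x ∈ KB d r₁, ‖fderiv ℂ (fderiv ℂ F) x‖ ≤ C1 := by
    exact M1_bd (E := (Fin d → ℂ) →L[ℂ] (Fin d → ℂ) →L[ℂ] ℂ) _ (isCompact_KB d r₁) _ hg2.continuousOn
  refine ⟨|C1| * r₁ ^ 2 + 1, by positivity, ?_⟩
  intro z hz δ hδ hδ1 t ht
  have hmem : ∀ s : ℂ, s ∈ Metric.closedBall (1 : ℂ) δ → (fun j => s * z j) ∈ KB d r₁ := by
    intro s hs
    refine M1_smul h2.le hz ?_
    have h3 : ‖s - 1‖ ≤ δ := by
      rw [← dist_eq_norm]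
      exact hs
    have h4 : ‖s‖ ≤ ‖s - 1‖ + ‖(1 : ℂ)‖ := by
      have := norm_add_le (s - 1) 1
      rw [sub_add_cancel] at this
      exact this
    rw [norm_one] at h4
    exact (mul_le_mul_of_nonneg_right (show ‖s‖ ≤ 1 + δ by linarith) h2.le).trans hδ1
  have hone : (fun j => (1 : ℂ) * z j) = z := by
    funext j
    exact one_mul _
  have hz1 : z ∈ KB d r₁ := by
    have := hmem 1 (Metric.mem_closedBall_self hδ)
    rw [hone] at this
    exact this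
  have hnz : ‖z‖ ≤ r₁ := M1_norm (by linarith) hz1
  have hder : ∀ s ∈ Metric.closedBall (1 : ℂ) δ,
      HasDerivWithinAt (fun s : ℂ => F (fun j => s * z j) - s * RF F z)
        (fderiv ℂ F (fun j => s * z j) z - RF F z) (Metric.closedBall (1 : ℂ) δ) s := by
    intro s hs
    have h3 : HasFDerivAt F (fderiv ℂ F (fun j => s * z j)) (fun j => s * z j) :=
      (hF _ (hmem s hs)).differentiableAt.hasFDerivAt
    have h5 : HasDerivAt (fun s : ℂ => F (fun j => s * z j)) (fderiv ℂ F (fun j => s * z j) z) s :=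
      HasFDerivAt.comp_hasDerivAt (l := F) (f := fun s : ℂ => (fun j => s * z j : Fin d → ℂ)) s h3
        (M1_line z s)
    have h6 : HasDerivAt (fun s : ℂ => s * RF F z) (RF F z) s := by
      simpa using (hasDerivAt_id s).mul_const (RF F z)
    exact (h5.sub h6).hasDerivWithinAt
  have hb : ∀ s ∈ Metric.closedBall (1 : ℂ) δ,
      ‖fderiv ℂ F (fun j => s * z j) z - RF F z‖ ≤ |C1| * r₁ ^ 2 * δ := by
    intro s hs
    have h3 : ‖fderiv ℂ F (fun j => s * z j) - fderiv ℂ F z‖ ≤ |C1| * ‖(fun j => s * z j) - z‖ :=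
      Convex.norm_image_sub_le_of_norm_fderiv_le (𝕜 := ℂ) (fun x hx => (hg x hx).differentiableAt)
        (fun x hx => (hC1 x hx).trans (le_abs_self C1)) (convex_KB d r₁) hz1 (hmem s hs)
    have h4 : ‖(fun j => s * z j) - z‖ = ‖s - 1‖ * ‖z‖ := by
      have : (fun j => s * z j) - z = (s - 1) • z := by
        funext j
        simp only [Pi.sub_apply, Pi.smul_apply, smul_eq_mul]
        ring
      rw [this, norm_smul]
    have h5 : ‖s - 1‖ ≤ δ := by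
      rw [← dist_eq_norm]
      exact hs
    rw [h4] at h3
    have h6 : fderiv ℂ F (fun j => s * z j) z - RF F z =
        (fderiv ℂ F (fun j => s * z j) - fderiv ℂ F z) z := rfl
    rw [h6]
    calc ‖(fderiv ℂ F (fun j => s * z j) - fderiv ℂ F z) z‖
        ≤ ‖fderiv ℂ F (fun j => s * z j) - fderiv ℂ F z‖ * ‖z‖ := ContinuousLinearMap.le_opNorm _ _
      _ ≤ (|C1| * (‖s - 1‖ * ‖z‖)) * ‖z‖ := mul_le_mul_of_nonneg_right h3 (norm_nonneg _)
      _ ≤ (|C1| * (δ * r₁)) * r₁ := by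
          refine mul_le_mul (mul_le_mul_of_nonneg_left (mul_le_mul h5 hnz (norm_nonneg _) hδ)
            (abs_nonneg _)) hnz (norm_nonneg _) ?_
          exact mul_nonneg (abs_nonneg _) (mul_nonneg hδ (by linarith))
      _ = |C1| * r₁ ^ 2 * δ := by ring
  have hmain := Convex.norm_image_sub_le_of_norm_hasDerivWithin_le hder hb
    (convex_closedBall (1 : ℂ) δ) (Metric.mem_closedBall_self hδ)
    (show t ∈ Metric.closedBall (1 : ℂ) δ by
      rw [mem_closedBall_iff_norm]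
      exact ht)
  have e : F (fun j => t * z j) - F z - (t - 1) * RF F z =
      F (fun j => t * z j) - t * RF F z - (F (fun j => 1 * z j) - 1 * RF F z) := by
    rw [hone]
    ring
  rw [e]
  refine hmain.trans ?_
  calc |C1| * r₁ ^ 2 * δ * ‖t - 1‖ ≤ |C1| * r₁ ^ 2 * δ * δ :=
        mul_le_mul_of_nonneg_left ht (mul_nonneg (by positivity) hδ)
    _ ≤ (|C1| * r₁ ^ 2 + 1) * δ ^ 2 := by nlinarith [sq_nonneg δ]

theorem zero_near (r₁ r₂ : ℝ) (h2 : 0 < r₂) (h12 : r₂ < r₁) (hF : AnalyticOnNhd ℂ F (KB d r₁)) :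
    ∃ c₀ : ℝ, 0 < c₀ ∧ c₀ ≤ 1 ∧ ∀ z ∈ KB d r₂, ∀ y : ℝ, 0 < y → y ≤ 1 → y ≤ ‖RF F z‖ →
      ‖F z‖ ≤ c₀ * y ^ 2 → ∃ t : ℂ, ‖t - 1‖ ≤ 3 * ‖F z‖ / y ∧ F (fun j => t * z j) = 0 := by
  obtain ⟨L, hL, hT⟩ := M1_taylor r₁ r₂ h2 h12 hF
  have hη : 0 < (r₁ - r₂) / r₂ := div_pos (by linarith) h2
  refine ⟨min 1 (min (1 / (18 * L)) ((r₁ - r₂) / r₂ / 3)), ?_, min_le_left _ _, ?_⟩
  · exact lt_min one_pos (lt_min (by positivity) (by positivity))
  generalize hc : min 1 (min (1 / (18 * L)) ((r₁ - r₂) / r₂ / 3)) = c₀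
  have hc1 : c₀ ≤ 1 / (18 * L) := by
    rw [← hc]
    exact (min_le_right _ _).trans (min_le_left _ _)
  have hc2 : c₀ ≤ (r₁ - r₂) / r₂ / 3 := by
    rw [← hc]
    exact (min_le_right _ _).trans (min_le_right _ _)
  have hc0 : 0 < c₀ := by
    rw [← hc]
    exact lt_min one_pos (lt_min (by positivity) (by positivity))
  intro z hz y hy hy1 hyR hFz
  have hone : (fun j => (1 : ℂ) * z j) = z := by
    funext j
    exact one_mul _
  by_cases hF0 : F z = 0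
  · refine ⟨1, ?_, ?_⟩
    · rw [sub_self, norm_zero, hF0, norm_zero, mul_zero, zero_div]
    · rw [hone]
      exact hF0
  have hFp : 0 < ‖F z‖ := norm_pos_iff.2 hF0
  obtain ⟨δ, hδ⟩ : ∃ δ : ℝ, δ = 3 * ‖F z‖ / y := ⟨_, rfl⟩
  have hδy : δ * y = 3 * ‖F z‖ := by
    rw [hδ, div_mul_cancel₀ _ hy.ne']
  have hδ0 : 0 < δ := by
    rw [hδ]
    positivity
  have hδc : δ ≤ 3 * c₀ * y := by
    have h3 : δ * y ≤ 3 * c₀ * y * y := by
      rw [hδy]
      nlinarith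
    exact le_of_mul_le_mul_right h3 hy
  have hδη : δ ≤ (r₁ - r₂) / r₂ := by
    have h3 : 3 * c₀ * y ≤ 3 * c₀ := by
      have := mul_le_mul_of_nonneg_left hy1 (show (0 : ℝ) ≤ 3 * c₀ by positivity)
      linarith
    linarith
  have hδr : (1 + δ) * r₂ ≤ r₁ := by
    have h3 := mul_le_mul_of_nonneg_right hδη h2.le
    rw [div_mul_cancel₀ _ h2.ne'] at h3
    linarith
  rw [← hδ]
  by_contra hcon
  push Not at hcon
  have hLδ : L * δ ^ 2 ≤ (1 / 2) * ‖F z‖ := by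
    have h3 : L * δ ≤ L * (3 * c₀ * y) := mul_le_mul_of_nonneg_left hδc hL.le
    have h4 : L * c₀ ≤ 1 / 18 := by
      have h5 := mul_le_mul_of_nonneg_left hc1 hL.le
      have h6 : L * (1 / (18 * L)) = 1 / 18 := by field_simp
      linarith
    have h7 : L * δ ≤ (1 / 6) * y := by
      have h8 : L * (3 * c₀ * y) = (L * c₀) * (3 * y) := by ring
      have h9 : (L * c₀) * (3 * y) ≤ (1 / 18) * (3 * y) :=
        mul_le_mul_of_nonneg_right h4 (by positivity)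
      linarith
    calc L * δ ^ 2 = (L * δ) * δ := by ring
      _ ≤ ((1 / 6) * y) * δ := mul_le_mul_of_nonneg_right h7 hδ0.le
      _ = (1 / 6) * (δ * y) := by ring
      _ = (1 / 2) * ‖F z‖ := by rw [hδy]; ring
  have hball : closure (Metric.ball (1 : ℂ) δ) = Metric.closedBall (1 : ℂ) δ :=
    closure_ball (1 : ℂ) hδ0.ne'
  have hmem : ∀ s : ℂ, s ∈ Metric.closedBall (1 : ℂ) δ → (fun j => s * z j) ∈ KB d r₁ := by
    intro s hs
    refine M1_smul h2.le hz ?_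
    have h3 : ‖s - 1‖ ≤ δ := by
      rw [← dist_eq_norm]
      exact hs
    have h4 : ‖s‖ ≤ ‖s - 1‖ + ‖(1 : ℂ)‖ := by
      have := norm_add_le (s - 1) 1
      rw [sub_add_cancel] at this
      exact this
    rw [norm_one] at h4
    exact (mul_le_mul_of_nonneg_right (show ‖s‖ ≤ 1 + δ by linarith) h2.le).trans hδr
  have hne : ∀ s ∈ Metric.closedBall (1 : ℂ) δ, F (fun j => s * z j) ≠ 0 := by
    intro s hs
    exact hcon s (by
      rw [← dist_eq_norm]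
      exact hs)
  have hdiff : DiffContOnCl ℂ (fun s : ℂ => (F (fun j => s * z j))⁻¹) (Metric.ball (1 : ℂ) δ) := by
    refine DifferentiableOn.diffContOnCl ?_
    rw [hball]
    intro s hs
    have h3 : DifferentiableAt ℂ F (fun j => s * z j) := (hF _ (hmem s hs)).differentiableAt
    have h4 : DifferentiableAt ℂ (fun s : ℂ => F (fun j => s * z j)) s :=
      (HasFDerivAt.comp_hasDerivAt (l := F) (f := fun s : ℂ => (fun j => s * z j : Fin d → ℂ)) s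
        h3.hasFDerivAt (M1_line z s)).differentiableAt
    exact (h4.fun_inv (hne s hs)).differentiableWithinAt
  have hfr : ∀ s ∈ frontier (Metric.ball (1 : ℂ) δ),
      ‖(F (fun j => s * z j))⁻¹‖ ≤ ((3 / 2) * ‖F z‖)⁻¹ := by
    intro s hs
    rw [frontier_ball (1 : ℂ) hδ0.ne'] at hs
    have h3 : ‖s - 1‖ = δ := by
      rw [← dist_eq_norm]
      exact hs
    have h4 := hT z hz δ hδ0.le hδr s h3.le
    have h5 : δ * y ≤ ‖(s - 1) * RF F z‖ := by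
      rw [norm_mul, h3]
      exact mul_le_mul_of_nonneg_left hyR hδ0.le
    have h6 : ‖(s - 1) * RF F z‖ ≤ ‖F (fun j => s * z j)‖ + ‖F z‖ +
        ‖F (fun j => s * z j) - F z - (s - 1) * RF F z‖ := by
      have e : (s - 1) * RF F z = (F (fun j => s * z j) - F z) -
          (F (fun j => s * z j) - F z - (s - 1) * RF F z) := by ring
      calc ‖(s - 1) * RF F z‖ = ‖(F (fun j => s * z j) - F z) -
          (F (fun j => s * z j) - F z - (s - 1) * RF F z)‖ := congrArg _ e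
        _ ≤ ‖F (fun j => s * z j) - F z‖ + ‖F (fun j => s * z j) - F z - (s - 1) * RF F z‖ :=
          norm_sub_le _ _
        _ ≤ _ := by
          have := norm_sub_le (F (fun j => s * z j)) (F z)
          linarith
    have h7 : (3 / 2) * ‖F z‖ ≤ ‖F (fun j => s * z j)‖ := by linarith
    rw [norm_inv]
    exact inv_anti₀ (by positivity) h7
  have hfin := Complex.norm_le_of_forall_mem_frontier_norm_le Metric.isBounded_ball hdiff hfr
    (show (1 : ℂ) ∈ closure (Metric.ball (1 : ℂ) δ) by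
      rw [hball]
      exact Metric.mem_closedBall_self hδ0.le)
  rw [hone, norm_inv] at hfin
  have h8 := (inv_le_inv₀ hFp (by positivity)).1 hfin
  linarith

end PCY
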