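import Pool.Agent.PCY.M1

/-!
# [PCY-M8] points where `F` is small are near the sphere

`c₀` from `zero_near` with `r₂ = 1`.  If `‖F z‖ ≤ x ≤ c₀ y²`: `t` with `‖t - 1‖ ≤ 3x/y` and `F (t z) = 0`, so `t z` is not in
the ball: `1 ≤ ‖t‖² V`, `V = ∑ ‖z i‖²`, `‖t‖ ≤ 1 + 3x/y =: 1 + u`; `1 - V ≤ (‖t‖² - 1) V ≤ 2u + u² ≤ 5 u` (`u ≤ 3 c₀ y ≤ 3`), and
`u = 3x/y ≤ 3x/y²` as `y ≤ 1`.  If `x > c₀ y²`: `1 - V ≤ 1 ≤ x/(c₀ y²)`.
-/

open MeasureTheory Set Filter Topology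

namespace PCY

open PCM

variable {d : ℕ} {F : (Fin d → ℂ) → ℂ}

theorem depth (r₁ : ℝ) (hr₁ : 1 < r₁) (hF : AnalyticOnNhd ℂ F (KB d r₁))
    (hF0 : ∀ z ∈ Ball d, F z ≠ 0) : ∃ C : ℝ, 0 < C ∧ ∀ x y : ℝ, 0 < x → 0 < y → y ≤ 1 →
      ∀ z ∈ Ball d, ‖F z‖ ≤ x → y ≤ ‖RF F z‖ → 1 - ∑ i, ‖z i‖ ^ 2 ≤ C * (x / y ^ 2) := by
  obtain ⟨c₀, hc0, hc1, hzero⟩ := zero_near r₁ 1 one_pos hr₁ hF
  refine ⟨15 + 1 / c₀, by positivity, fun x y hx hy hy1 z hz hFx hRF => ?_⟩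
  have hy2 : 0 < y ^ 2 := by positivity
  obtain ⟨q, hq⟩ : ∃ q, q = x / y ^ 2 := ⟨_, rfl⟩
  have hxq : x = q * y ^ 2 := by
    rw [hq]
    field_simp
  have hq0 : 0 < q := by
    rw [hq]
    positivity
  rw [← hq]
  obtain ⟨V, hV⟩ : ∃ V, V = ∑ i, ‖z i‖ ^ 2 := ⟨_, rfl⟩
  have hV0 : 0 ≤ V := by
    rw [hV]
    positivity
  have hV1 : V ≤ 1 := by
    rw [hV]
    exact ball_sub d hz
  rw [← hV]
  by_cases h : ‖F z‖ ≤ c₀ * y ^ 2
  · have hzK : z ∈ KB d 1 := by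
      show ∑ i, ‖z i‖ ^ 2 ≤ 1 ^ 2
      rw [one_pow]
      exact ball_sub d hz
    obtain ⟨t, ht, hFt⟩ := hzero z hzK y hy hy1 hRF h
    have ht1 : 1 ≤ ‖t‖ ^ 2 * V := by
      by_contra hc
      push Not at hc
      refine hF0 (fun j => t * z j) ?_ hFt
      show ∑ i, ‖t * z i‖ ^ 2 < 1
      have e1 : ∑ i, ‖t * z i‖ ^ 2 = ‖t‖ ^ 2 * V := by
        rw [hV, Finset.mul_sum]
        refine Finset.sum_congr rfl fun i _ => ?_
        rw [norm_mul, mul_pow]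
      rw [e1]
      exact hc
    obtain ⟨u, hu⟩ : ∃ u, u = 3 * ‖F z‖ / y := ⟨_, rfl⟩
    rw [← hu] at ht
    have huy : u * y = 3 * ‖F z‖ := by
      rw [hu]
      field_simp
    have hu0 : 0 ≤ u := (norm_nonneg _).trans ht
    have hu3 : u ≤ 3 := by
      have h1 : u * y ≤ 3 * y := by
        rw [huy]
        nlinarith
      exact le_of_mul_le_mul_right h1 hy
    have huq : u ≤ 3 * q := by
      have h1 : u * y ≤ (3 * q) * y := by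
        rw [huy]
        have h2 : q * y ^ 2 ≤ q * y := by nlinarith
        linarith
      exact le_of_mul_le_mul_right h1 hy
    have htu : ‖t‖ ≤ 1 + u := by
      have h1 : ‖t‖ ≤ ‖(1 : ℂ)‖ + ‖t - 1‖ := by
        calc ‖t‖ = ‖1 + (t - 1)‖ := by rw [add_sub_cancel]
          _ ≤ _ := norm_add_le _ _
      rw [norm_one] at h1
      linarith
    have ht2 : ‖t‖ ^ 2 ≤ (1 + u) ^ 2 := pow_le_pow_left₀ (norm_nonneg _) htu 2
    have h3 : 1 ≤ (1 + u) ^ 2 * V := ht1.trans (mul_le_mul_of_nonneg_right ht2 hV0)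
    have e2 : (1 + u) ^ 2 * V = V + (2 * u + u ^ 2) * V := by ring
    have e3 : (2 * u + u ^ 2) * V ≤ (2 * u + u ^ 2) * 1 :=
      mul_le_mul_of_nonneg_left hV1 (by positivity)
    have e4 : u ^ 2 ≤ 3 * u := by nlinarith
    have h4 : 1 - V ≤ 5 * u := by linarith
    have h5 : 0 ≤ 1 / c₀ * q := by positivity
    linarith
  · push Not at h
    have h1 : c₀ ≤ q := by
      have h2 : c₀ * y ^ 2 ≤ q * y ^ 2 := by linarith
      exact le_of_mul_le_mul_right h2 hy2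
    have h3 : 1 ≤ 1 / c₀ * q := by
      rw [div_mul_eq_mul_div, one_mul, le_div_iff₀ hc0, one_mul]
      exact h1
    linarith

end PCY
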