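import Pool.Agent.PCY.Defs

/-!
# [PCY-M9] a dyadic summation (pure measure theory)

`σ = 0`: the left side is `0`.  Let `σ > 0`.  `N₀ = 2(m+1) + A + 5` (so `2N ≥ N₀` with room, and `N ≥ 1`).
`x_k = M 2^(-k)`, `y_l = M 2^(-l)`, `B_{kl} = {ω ∈ B | x_(k+1) < X ω ≤ x_k, y_(l+1) < Y ω ≤ y_l}` (measurable).  Every `ω ∈ B` with
`Y ω > 0` is in some `B_{kl}`; where `Y ω = 0` the integrand is `0`.  So `∫⁻_B ≤ ∑_k ∑_l ∫⁻_{B_kl}` (`lintegral_iUnion_le`,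
after splitting off `{Y = 0}`).
On `B_{kl}`: `W ≤ 4 C x_k/y_l²` (hypothesis with `x = x_k`, `y = y_(l+1) = y_l/2`), `Y ≤ y_l`, `X ≥ x_k/2`: the integrand is
`≤ (4 C x_k/y_l²)^(m+1) y_l^(2N) (2/x_k)^(2p)`; `μ B_{kl} ≤ C (2/y_l)^A x_k² √x_k^m`; and `σ ≤ 4 C x_k/y_l²` if `B_{kl} ≠ ∅`.
`x^(m+1) x² √x^m ≤ M^(3m+10) x^(2p) x^(-2)` for `0 < x ≤ M` because `4p ≤ 3m + 10`: square both sides,
`x^(2(m+5) + m) = x^(3m+10) = x^(4p) x^(3m+10-4p) ≤ x^(4p) M^(3m+10)`.  So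
`σ² ∫⁻_{B_kl} ≤ c y_l^(2N - 2(m+1) - A) σ² x_k^(-2) [σ ≤ 4 C x_k/y_l²]` with `c` depending on `m, M, C, A, p` only.
For fixed `l`: `x_k^(-2) = M^(-2) 4^k` and the condition says `4^k ≤ (4 C M)²/(σ² y_l^4) =: Q`; `∑_k 4^k [4^k ≤ Q] ≤ (4/3) Q`
(finite geometric sum up to the largest such `k`; compare `PCX/X8`).  So the sum over `k` is `≤ c' y_l^(2N-2(m+1)-A-4)`, and
`∑_l y_l^e ≤ M^e 2` for `e ≥ 1` (`y_l^e ≤ M^e 2^(-l)`).
-/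

open MeasureTheory Set Filter Topology

namespace PCY

private theorem m9_a {m p : ℕ} {M x : ℝ} (hM : 1 ≤ M) (hx : 0 < x) (hxM : x ≤ M)
    (hp : 4 * p ≤ 3 * m + 10) :
    x ^ (m + 3) * Real.sqrt x ^ m * (x ^ (2 * p))⁻¹ ≤ M ^ (3 * m + 10) * (x ^ 2)⁻¹ := by
  have h1 : x ^ (m + 5) * Real.sqrt x ^ m ≤ M ^ (3 * m + 10) * x ^ (2 * p) := by
    rw [← pow_le_pow_iff_left₀ (by positivity) (by positivity) (two_ne_zero)]
    have h2 : (x ^ (m + 5) * Real.sqrt x ^ m) ^ 2 = x ^ (4 * p) * x ^ (3 * m + 10 - 4 * p) := by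
      rw [mul_pow, ← pow_mul, ← pow_mul, mul_comm m 2, pow_mul (Real.sqrt x), Real.sq_sqrt hx.le,
        ← pow_add, ← pow_add]
      congr 1
      omega
    have h3 : (M ^ (3 * m + 10) * x ^ (2 * p)) ^ 2 = x ^ (4 * p) * M ^ (2 * (3 * m + 10)) := by
      rw [mul_pow, ← pow_mul, ← pow_mul, mul_comm, mul_comm (3 * m + 10) 2]
      congr 2
      ring
    rw [h2, h3]
    refine mul_le_mul_of_nonneg_left ?_ (by positivity)
    calc x ^ (3 * m + 10 - 4 * p) ≤ M ^ (3 * m + 10 - 4 * p) := pow_le_pow_left₀ hx.le hxM _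
      _ ≤ M ^ (2 * (3 * m + 10)) := pow_le_pow_right₀ hM (by omega)
  have h4 : x ^ (m + 3) * Real.sqrt x ^ m * (x ^ (2 * p))⁻¹ =
      (x ^ (m + 5) * Real.sqrt x ^ m) * ((x ^ (2 * p))⁻¹ * (x ^ 2)⁻¹) := by
    have : x ^ (m + 5) = x ^ (m + 3) * x ^ 2 := by rw [← pow_add]
    rw [this]
    field_simp
  rw [h4]
  calc (x ^ (m + 5) * Real.sqrt x ^ m) * ((x ^ (2 * p))⁻¹ * (x ^ 2)⁻¹)
      ≤ (M ^ (3 * m + 10) * x ^ (2 * p)) * ((x ^ (2 * p))⁻¹ * (x ^ 2)⁻¹) :=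
        mul_le_mul_of_nonneg_right h1 (by positivity)
    _ = M ^ (3 * m + 10) * (x ^ 2)⁻¹ := by field_simp

private theorem m9_b {m : ℕ} {x : ℝ} (hx : 0 < x) :
    (2 * x) ^ 2 * Real.sqrt (2 * x) ^ m ≤ 4 * 2 ^ m * (x ^ 2 * Real.sqrt x ^ m) := by
  have h1 : Real.sqrt (2 * x) ≤ 2 * Real.sqrt x := by
    rw [Real.sqrt_mul (by norm_num)]
    refine mul_le_mul_of_nonneg_right ?_ (Real.sqrt_nonneg _)
    rw [Real.sqrt_le_left (by norm_num)]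
    norm_num
  have h2 : Real.sqrt (2 * x) ^ m ≤ 2 ^ m * Real.sqrt x ^ m := by
    rw [← mul_pow]
    exact pow_le_pow_left₀ (Real.sqrt_nonneg _) h1 m
  calc (2 * x) ^ 2 * Real.sqrt (2 * x) ^ m ≤ (2 * x) ^ 2 * (2 ^ m * Real.sqrt x ^ m) :=
        mul_le_mul_of_nonneg_left h2 (by positivity)
    _ = _ := by ring

private theorem m9_core {m p N A : ℕ} {M C σ x y1 : ℝ} {j l : ℕ} (hM : 1 ≤ M) (hC : 1 ≤ C)
    (hσ : 0 < σ) (hN : m + A + 4 ≤ N) (hp : 4 * p ≤ 3 * m + 10)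
    (hy1 : y1 = M * (1 / 2) ^ (l + 1)) (hx : x = 2 ^ j * (σ * y1 ^ 2 / C)) (hxM : x ≤ M) :
    σ ^ 2 * (((C * (2 * x / y1 ^ 2)) ^ (m + 1) * ((2 * y1) ^ (2 * N) * (x ^ (2 * p))⁻¹)) *
      (C * y1⁻¹ ^ A * ((2 * x) ^ 2 * Real.sqrt (2 * x) ^ m))) ≤
    (2 ^ (m + 1) * 4 * 2 ^ m * C ^ (m + 4) * M ^ (3 * m + 10) * 2 ^ (2 * N) *
      M ^ (2 * N - (2 * m + 6 + A))) * ((1 / 4) ^ j * (1 / 2) ^ l) := by
  have hM0 : 0 < M := by linarith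
  have hC0 : 0 < C := by linarith
  have hy1p : 0 < y1 := by rw [hy1]; positivity
  have hxp : 0 < x := by rw [hx]; positivity
  have ha := m9_a (m := m) (p := p) hM hxp hxM hp
  have hb := m9_b (m := m) hxp
  -- step 1
  have h1 : σ ^ 2 * (((C * (2 * x / y1 ^ 2)) ^ (m + 1) * ((2 * y1) ^ (2 * N) * (x ^ (2 * p))⁻¹)) *
      (C * y1⁻¹ ^ A * ((2 * x) ^ 2 * Real.sqrt (2 * x) ^ m))) ≤
      σ ^ 2 * (((C * (2 * x / y1 ^ 2)) ^ (m + 1) * ((2 * y1) ^ (2 * N) * (x ^ (2 * p))⁻¹)) *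
      (C * y1⁻¹ ^ A * (4 * 2 ^ m * (x ^ 2 * Real.sqrt x ^ m)))) := by
    refine mul_le_mul_of_nonneg_left ?_ (by positivity)
    refine mul_le_mul_of_nonneg_left ?_ (by positivity)
    exact mul_le_mul_of_nonneg_left hb (by positivity)
  refine h1.trans ?_
  have h2 : σ ^ 2 * (((C * (2 * x / y1 ^ 2)) ^ (m + 1) * ((2 * y1) ^ (2 * N) * (x ^ (2 * p))⁻¹)) *
      (C * y1⁻¹ ^ A * (4 * 2 ^ m * (x ^ 2 * Real.sqrt x ^ m)))) =
      (2 ^ (m + 1) * 4 * 2 ^ m * C ^ (m + 2)) * (σ ^ 2 * (2 ^ (2 * N) * (y1 ^ (2 * N) *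
        (y1⁻¹ ^ (2 * (m + 1)) * y1⁻¹ ^ A)))) * (x ^ (m + 3) * Real.sqrt x ^ m * (x ^ (2 * p))⁻¹) := by
    have e1 : (C * (2 * x / y1 ^ 2)) ^ (m + 1) =
        C ^ (m + 1) * (2 ^ (m + 1) * x ^ (m + 1) * y1⁻¹ ^ (2 * (m + 1))) := by
      rw [mul_pow, div_eq_mul_inv, mul_pow, mul_pow, pow_mul, inv_pow, inv_pow y1,
        inv_pow (y1 ^ 2)]
    have e2 : C ^ (m + 2) = C ^ (m + 1) * C := by rw [← pow_succ]
    have e3 : x ^ (m + 3) = x ^ (m + 1) * x ^ 2 := by rw [← pow_add]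
    rw [e1, e2, e3, mul_pow 2 y1]
    ring
  rw [h2]
  have h3 : (2 ^ (m + 1) * 4 * 2 ^ m * C ^ (m + 2)) * (σ ^ 2 * (2 ^ (2 * N) * (y1 ^ (2 * N) *
        (y1⁻¹ ^ (2 * (m + 1)) * y1⁻¹ ^ A)))) * (x ^ (m + 3) * Real.sqrt x ^ m * (x ^ (2 * p))⁻¹) ≤
      (2 ^ (m + 1) * 4 * 2 ^ m * C ^ (m + 2)) * (σ ^ 2 * (2 ^ (2 * N) * (y1 ^ (2 * N) *
        (y1⁻¹ ^ (2 * (m + 1)) * y1⁻¹ ^ A)))) * (M ^ (3 * m + 10) * (x ^ 2)⁻¹) :=
    mul_le_mul_of_nonneg_left ha (by positivity)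
  refine h3.trans ?_
  have h4 : σ ^ 2 * (x ^ 2)⁻¹ = (1 / 4) ^ j * C ^ 2 * y1⁻¹ ^ 4 := by
    rw [hx]
    have e4 : (1 / 4 : ℝ) ^ j = (((2 : ℝ) ^ j) ^ 2)⁻¹ := by
      rw [← pow_mul, mul_comm j 2, pow_mul, one_div, inv_pow]
      norm_num
    rw [e4]
    have : (0 : ℝ) < 2 ^ j := by positivity
    field_simp
  have h5 : (2 ^ (m + 1) * 4 * 2 ^ m * C ^ (m + 2)) * (σ ^ 2 * (2 ^ (2 * N) * (y1 ^ (2 * N) *
        (y1⁻¹ ^ (2 * (m + 1)) * y1⁻¹ ^ A)))) * (M ^ (3 * m + 10) * (x ^ 2)⁻¹) =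
      (2 ^ (m + 1) * 4 * 2 ^ m * C ^ (m + 4) * M ^ (3 * m + 10) * 2 ^ (2 * N)) * (1 / 4) ^ j *
        (y1 ^ (2 * N) * y1⁻¹ ^ (2 * m + 6 + A)) := by
    have e5 : C ^ (m + 4) = C ^ (m + 2) * C ^ 2 := by rw [← pow_add]
    have e6 : y1⁻¹ ^ (2 * m + 6 + A) = y1⁻¹ ^ (2 * (m + 1)) * y1⁻¹ ^ A * y1⁻¹ ^ 4 := by
      rw [← pow_add, ← pow_add]
      congr 1
      ring
    rw [e5, e6]
    linear_combination ((2 ^ (m + 1) * 4 * 2 ^ m * C ^ (m + 2)) * (2 ^ (2 * N) * (y1 ^ (2 * N) *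
        (y1⁻¹ ^ (2 * (m + 1)) * y1⁻¹ ^ A))) * M ^ (3 * m + 10)) * h4
  rw [h5]
  have h6 : y1 ^ (2 * N) * y1⁻¹ ^ (2 * m + 6 + A) = y1 ^ (2 * N - (2 * m + 6 + A)) := by
    have e7 : y1 ^ (2 * N) = y1 ^ (2 * N - (2 * m + 6 + A)) * y1 ^ (2 * m + 6 + A) := by
      rw [← pow_add]
      congr 1
      omega
    rw [e7, mul_assoc, ← mul_pow, mul_inv_cancel₀ hy1p.ne', one_pow, mul_one]
  have h7 : y1 ^ (2 * N - (2 * m + 6 + A)) ≤ M ^ (2 * N - (2 * m + 6 + A)) * (1 / 2) ^ l := by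
    rw [hy1, mul_pow]
    refine mul_le_mul_of_nonneg_left ?_ (by positivity)
    rw [← pow_mul]
    refine pow_le_pow_of_le_one (by norm_num) (by norm_num) ?_
    have e8 : 1 ≤ 2 * N - (2 * m + 6 + A) := by omega
    calc l ≤ (l + 1) * 1 := by omega
      _ ≤ (l + 1) * (2 * N - (2 * m + 6 + A)) := Nat.mul_le_mul_left _ e8
  rw [h6]
  calc (2 ^ (m + 1) * 4 * 2 ^ m * C ^ (m + 4) * M ^ (3 * m + 10) * 2 ^ (2 * N)) * (1 / 4) ^ j *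
        y1 ^ (2 * N - (2 * m + 6 + A))
      ≤ (2 ^ (m + 1) * 4 * 2 ^ m * C ^ (m + 4) * M ^ (3 * m + 10) * 2 ^ (2 * N)) * (1 / 4) ^ j *
        (M ^ (2 * N - (2 * m + 6 + A)) * (1 / 2) ^ l) :=
        mul_le_mul_of_nonneg_left h7 (by positivity)
    _ = _ := by ring

private theorem m9_sum (K : ℝ) (hK : 0 ≤ K) :
    ∑' l : ℕ, ∑' j : ℕ, ENNReal.ofReal (K * ((1 / 4) ^ j * (1 / 2) ^ l)) ≠ ⊤ := by
  have h1 : ∀ l j : ℕ, ENNReal.ofReal (K * ((1 / 4) ^ j * (1 / 2) ^ l)) =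
      ENNReal.ofReal K * (ENNReal.ofReal ((1 / 4) ^ j) * ENNReal.ofReal ((1 / 2) ^ l)) := by
    intro l j
    rw [ENNReal.ofReal_mul hK, ENNReal.ofReal_mul (by positivity)]
  simp only [h1]
  simp only [ENNReal.tsum_mul_left, ENNReal.tsum_mul_right]
  have h2 : ∀ q : ℝ, 0 ≤ q → q < 1 → ∑' j : ℕ, ENNReal.ofReal (q ^ j) ≠ ⊤ := by
    intro q hq0 hq1
    rw [← ENNReal.ofReal_tsum_of_nonneg (fun n => pow_nonneg hq0 n)
      (summable_geometric_of_lt_one hq0 hq1)]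
    exact ENNReal.ofReal_ne_top
  exact ENNReal.mul_ne_top ENNReal.ofReal_ne_top
    (ENNReal.mul_ne_top (h2 _ (by norm_num) (by norm_num)) (h2 _ (by norm_num) (by norm_num)))

theorem dyadic {Ω : Type} [MeasurableSpace Ω] (μ : Measure Ω) (B : Set Ω) (hB : MeasurableSet B)
    (m : ℕ) (M C : ℝ) (A : ℕ) (hM : 1 ≤ M) (hC : 1 ≤ C) :
    ∃ N₀ : ℕ, ∀ N p : ℕ, N₀ ≤ N → 4 * p ≤ 3 * m + 10 → ∃ C' : NNReal,
      ∀ (X Y W : Ω → ℝ) (σ : ℝ), Measurable X → Measurable Y → 0 ≤ σ →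
      (∀ ω ∈ B, 0 < X ω ∧ X ω ≤ M ∧ 0 ≤ Y ω ∧ Y ω ≤ M ∧ 0 ≤ W ω) →
      (∀ x y : ℝ, 0 < x → x ≤ M → 0 < y → y ≤ M →
        μ {ω | ω ∈ B ∧ X ω ≤ x ∧ y ≤ Y ω} ≤
          ENNReal.ofReal (C * y⁻¹ ^ A * (x ^ 2 * Real.sqrt x ^ m))) →
      (∀ ω ∈ B, ∀ x y : ℝ, 0 < x → 0 < y → X ω ≤ x → y ≤ Y ω →
        W ω ≤ C * (x / y ^ 2) ∧ σ ≤ C * (x / y ^ 2)) →
      ENNReal.ofReal (σ ^ 2) *
        ∫⁻ ω in B, ENNReal.ofReal (W ω ^ (m + 1) * (Y ω ^ (2 * N) * (X ω ^ (2 * p))⁻¹)) ∂μ ≤ C' := by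
  refine ⟨m + A + 4, fun N p hN hp => ?_⟩
  have hM0 : 0 < M := by linarith
  have hC0 : 0 < C := by linarith
  set K : ℝ := 2 ^ (m + 1) * 4 * 2 ^ m * C ^ (m + 4) * M ^ (3 * m + 10) * 2 ^ (2 * N) *
      M ^ (2 * N - (2 * m + 6 + A)) with hK
  have hK0 : 0 ≤ K := by positivity
  have hT := m9_sum K hK0
  set T := ∑' l : ℕ, ∑' j : ℕ, ENNReal.ofReal (K * ((1 / 4) ^ j * (1 / 2) ^ l)) with hTdef
  refine ⟨T.toNNReal, ?_⟩
  intro X Y W σ hX hY hσ hB1 hB2 hB3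
  rw [ENNReal.coe_toNNReal hT]
  rcases hσ.eq_or_lt with hσ0 | hσpos
  · rw [← hσ0]
    simp
  set f : Ω → ENNReal := fun ω => ENNReal.ofReal (W ω ^ (m + 1) * (Y ω ^ (2 * N) * (X ω ^ (2 * p))⁻¹))
    with hf
  -- the pieces
  set y1 : ℕ → ℝ := fun l => M * (1 / 2) ^ (l + 1) with hy1
  set xx : ℕ → ℕ → ℝ := fun l j => 2 ^ j * (σ * y1 l ^ 2 / C) with hxx
  set P : ℕ → ℕ → Set Ω := fun l j =>
    {ω | ω ∈ B ∧ (xx l j ≤ X ω ∧ X ω ≤ 2 * xx l j) ∧ (y1 l ≤ Y ω ∧ Y ω ≤ 2 * y1 l)} with hP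
  have hy1p : ∀ l, 0 < y1 l := fun l => by
    simp only [hy1]
    positivity
  have hxxp : ∀ l j, 0 < xx l j := fun l j => by
    have := hy1p l
    simp only [hxx]
    positivity
  have hPm : ∀ l j, MeasurableSet (P l j) := by
    intro l j
    have e1 : P l j = B ∩ (((X ⁻¹' Set.Ici (xx l j)) ∩ (X ⁻¹' Set.Iic (2 * xx l j))) ∩
        ((Y ⁻¹' Set.Ici (y1 l)) ∩ (Y ⁻¹' Set.Iic (2 * y1 l)))) := by
      rfl
    rw [e1]
    exact hB.inter (((hX measurableSet_Ici).inter (hX measurableSet_Iic)).inter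
      ((hY measurableSet_Ici).inter (hY measurableSet_Iic)))
  have hcov : B ⊆ (B ∩ {ω | Y ω = 0}) ∪ ⋃ l, ⋃ j, P l j := by
    intro ω hω
    obtain ⟨b1, b2, b3, b4, b5⟩ := hB1 ω hω
    rcases b3.eq_or_lt with hY0 | hYpos
    · left
      exact ⟨hω, hY0.symm⟩
    · right
      rw [Set.mem_iUnion]
      obtain ⟨l, hl1, hl2⟩ := exists_nat_pow_near_of_lt_one (x := Y ω / M) (y := 1 / 2)
        (by positivity) ((div_le_one hM0).2 b4) (by norm_num) (by norm_num)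
      refine ⟨l, ?_⟩
      rw [Set.mem_iUnion]
      have hyl : y1 l < Y ω := by
        rw [lt_div_iff₀ hM0] at hl1
        simp only [hy1]
        linarith
      have hyl2 : Y ω ≤ 2 * y1 l := by
        rw [div_le_iff₀ hM0] at hl2
        simp only [hy1]
        rw [pow_succ]
        linarith
      have hδ : 0 < σ * y1 l ^ 2 / C := by
        have := hy1p l
        positivity
      have hXδ : 1 ≤ X ω / (σ * y1 l ^ 2 / C) := by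
        rw [one_le_div hδ, div_le_iff₀ hC0]
        have h1 := (hB3 ω hω (X ω) (y1 l) b1 (hy1p l) le_rfl hyl.le).2
        rw [← mul_div_assoc, le_div_iff₀ (by have := hy1p l; positivity)] at h1
        linarith
      obtain ⟨j, hj1, hj2⟩ := exists_nat_pow_near hXδ (by norm_num : (1 : ℝ) < 2)
      refine ⟨j, hω, ⟨?_, ?_⟩, hyl.le, hyl2⟩
      · rw [le_div_iff₀ hδ] at hj1
        exact hj1
      · rw [div_lt_iff₀ hδ] at hj2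
        simp only [hxx]
        rw [pow_succ] at hj2
        linarith
  have hzero : ∫⁻ ω in B ∩ {ω | Y ω = 0}, f ω ∂μ = 0 := by
    have hms : MeasurableSet (B ∩ {ω | Y ω = 0}) := hB.inter (hY (measurableSet_singleton 0))
    have e1 : ∫⁻ ω in B ∩ {ω | Y ω = 0}, f ω ∂μ = ∫⁻ ω in B ∩ {ω | Y ω = 0}, 0 ∂μ := by
      refine setLIntegral_congr_fun hms ?_
      intro ω hω
      have h0 : Y ω = 0 := hω.2
      have h2N : 2 * N ≠ 0 := by omega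
      simp only [hf, h0, zero_pow h2N, zero_mul, mul_zero, ENNReal.ofReal_zero]
    rw [e1, lintegral_zero]
  have hpiece : ∀ l j, ENNReal.ofReal (σ ^ 2) * ∫⁻ ω in P l j, f ω ∂μ ≤
      ENNReal.ofReal (K * ((1 / 4) ^ j * (1 / 2) ^ l)) := by
    intro l j
    rcases (P l j).eq_empty_or_nonempty with hem | ⟨ω₀, hω₀⟩
    · rw [hem]
      simp
    have hxM : xx l j ≤ M := hω₀.2.1.1.trans (hB1 ω₀ hω₀.1).2.1
    have hyM : y1 l ≤ M := hω₀.2.2.1.trans (hB1 ω₀ hω₀.1).2.2.2.1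
    have hxp := hxxp l j
    have hyp := hy1p l
    set c : ℝ := (C * (2 * xx l j / y1 l ^ 2)) ^ (m + 1) * ((2 * y1 l) ^ (2 * N) *
      (xx l j ^ (2 * p))⁻¹) with hc
    have hc0 : 0 ≤ c := by positivity
    have h1 : ∫⁻ ω in P l j, f ω ∂μ ≤ ENNReal.ofReal c * μ (P l j) := by
      rw [← setLIntegral_const]
      refine setLIntegral_mono' (hPm l j) ?_
      intro ω hω
      obtain ⟨hωB, ⟨a1, a2⟩, a3, a4⟩ := hω
      obtain ⟨b1, b2, b3, b4, b5⟩ := hB1 ω hωB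
      refine ENNReal.ofReal_le_ofReal ?_
      have hW := (hB3 ω hωB (2 * xx l j) (y1 l) (by positivity) hyp a2 a3).1
      refine mul_le_mul (pow_le_pow_left₀ b5 hW _) ?_ (by positivity) (by positivity)
      refine mul_le_mul (pow_le_pow_left₀ b3 a4 _) ?_ (by positivity) (by positivity)
      exact inv_anti₀ (by positivity) (pow_le_pow_left₀ hxp.le a1 _)
    have h2 : μ (P l j) ≤ ENNReal.ofReal (C * (y1 l)⁻¹ ^ A *
        ((2 * xx l j) ^ 2 * Real.sqrt (2 * xx l j) ^ m)) := by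
      have h3 := hB2 (min M (2 * xx l j)) (y1 l) (by positivity) (min_le_left _ _) hyp hyM
      refine le_trans (measure_mono ?_) (h3.trans (ENNReal.ofReal_le_ofReal ?_))
      · intro ω hω
        exact ⟨hω.1, le_min (hB1 ω hω.1).2.1 hω.2.1.2, hω.2.2.1⟩
      · have hmin : 0 ≤ min M (2 * xx l j) := by positivity
        refine mul_le_mul_of_nonneg_left ?_ (by positivity)
        refine mul_le_mul (pow_le_pow_left₀ hmin (min_le_right _ _) _) ?_ (by positivity)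
          (by positivity)
        exact pow_le_pow_left₀ (Real.sqrt_nonneg _) (Real.sqrt_le_sqrt (min_le_right _ _)) _
    calc ENNReal.ofReal (σ ^ 2) * ∫⁻ ω in P l j, f ω ∂μ
        ≤ ENNReal.ofReal (σ ^ 2) * (ENNReal.ofReal c * ENNReal.ofReal (C * (y1 l)⁻¹ ^ A *
            ((2 * xx l j) ^ 2 * Real.sqrt (2 * xx l j) ^ m))) :=
          mul_le_mul_right (h1.trans (mul_le_mul_right h2 _)) _
      _ = ENNReal.ofReal (σ ^ 2 * (c * (C * (y1 l)⁻¹ ^ A *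
            ((2 * xx l j) ^ 2 * Real.sqrt (2 * xx l j) ^ m)))) := by
          rw [← ENNReal.ofReal_mul hc0, ← ENNReal.ofReal_mul (by positivity)]
      _ ≤ _ := ENNReal.ofReal_le_ofReal
          (m9_core hM hC hσpos hN hp rfl rfl hxM)
  calc ENNReal.ofReal (σ ^ 2) * ∫⁻ ω in B, f ω ∂μ
      ≤ ENNReal.ofReal (σ ^ 2) * ∫⁻ ω in (B ∩ {ω | Y ω = 0}) ∪ ⋃ l, ⋃ j, P l j, f ω ∂μ :=
        mul_le_mul_right (lintegral_mono_set hcov) _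
    _ ≤ ENNReal.ofReal (σ ^ 2) * (∫⁻ ω in B ∩ {ω | Y ω = 0}, f ω ∂μ +
          ∫⁻ ω in ⋃ l, ⋃ j, P l j, f ω ∂μ) := mul_le_mul_right (lintegral_union_le _ _ _) _
    _ = ENNReal.ofReal (σ ^ 2) * ∫⁻ ω in ⋃ l, ⋃ j, P l j, f ω ∂μ := by rw [hzero, zero_add]
    _ ≤ ENNReal.ofReal (σ ^ 2) * ∑' l, ∑' j, ∫⁻ ω in P l j, f ω ∂μ := by
        refine mul_le_mul_right ?_ _
        refine (lintegral_iUnion_le _ _).trans ?_
        exact ENNReal.tsum_le_tsum fun l => lintegral_iUnion_le _ _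
    _ = ∑' l, ∑' j, ENNReal.ofReal (σ ^ 2) * ∫⁻ ω in P l j, f ω ∂μ := by
        rw [← ENNReal.tsum_mul_left]
        refine tsum_congr fun l => ?_
        rw [← ENNReal.tsum_mul_left]
    _ ≤ T := ENNReal.tsum_le_tsum fun l => ENNReal.tsum_le_tsum fun j => hpiece l j

end PCY
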