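import Pool.Agent.PCY.M7
import Pool.Agent.PCY.M8
import Pool.Agent.PCY.M9

/-!
# [PCY-M10] the weighted integral over the ball

`exists_ext`: `r₁ > 1`, `M ≥ 1` with `F` analytic and `‖F‖ ≤ M` on `KB r₁`; enlarge `M` so that also `‖RF F‖ ≤ M` on `CB`
(`hol_bdd`-type compactness: `RF F` is continuous on `CB`).  `C₇, A` from `vol`, `C₈` from `depth`.
`B = Ball (m+1)` (open), `μ = volume`.  `C = max` of the constants below; `N₀` from `dyadic`.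
* `s ≥ 1/2`: `X z = ‖F (s z)‖` for `z ∈ B`, `1` outside; `Y z = ‖RF F (s z)‖` for `z ∈ B`, `0` outside; `W z = 1 - ∑ ‖z i‖²`,
  `σ = 1 - s` (`X`, `Y` are measurable: `Measurable.ite`, continuity on the open set `B`: `ContinuousOn.measurable_piecewise`).
  `X > 0`: `s z ∈ Ball`, `F ≠ 0`.
  Volume: `{z ∈ B | X ≤ x, y ≤ Y}` is contained in the preimage of `{z | z ∈ B ∧ ‖F z‖ ≤ x ∧ y ≤ ‖RF F z‖}` under `z ↦ s z`, so its
  volume is `≤ s^(-2(m+1)) ·` that `≤ 4^(m+1) ·` that (`Measure.addHaar_preimage_smul`, real dimension `2(m+1)`; or `n2_smul` of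
  `PCV/N2`).  For `x ≤ 1`, `y ≤ 1`: `vol`.  For `y > 1` use `y = 1` and `1 ≤ M^A (y⁻¹)^A`.  For `x > 1`: the volume of `B` is finite
  (`B` is contained in the polydisc, volume `π^(m+1)`) and `x² √x^m ≥ 1`, `(y⁻¹)^A ≥ M^(-A)`.
  Depth: `depth` at the point `s z`: `1 - s² V ≤ C₈ x/y²` (`V = ∑ ‖z i‖² < 1`), and `1 - V ≤ 1 - s² V`, `1 - s ≤ 1 - s² ≤ 1 - s² V`; for
  `y > 1` use `y = 1` and `y² ≤ M²` (`y ≤ Y ≤ M`).
* `s < 1/2`: `s z` stays in the compact subset `{∑ ‖z i‖² ≤ 1/4}` of the ball, where `‖F‖ ≥ δ > 0` and `‖RF F‖ ≤ M`: the integrand is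
  `≤ M^(2N) δ^(-2p)`, the volume of `B` is finite.
-/

open MeasureTheory Set Filter Topology

namespace PCY

open PCM PCV

theorem m10_open (d : ℕ) : IsOpen (Ball d) := by
  have h : Ball d = {z : Fin d → ℂ | ∑ i, ‖z i‖ ^ 2 < 1} := rfl
  rw [h]
  exact isOpen_lt (by fun_prop) continuous_const

theorem m10_volBall (d : ℕ) : volume (Ball d) ≤ ENNReal.ofReal (Real.pi ^ d) := by
  have h : Ball d ⊆ Metric.closedBall 0 1 := by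
    intro z hz
    rw [mem_closedBall_zero_iff, pi_norm_le_iff_of_nonneg zero_le_one]
    intro i
    have h1 : ‖z i‖ ^ 2 ≤ ∑ i, ‖z i‖ ^ 2 :=
      Finset.single_le_sum (f := fun i => ‖z i‖ ^ 2) (fun i _ => sq_nonneg _) (Finset.mem_univ i)
    have h2 : ∑ i, ‖z i‖ ^ 2 < 1 := hz
    exact (sq_le_one_iff₀ (norm_nonneg _)).1 (by linarith)
  refine (measure_mono h).trans ?_
  rw [volume_ball d 0 1 zero_le_one, one_pow, mul_one]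

theorem m10_contR {d : ℕ} (F : (Fin d → ℂ) → ℂ) (hF : AnalyticOnNhd ℂ F (CB d)) :
    ContinuousOn (RF F) (CB d) := by
  have h1 : ContinuousOn (fderiv ℂ F) (CB d) := hF.fderiv.continuousOn
  exact h1.clm_apply continuousOn_id

theorem m10_sum {d : ℕ} (s : ℝ) (z : Fin d → ℂ) :
    ∑ i, ‖(s : ℂ) * z i‖ ^ 2 = s ^ 2 * ∑ i, ‖z i‖ ^ 2 := by
  rw [Finset.mul_sum]
  refine Finset.sum_congr rfl fun i _ => ?_
  rw [norm_mul, Complex.norm_real, Real.norm_eq_abs, mul_pow, sq_abs]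

/-- the comparison of `min y 1` and `y` -/
theorem m10_min (M y : ℝ) (hM : 1 ≤ M) (hy : 0 < y) (hyM : y ≤ M) : (min y 1)⁻¹ ≤ M * y⁻¹ := by
  have hM0 : 0 < M := by linarith
  have h1 : 0 < min y 1 := lt_min hy one_pos
  rw [← div_eq_mul_inv, le_div_iff₀ hy, inv_mul_le_iff₀ h1]
  rcases le_total y 1 with h | h
  · rw [min_eq_left h]
    nlinarith
  · rw [min_eq_right h]
    linarith

theorem m10_vol (m : ℕ) (F : (Fin (m + 1) → ℂ) → ℂ) (C₇ M : ℝ) (A : ℕ) (hC₇ : 0 < C₇) (hM : 1 ≤ M)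
    (hv : ∀ x y : ℝ, 0 < x → x ≤ 1 → 0 < y → y ≤ 1 →
      volume {z | z ∈ Ball (m + 1) ∧ ‖F z‖ ≤ x ∧ y ≤ ‖RF F z‖} ≤
        ENNReal.ofReal (C₇ * y⁻¹ ^ A * (x ^ 2 * Real.sqrt x ^ m))) :
    ∀ x y : ℝ, 0 < x → 0 < y → y ≤ M →
      volume {z | z ∈ Ball (m + 1) ∧ ‖F z‖ ≤ x ∧ y ≤ ‖RF F z‖} ≤
        ENNReal.ofReal ((C₇ + Real.pi ^ (m + 1)) * M ^ A * y⁻¹ ^ A * (x ^ 2 * Real.sqrt x ^ m)) := by
  intro x y hx hy hyM
  have hpi := Real.pi_pos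
  have hM0 : 0 < M := by linarith
  have hsx : 0 < Real.sqrt x := Real.sqrt_pos.2 hx
  have h1 : 0 < min y 1 := lt_min hy one_pos
  have hmin := m10_min M y hM hy hyM
  by_cases hx1 : x ≤ 1
  · have hsub : {z | z ∈ Ball (m + 1) ∧ ‖F z‖ ≤ x ∧ y ≤ ‖RF F z‖} ⊆
        {z | z ∈ Ball (m + 1) ∧ ‖F z‖ ≤ x ∧ min y 1 ≤ ‖RF F z‖} :=
      fun z hz => ⟨hz.1, hz.2.1, (min_le_left _ _).trans hz.2.2⟩
    refine (measure_mono hsub).trans ((hv x (min y 1) hx hx1 h1 (min_le_right _ _)).trans ?_)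
    apply ENNReal.ofReal_le_ofReal
    have h2 : (min y 1)⁻¹ ^ A ≤ (M * y⁻¹) ^ A := pow_le_pow_left₀ (by positivity) hmin A
    rw [mul_pow] at h2
    have h3 : 0 ≤ Real.pi ^ (m + 1) * M ^ A * y⁻¹ ^ A * (x ^ 2 * Real.sqrt x ^ m) := by positivity
    calc C₇ * (min y 1)⁻¹ ^ A * (x ^ 2 * Real.sqrt x ^ m)
        ≤ C₇ * (M ^ A * y⁻¹ ^ A) * (x ^ 2 * Real.sqrt x ^ m) := by gcongr
      _ ≤ C₇ * (M ^ A * y⁻¹ ^ A) * (x ^ 2 * Real.sqrt x ^ m) +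
          Real.pi ^ (m + 1) * M ^ A * y⁻¹ ^ A * (x ^ 2 * Real.sqrt x ^ m) := by linarith
      _ = _ := by ring
  · push Not at hx1
    refine (measure_mono (fun z hz => hz.1)).trans ((m10_volBall (m + 1)).trans ?_)
    apply ENNReal.ofReal_le_ofReal
    have h2 : 1 ≤ M * y⁻¹ := by
      rw [← div_eq_mul_inv, le_div_iff₀ hy]
      linarith
    have h3 : 1 ≤ M ^ A * y⁻¹ ^ A := by
      rw [← mul_pow]
      exact one_le_pow₀ h2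
    have h4 : 1 ≤ x ^ 2 * Real.sqrt x ^ m := by
      have a1 : 1 ≤ x ^ 2 := one_le_pow₀ hx1.le
      have a2 : 1 ≤ Real.sqrt x ^ m := one_le_pow₀ (Real.one_le_sqrt.2 hx1.le)
      nlinarith
    have h5 : 1 ≤ M ^ A * y⁻¹ ^ A * (x ^ 2 * Real.sqrt x ^ m) := by nlinarith
    have h6 : 0 ≤ C₇ * (M ^ A * y⁻¹ ^ A * (x ^ 2 * Real.sqrt x ^ m)) := by positivity
    calc Real.pi ^ (m + 1) = Real.pi ^ (m + 1) * 1 := (mul_one _).symm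
      _ ≤ Real.pi ^ (m + 1) * (M ^ A * y⁻¹ ^ A * (x ^ 2 * Real.sqrt x ^ m)) := by gcongr
      _ ≤ Real.pi ^ (m + 1) * (M ^ A * y⁻¹ ^ A * (x ^ 2 * Real.sqrt x ^ m)) +
          C₇ * (M ^ A * y⁻¹ ^ A * (x ^ 2 * Real.sqrt x ^ m)) := by linarith
      _ = _ := by ring

/-- scaling -/
theorem m10_scale (m : ℕ) (F : (Fin (m + 1) → ℂ) → ℂ) : ∃ K : ℝ, 1 ≤ K ∧ ∀ s x y : ℝ, 1 / 2 ≤ s → s < 1 →
    volume {z | z ∈ Ball (m + 1) ∧ ‖F (fun i => (s : ℂ) * z i)‖ ≤ x ∧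
      y ≤ ‖RF F (fun i => (s : ℂ) * z i)‖} ≤
      ENNReal.ofReal K * volume {z | z ∈ Ball (m + 1) ∧ ‖F z‖ ≤ x ∧ y ≤ ‖RF F z‖} := by
  refine ⟨2 ^ (Module.finrank ℝ (Fin (m + 1) → ℂ)), one_le_pow₀ (by norm_num), ?_⟩
  intro s x y hs hs1
  have hs0 : 0 < s := by linarith
  have hsub : {z | z ∈ Ball (m + 1) ∧ ‖F (fun i => (s : ℂ) * z i)‖ ≤ x ∧
      y ≤ ‖RF F (fun i => (s : ℂ) * z i)‖} ⊆
      (fun z : Fin (m + 1) → ℂ => s • z) ⁻¹' {z | z ∈ Ball (m + 1) ∧ ‖F z‖ ≤ x ∧ y ≤ ‖RF F z‖} := by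
    rintro z ⟨hz, h1, h2⟩
    have e : s • z = fun i => (s : ℂ) * z i := by
      funext i
      rw [Pi.smul_apply, Complex.real_smul]
    rw [Set.mem_preimage, e]
    refine ⟨?_, h1, h2⟩
    exact smul_mem_ball' hz hs0.le hs1.le
  refine (measure_mono hsub).trans ?_
  rw [Measure.addHaar_preimage_smul volume hs0.ne']
  gcongr
  rw [abs_of_nonneg (by positivity), ← inv_pow]
  apply pow_le_pow_left₀ (by positivity)
  rw [inv_le_comm₀ hs0 (by norm_num)]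
  linarith

theorem m10_depth {d : ℕ} (F : (Fin d → ℂ) → ℂ) (C₈ M : ℝ) (hC₈ : 0 < C₈) (hM : 1 ≤ M)
    (hR : ∀ z ∈ Ball d, ‖RF F z‖ ≤ M)
    (hd : ∀ x y : ℝ, 0 < x → 0 < y → y ≤ 1 →
      ∀ z ∈ Ball d, ‖F z‖ ≤ x → y ≤ ‖RF F z‖ → 1 - ∑ i, ‖z i‖ ^ 2 ≤ C₈ * (x / y ^ 2))
    (s : ℝ) (hs : 0 ≤ s) (hs1 : s < 1) (z : Fin d → ℂ) (hz : z ∈ Ball d) (x y : ℝ) (hx : 0 < x) (hy : 0 < y)
    (h1 : ‖F (fun i => (s : ℂ) * z i)‖ ≤ x) (h2 : y ≤ ‖RF F (fun i => (s : ℂ) * z i)‖) :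
    1 - ∑ i, ‖z i‖ ^ 2 ≤ C₈ * M ^ 2 * (x / y ^ 2) ∧ 1 - s ≤ C₈ * M ^ 2 * (x / y ^ 2) := by
  have hV : ∑ i, ‖z i‖ ^ 2 < 1 := hz
  have hV0 : 0 ≤ ∑ i, ‖z i‖ ^ 2 := Finset.sum_nonneg fun i _ => sq_nonneg _
  have hsz : (fun i => (s : ℂ) * z i) ∈ Ball d := smul_mem_ball' hz hs hs1.le
  have hyM : y ≤ M := h2.trans (hR _ hsz)
  have hM0 : 0 < M := by linarith
  have hm : 0 < min y 1 := lt_min hy one_pos
  have h3 := hd x (min y 1) hx hm (min_le_right _ _) _ hsz h1 ((min_le_left _ _).trans h2)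
  rw [m10_sum] at h3
  have h4 : C₈ * (x / (min y 1) ^ 2) ≤ C₈ * M ^ 2 * (x / y ^ 2) := by
    have a1 := m10_min M y hM hy hyM
    have a2 : (min y 1)⁻¹ ^ 2 ≤ (M * y⁻¹) ^ 2 := pow_le_pow_left₀ (by positivity) a1 2
    calc C₈ * (x / (min y 1) ^ 2) = C₈ * (x * (min y 1)⁻¹ ^ 2) := by rw [inv_pow, div_eq_mul_inv]
      _ ≤ C₈ * (x * (M * y⁻¹) ^ 2) := by gcongr
      _ = C₈ * M ^ 2 * (x / y ^ 2) := by
        rw [mul_pow, inv_pow, div_eq_mul_inv]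
        ring
  have hs2 : s ^ 2 ≤ s := by nlinarith
  have h5 : s ^ 2 * ∑ i, ‖z i‖ ^ 2 ≤ 1 * ∑ i, ‖z i‖ ^ 2 := by
    apply mul_le_mul_of_nonneg_right _ hV0
    linarith
  have h6 : s ^ 2 * ∑ i, ‖z i‖ ^ 2 ≤ s ^ 2 * 1 := by
    apply mul_le_mul_of_nonneg_left hV.le (sq_nonneg s)
  constructor <;> linarith

/-- the case of small `s` -/
theorem m10_small (m : ℕ) (F : (Fin (m + 1) → ℂ) → ℂ) (hF : AnalyticOnNhd ℂ F (CB (m + 1)))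
    (hF0 : ∀ z ∈ Ball (m + 1), F z ≠ 0) (M : ℝ) (hM : 1 ≤ M) (hR : ∀ z ∈ Ball (m + 1), ‖RF F z‖ ≤ M)
    (N p : ℕ) : ∃ C : NNReal, ∀ s : ℝ, 0 ≤ s → s < 1 / 2 → ENNReal.ofReal ((1 - s) ^ 2) *
        ∫⁻ z in Ball (m + 1), ENNReal.ofReal ((1 - ∑ i, ‖z i‖ ^ 2) ^ (m + 1) *
          (‖RF F (fun i => (s : ℂ) * z i)‖ ^ (2 * N) *
            (‖F (fun i => (s : ℂ) * z i)‖ ^ (2 * p))⁻¹)) ≤ C := by
  have hKsub : KB (m + 1) (1 / 2) ⊆ Ball (m + 1) := by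
    intro z hz
    have h1 : ∑ i, ‖z i‖ ^ 2 ≤ (1 / 2) ^ 2 := hz
    show ∑ i, ‖z i‖ ^ 2 < 1
    norm_num at h1
    linarith
  have hK := isCompact_KB (m + 1) (1 / 2)
  have hne : (KB (m + 1) (1 / 2)).Nonempty := by
    refine ⟨0, ?_⟩
    show ∑ i, ‖(0 : Fin (m + 1) → ℂ) i‖ ^ 2 ≤ (1 / 2) ^ 2
    simp
  have hcont : ContinuousOn (fun z => ‖F z‖) (KB (m + 1) (1 / 2)) :=
    (hF.continuousOn.mono (hKsub.trans (ball_sub _))).norm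
  obtain ⟨z₀, hz₀, hmin⟩ := hK.exists_isMinOn hne hcont
  have hδ : 0 < ‖F z₀‖ := norm_pos_iff.2 (hF0 z₀ (hKsub hz₀))
  have hM0 : 0 < M := by linarith
  refine ⟨Real.toNNReal (M ^ (2 * N) * (‖F z₀‖ ^ (2 * p))⁻¹ * Real.pi ^ (m + 1)), ?_⟩
  intro s hs hs1
  have hpi := Real.pi_pos
  have h1 : ENNReal.ofReal ((1 - s) ^ 2) ≤ 1 := by
    rw [ENNReal.ofReal_le_one]
    exact pow_le_one₀ (by linarith) (by linarith)
  refine (mul_le_of_le_one_left' h1).trans ?_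
  have h2 : ∀ z ∈ Ball (m + 1), ENNReal.ofReal ((1 - ∑ i, ‖z i‖ ^ 2) ^ (m + 1) *
          (‖RF F (fun i => (s : ℂ) * z i)‖ ^ (2 * N) *
            (‖F (fun i => (s : ℂ) * z i)‖ ^ (2 * p))⁻¹)) ≤
        ENNReal.ofReal (M ^ (2 * N) * (‖F z₀‖ ^ (2 * p))⁻¹) := by
    intro z hz
    apply ENNReal.ofReal_le_ofReal
    have hV : ∑ i, ‖z i‖ ^ 2 < 1 := hz
    have hV0 : 0 ≤ ∑ i, ‖z i‖ ^ 2 := Finset.sum_nonneg fun i _ => sq_nonneg _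
    have hsz : (fun i => (s : ℂ) * z i) ∈ Ball (m + 1) := smul_mem_ball' hz hs (by linarith)
    have hszK : (fun i => (s : ℂ) * z i) ∈ KB (m + 1) (1 / 2) := by
      show ∑ i, ‖(s : ℂ) * z i‖ ^ 2 ≤ (1 / 2) ^ 2
      rw [m10_sum]
      have a1 : s ^ 2 ≤ (1 / 2) ^ 2 := pow_le_pow_left₀ hs hs1.le 2
      calc s ^ 2 * ∑ i, ‖z i‖ ^ 2 ≤ (1 / 2) ^ 2 * 1 := by gcongr
        _ = (1 / 2) ^ 2 := mul_one _
    have b1 : (1 - ∑ i, ‖z i‖ ^ 2) ^ (m + 1) ≤ 1 := pow_le_one₀ (by linarith) (by linarith)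
    have b1' : 0 ≤ (1 - ∑ i, ‖z i‖ ^ 2) ^ (m + 1) := pow_nonneg (by linarith) _
    have b2 : ‖RF F (fun i => (s : ℂ) * z i)‖ ^ (2 * N) ≤ M ^ (2 * N) :=
      pow_le_pow_left₀ (norm_nonneg _) (hR _ hsz) _
    have b3 : ‖F z₀‖ ≤ ‖F (fun i => (s : ℂ) * z i)‖ := hmin hszK
    have b4 : (‖F (fun i => (s : ℂ) * z i)‖ ^ (2 * p))⁻¹ ≤ (‖F z₀‖ ^ (2 * p))⁻¹ := by
      apply inv_anti₀ (by positivity)
      exact pow_le_pow_left₀ hδ.le b3 _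
    calc (1 - ∑ i, ‖z i‖ ^ 2) ^ (m + 1) * (‖RF F (fun i => (s : ℂ) * z i)‖ ^ (2 * N) *
            (‖F (fun i => (s : ℂ) * z i)‖ ^ (2 * p))⁻¹)
        ≤ 1 * (M ^ (2 * N) * (‖F z₀‖ ^ (2 * p))⁻¹) := by gcongr
      _ = _ := one_mul _
  refine (setLIntegral_mono' (m10_open _).measurableSet h2).trans ?_
  rw [setLIntegral_const]
  refine (mul_le_mul_right (m10_volBall (m + 1)) _).trans ?_
  rw [← ENNReal.ofReal_mul (by positivity)]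
  exact le_of_eq rfl

theorem ball_int (m : ℕ) (F : (Fin (m + 1) → ℂ) → ℂ) (hF : AnalyticOnNhd ℂ F (CB (m + 1)))
    (hF0 : ∀ z ∈ Ball (m + 1), F z ≠ 0) :
    ∃ N₀ : ℕ, ∀ N p : ℕ, N₀ ≤ N → 4 * p ≤ 3 * m + 10 →
      ∃ C : NNReal, ∀ s : ℝ, 0 ≤ s → s < 1 → ENNReal.ofReal ((1 - s) ^ 2) *
        ∫⁻ z in Ball (m + 1), ENNReal.ofReal ((1 - ∑ i, ‖z i‖ ^ 2) ^ (m + 1) *
          (‖RF F (fun i => (s : ℂ) * z i)‖ ^ (2 * N) *
            (‖F (fun i => (s : ℂ) * z i)‖ ^ (2 * p))⁻¹)) ≤ C := by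
  classical
  obtain ⟨r₁, M₀, hr₁, hM₀, hFK, hFM⟩ := exists_ext hF
  obtain ⟨C₀, hC₀⟩ := (isCompact_CB (m + 1)).exists_bound_of_continuousOn (m10_contR F hF)
  obtain ⟨C₇, A, hC₇, hvol⟩ := vol m F r₁ hr₁ hFK hF0
  obtain ⟨C₈, hC₈, hdep⟩ := depth r₁ hr₁ hFK hF0
  obtain ⟨K, hK1, hK⟩ := m10_scale m F
  have hpi := Real.pi_pos
  obtain ⟨M, hM⟩ : ∃ M : ℝ, M = max M₀ C₀ := ⟨_, rfl⟩
  have hMM : M₀ ≤ M := by rw [hM]; exact le_max_left _ _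
  have hMC : C₀ ≤ M := by rw [hM]; exact le_max_right _ _
  have hM1 : 1 ≤ M := hM₀.trans hMM
  have hM0 : 0 < M := by linarith
  have hK0 : 0 < K := by linarith
  have hCK : CB (m + 1) ⊆ KB (m + 1) r₁ := by
    intro z hz
    have h1 : ∑ i, ‖z i‖ ^ 2 ≤ 1 := hz
    show ∑ i, ‖z i‖ ^ 2 ≤ r₁ ^ 2
    have h2 : 1 ≤ r₁ ^ 2 := one_le_pow₀ hr₁.le
    linarith
  have hFb : ∀ z ∈ Ball (m + 1), ‖F z‖ ≤ M := fun z hz => (hFM z (hCK (ball_sub _ hz))).trans hMM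
  have hRb : ∀ z ∈ Ball (m + 1), ‖RF F z‖ ≤ M := fun z hz => (hC₀ z (ball_sub _ hz)).trans hMC
  have hvol' := m10_vol m F C₇ M A hC₇ hM1 hvol
  obtain ⟨C, hCdef⟩ : ∃ C : ℝ, C = 1 + K * ((C₇ + Real.pi ^ (m + 1)) * M ^ A) + C₈ * M ^ 2 := ⟨_, rfl⟩
  have hCa : K * ((C₇ + Real.pi ^ (m + 1)) * M ^ A) ≤ C := by
    rw [hCdef]
    have : 0 ≤ C₈ * M ^ 2 := by positivity
    linarith
  have hCb : C₈ * M ^ 2 ≤ C := by
    rw [hCdef]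
    have : 0 ≤ K * ((C₇ + Real.pi ^ (m + 1)) * M ^ A) := by positivity
    linarith
  have hC1 : 1 ≤ C := by
    rw [hCdef]
    have h1 : 0 ≤ C₈ * M ^ 2 := by positivity
    have h2 : 0 ≤ K * ((C₇ + Real.pi ^ (m + 1)) * M ^ A) := by positivity
    linarith
  obtain ⟨N₀, hN₀⟩ := dyadic (volume : Measure (Fin (m + 1) → ℂ)) (Ball (m + 1)) (m10_open _).measurableSet
    m M C A hM1 hC1
  refine ⟨N₀, ?_⟩
  intro N p hN hp
  obtain ⟨C', hC'⟩ := hN₀ N p hN hp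
  obtain ⟨C'', hC''⟩ := m10_small m F hF hF0 M hM1 hRb N p
  refine ⟨C' + C'', ?_⟩
  intro s hs hs1
  rw [ENNReal.coe_add]
  by_cases hs2 : s < 1 / 2
  · exact (hC'' s hs hs2).trans le_add_self
  · push Not at hs2
    refine le_trans ?_ le_self_add
    have hmap : ∀ z ∈ Ball (m + 1), (fun i => (s : ℂ) * z i) ∈ Ball (m + 1) := fun z hz =>
      smul_mem_ball' hz hs hs1.le
    have hsc : Continuous (fun z : Fin (m + 1) → ℂ => fun i => (s : ℂ) * z i) := by fun_prop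
    have hXc : ContinuousOn (fun z : Fin (m + 1) → ℂ => ‖F (fun i => (s : ℂ) * z i)‖) (Ball (m + 1)) :=
      ((hF.continuousOn.mono (ball_sub _)).comp hsc.continuousOn hmap).norm
    have hYc : ContinuousOn (fun z : Fin (m + 1) → ℂ => ‖RF F (fun i => (s : ℂ) * z i)‖) (Ball (m + 1)) :=
      (((m10_contR F hF).mono (ball_sub _)).comp hsc.continuousOn hmap).norm
    have hX := hXc.measurable_piecewise (continuousOn_const (c := (1 : ℝ))) (m10_open (m + 1)).measurableSet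
    have hY := hYc.measurable_piecewise (continuousOn_const (c := (0 : ℝ))) (m10_open (m + 1)).measurableSet
    have key := hC' _ _ (fun z => 1 - ∑ i, ‖z i‖ ^ 2) (1 - s) hX hY (by linarith)
      (by
        intro z hz
        rw [Set.piecewise_eq_of_mem _ _ _ hz, Set.piecewise_eq_of_mem _ _ _ hz]
        have hV : ∑ i, ‖z i‖ ^ 2 < 1 := hz
        refine ⟨norm_pos_iff.2 (hF0 _ (hmap z hz)), hFb _ (hmap z hz), norm_nonneg _, hRb _ (hmap z hz), ?_⟩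
        show 0 ≤ 1 - ∑ i, ‖z i‖ ^ 2
        linarith)
      (by
        intro x y hx hxM hy hyM
        have hset : {ω | ω ∈ Ball (m + 1) ∧
            (Ball (m + 1)).piecewise (fun z : Fin (m + 1) → ℂ => ‖F (fun i => (s : ℂ) * z i)‖) (fun _ => (1 : ℝ)) ω ≤ x ∧
            y ≤ (Ball (m + 1)).piecewise (fun z : Fin (m + 1) → ℂ => ‖RF F (fun i => (s : ℂ) * z i)‖)
              (fun _ => (0 : ℝ)) ω} ⊆
            {z | z ∈ Ball (m + 1) ∧ ‖F (fun i => (s : ℂ) * z i)‖ ≤ x ∧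
              y ≤ ‖RF F (fun i => (s : ℂ) * z i)‖} := by
          rintro z ⟨hz, h1, h2⟩
          rw [Set.piecewise_eq_of_mem _ _ _ hz] at h1 h2
          exact ⟨hz, h1, h2⟩
        refine (measure_mono hset).trans ((hK s x y hs2 hs1).trans ?_)
        refine (mul_le_mul_right (hvol' x y hx hy hyM) _).trans ?_
        rw [← ENNReal.ofReal_mul hK0.le]
        apply ENNReal.ofReal_le_ofReal
        have h3 : 0 ≤ y⁻¹ ^ A * (x ^ 2 * Real.sqrt x ^ m) := by positivity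
        calc K * ((C₇ + Real.pi ^ (m + 1)) * M ^ A * y⁻¹ ^ A * (x ^ 2 * Real.sqrt x ^ m))
            = K * ((C₇ + Real.pi ^ (m + 1)) * M ^ A) * (y⁻¹ ^ A * (x ^ 2 * Real.sqrt x ^ m)) := by ring
          _ ≤ C * (y⁻¹ ^ A * (x ^ 2 * Real.sqrt x ^ m)) := mul_le_mul_of_nonneg_right hCa h3
          _ = _ := by ring)
      (by
        intro z hz x y hx hy h1 h2
        rw [Set.piecewise_eq_of_mem _ _ _ hz] at h1 h2
        obtain ⟨g1, g2⟩ := m10_depth F C₈ M hC₈ hM1 hRb hdep s hs hs1 z hz x y hx hy h1 h2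
        have h3 : C₈ * M ^ 2 * (x / y ^ 2) ≤ C * (x / y ^ 2) :=
          mul_le_mul_of_nonneg_right hCb (by positivity)
        exact ⟨g1.trans h3, g2.trans h3⟩)
    refine le_trans (le_of_eq ?_) key
    congr 1
    refine setLIntegral_congr_fun (m10_open _).measurableSet fun z hz => ?_
    simp only [Set.piecewise_eq_of_mem _ _ _ hz]

end PCY
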