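import Pool.Agent.PCY.H2

/-!
# [PCY-M2] Lipschitz constants

`fderiv ℂ F` and its derivative are continuous on the compact convex set `KB d r₁` (`isCompact_KB`, `convex_KB`,
`AnalyticOnNhd.fderiv`), hence bounded there; `Convex.norm_image_sub_le_of_norm_fderiv_le` (over `ℝ` or `ℂ`) for `F` and for
`fderiv ℂ F`; `RF F z - RF F z' = fderiv F z (z - z') + (fderiv F z - fderiv F z') z'`, `‖z'‖ ≤ |r₁|`.
-/

open MeasureTheory Set Filter Topology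

namespace PCY

open PCM

variable {d : ℕ} {F : (Fin d → ℂ) → ℂ}

theorem m2_norm {r₁ : ℝ} {z : Fin d → ℂ} (hz : z ∈ KB d r₁) : ‖z‖ ≤ |r₁| := by
  refine (pi_norm_le_iff_of_nonneg (abs_nonneg _)).2 fun i => ?_
  have h1 : ‖z i‖ ^ 2 ≤ ∑ i, ‖z i‖ ^ 2 :=
    Finset.single_le_sum (f := fun i => ‖z i‖ ^ 2) (fun i _ => by positivity) (Finset.mem_univ i)
  have h2 : ∑ i, ‖z i‖ ^ 2 ≤ r₁ ^ 2 := hz
  have h3 := sq_abs r₁
  by_contra h
  push Not at h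
  have h4 := abs_nonneg r₁
  nlinarith

theorem lip (r₁ : ℝ) (hF : AnalyticOnNhd ℂ F (KB d r₁)) : ∃ L : ℝ, 1 ≤ L ∧
    ∀ z ∈ KB d r₁, ∀ z' ∈ KB d r₁, ‖F z - F z'‖ ≤ L * ‖z - z'‖ ∧
      ‖RF F z - RF F z'‖ ≤ L * ‖z - z'‖ ∧ ‖fderiv ℂ F z - fderiv ℂ F z'‖ ≤ L * ‖z - z'‖ ∧
      ‖fderiv ℂ F z‖ ≤ L := by
  have hF1 : AnalyticOnNhd ℂ (fderiv ℂ F) (KB d r₁) := hF.fderiv
  have hF2 : AnalyticOnNhd ℂ (fderiv ℂ (fderiv ℂ F)) (KB d r₁) := hF1.fderiv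
  obtain ⟨C1, hC1⟩ := (isCompact_KB d r₁).exists_bound_of_continuousOn hF1.continuousOn
  obtain ⟨C2, hC2⟩ := (isCompact_KB d r₁).exists_bound_of_continuousOn (f := fderiv ℂ (fderiv ℂ F))
    hF2.continuousOn
  have hr := abs_nonneg r₁
  have k1 : C1 ≤ |C1| := le_abs_self _
  have k2 : C2 ≤ |C2| := le_abs_self _
  have k1' := abs_nonneg C1
  have k2' := abs_nonneg C2
  have k3 : 0 ≤ |C2| * |r₁| := by positivity
  refine ⟨1 + |C1| + |C2| + |C2| * |r₁|, by linarith, fun z hz z' hz' => ?_⟩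
  have hn := norm_nonneg (z - z')
  have h1 : ‖F z - F z'‖ ≤ |C1| * ‖z - z'‖ :=
    Convex.norm_image_sub_le_of_norm_fderiv_le (𝕜 := ℂ) (fun x hx => (hF x hx).differentiableAt)
      (fun x hx => (hC1 x hx).trans k1) (convex_KB d r₁) hz' hz
  have h2 : ‖fderiv ℂ F z - fderiv ℂ F z'‖ ≤ |C2| * ‖z - z'‖ :=
    Convex.norm_image_sub_le_of_norm_fderiv_le (𝕜 := ℂ) (fun x hx => (hF1 x hx).differentiableAt)
      (fun x hx => (hC2 x hx).trans k2) (convex_KB d r₁) hz' hz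
  have h3 : ‖fderiv ℂ F z‖ ≤ |C1| := (hC1 z hz).trans k1
  have h4 : ‖RF F z - RF F z'‖ ≤ |C1| * ‖z - z'‖ + |C2| * ‖z - z'‖ * |r₁| := by
    have e1 : RF F z - RF F z' = fderiv ℂ F z (z - z') + (fderiv ℂ F z - fderiv ℂ F z') z' := by
      unfold RF
      rw [map_sub]
      simp
    rw [e1]
    refine (norm_add_le _ _).trans (add_le_add ?_ ?_)
    · exact (ContinuousLinearMap.le_opNorm _ _).trans (mul_le_mul_of_nonneg_right h3 hn)
    · exact (ContinuousLinearMap.le_opNorm _ _).trans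
        (mul_le_mul h2 (m2_norm hz') (norm_nonneg _) (by positivity))
  have p1 : 0 ≤ |C1| * ‖z - z'‖ := by positivity
  have p2 : 0 ≤ |C2| * ‖z - z'‖ := by positivity
  have p3 : 0 ≤ |C2| * |r₁| * ‖z - z'‖ := by positivity
  refine ⟨?_, ?_, ?_, ?_⟩
  · nlinarith
  · nlinarith
  · nlinarith
  · linarith

end PCY
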