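import Pool.Agent.PCY.M1
import Pool.Agent.PCY.M2
import Pool.Agent.PCV.N2
import Pool.Agent.PCV.V3

/-!
# [PCY-M3] a simple zero persists

`pt i w τ ∈ KB (m+1) r` iff `‖τ‖² nw w ≤ r²` (`n2_sum` of `PCV/N2`: `∑ ‖ins i w j‖² = nw w`).  `nw w ≤ 1 + 16 m` for `‖w‖ ≤ 4`
(`PCV.nw_le`, `PCV/V3`); `|nw w - nw w₀| ≤ 8 m ‖w - w₀‖` for `‖w‖, ‖w₀‖ ≤ 4`.  `‖ins i w‖ ≤ 4` and
`‖pt i w τ - pt i w₀ τ₀‖ ≤ 4 ‖τ - τ₀‖ + ‖τ₀‖ ‖w - w₀‖ ≤ 4 ‖τ - τ₀‖ + r₁ ‖w - w₀‖` (the coordinate `i` is `τ`, the others `τ w j`;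
`‖τ₀‖ ≤ r₁` as `nw ≥ 1`).
Let `r₂ = (1+3r₁)/4` (`< r₁`), `c₀` from `zero_near` (radii `r₁, r₂`), `L` from `lip r₁` (`M1, M2`).
Choose `c₁` small, then `c₂ ≤ 1` small compared with `c₁` (both depend on `r₁, m, L, c₀` only), as used below.
Let `‖w - w₀‖ ≤ c₂ y²` (`≤ 1`, so `‖w‖ ≤ 4`), `p = pt i w τ₀`.  `‖τ₀‖² nw w ≤ ((1+r₁)/2)² + r₁² 8 m c₂ ≤ r₂²`.
`‖F p‖ ≤ L r₁ c₂ y²`, `‖RF F p‖ ≥ y - L r₁ c₂ y² ≥ 3y/4`.  `zero_near` at `p` with `3y/4` (`L r₁ c₂ ≤ c₀ 9/16`): `t` with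
`‖t - 1‖ ≤ 4 ‖F p‖/y ≤ 4 L r₁ c₂ y`, `F (t p) = 0`; `τ = t τ₀` (`t • pt i w τ₀ = pt i w (t τ₀)`),
`‖τ - τ₀‖ ≤ 4 L r₁² c₂ y ≤ c₁ y/4`, and `‖RF F (pt i w τ)‖ ≥ y - L (4 c₁ y/4 + r₁ c₂ y²) ≥ y/2` (`pt i w τ ∈ KB r₁`:
`‖τ‖² nw w ≤ r₁²` as `c₁` is small).
Uniqueness: let `‖τ' - τ₀‖ ≤ c₁ y`, `F (pt i w τ') = 0`.  On the convex disc `closedBall τ₀ (c₁ y)` the function
`φ s = F (pt i w s)` has derivative `fderiv F (pt i w s) (ins i w)`; `κ = fderiv F (pt i w₀ τ₀) (ins i w₀)`,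
`τ₀ κ = RF F (pt i w₀ τ₀)`, so `‖κ‖ ≥ y/r₁` (`τ₀ ≠ 0`).  `‖φ'(s) - κ‖ ≤ L (4 c₁ y + r₁ c₂ y²) 4 + L c₂ y² ≤ y/(2 r₁) ≤ ‖κ‖/2`.
By `Convex.norm_image_sub_le_of_norm_deriv_le` for `s ↦ φ s - κ s`: `‖κ‖ ‖τ - τ'‖ ≤ (‖κ‖/2) ‖τ - τ'‖` as
`φ τ = φ τ' = 0`, so `τ = τ'`.
-/

open MeasureTheory Set Filter Topology

namespace PCY

open PCM PCV

theorem m3_KB {m : ℕ} (i : Fin (m + 1)) (w : Fin m → ℂ) (τ : ℂ) (r : ℝ) :
    pt i w τ ∈ KB (m + 1) r ↔ ‖τ‖ ^ 2 * nw w ≤ r ^ 2 := by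
  have h : ∑ j, ‖pt i w τ j‖ ^ 2 = ‖τ‖ ^ 2 * nw w := by
    unfold pt
    rw [← n2_sum i w, Finset.mul_sum]
    refine Finset.sum_congr rfl fun j _ => ?_
    rw [norm_mul, mul_pow]
  show ∑ j, ‖pt i w τ j‖ ^ 2 ≤ r ^ 2 ↔ _
  rw [h]

theorem m3_pt {m : ℕ} (i : Fin (m + 1)) (w : Fin m → ℂ) (τ : ℂ) : pt i w τ = τ • ins i w := rfl

theorem m3_ins_norm {m : ℕ} (i : Fin (m + 1)) (w : Fin m → ℂ) (h : ‖w‖ ≤ 4) : ‖ins i w‖ ≤ 4 := by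
  rw [pi_norm_le_iff_of_nonneg (by norm_num)]
  intro j
  refine Fin.succAboveCases i ?_ (fun k => ?_) j
  · unfold ins
    simp
  · unfold ins
    simp only [Fin.insertNth_apply_succAbove]
    exact (norm_le_pi_norm w k).trans h

theorem m3_ins_sub {m : ℕ} (i : Fin (m + 1)) (w w₀ : Fin m → ℂ) : ‖ins i w - ins i w₀‖ ≤ ‖w - w₀‖ := by
  rw [pi_norm_le_iff_of_nonneg (norm_nonneg _)]
  intro j
  refine Fin.succAboveCases i ?_ (fun k => ?_) j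
  · unfold ins
    simp
  · unfold ins
    simp only [Pi.sub_apply, Fin.insertNth_apply_succAbove]
    exact norm_le_pi_norm (w - w₀) k

theorem m3_pt_sub {m : ℕ} (i : Fin (m + 1)) (w w₀ : Fin m → ℂ) (τ τ₀ : ℂ) (h : ‖w‖ ≤ 4) :
    ‖pt i w τ - pt i w₀ τ₀‖ ≤ 4 * ‖τ - τ₀‖ + ‖τ₀‖ * ‖w - w₀‖ := by
  have e : pt i w τ - pt i w₀ τ₀ = (τ - τ₀) • ins i w + τ₀ • (ins i w - ins i w₀) := by
    rw [m3_pt, m3_pt, sub_smul, smul_sub]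
    abel
  rw [e]
  refine (norm_add_le _ _).trans ?_
  rw [norm_smul, norm_smul]
  have h1 := m3_ins_norm i w h
  have h2 := m3_ins_sub i w w₀
  have h3 := mul_le_mul_of_nonneg_left h1 (norm_nonneg (τ - τ₀))
  have h4 := mul_le_mul_of_nonneg_left h2 (norm_nonneg τ₀)
  linarith

theorem m3_nw_sub {m : ℕ} (w w₀ : Fin m → ℂ) (h : ‖w‖ ≤ 4) (h0 : ‖w₀‖ ≤ 4) :
    nw w ≤ nw w₀ + 8 * m * ‖w - w₀‖ := by
  have h1 : ∀ k ∈ (Finset.univ : Finset (Fin m)), ‖w k‖ ^ 2 ≤ ‖w₀ k‖ ^ 2 + 8 * ‖w - w₀‖ := by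
    intro k _
    have a1 : ‖w k‖ ≤ 4 := (norm_le_pi_norm w k).trans h
    have a2 : ‖w₀ k‖ ≤ 4 := (norm_le_pi_norm w₀ k).trans h0
    have a3 : ‖w k - w₀ k‖ ≤ ‖w - w₀‖ := norm_le_pi_norm (w - w₀) k
    have a4 : ‖w k‖ ≤ ‖w₀ k‖ + ‖w k - w₀ k‖ := by
      have := norm_add_le (w₀ k) (w k - w₀ k)
      rw [add_sub_cancel] at this
      exact this
    have a5 : 0 ≤ ‖w k - w₀ k‖ := norm_nonneg _
    have a6 : ‖w k‖ ^ 2 - ‖w₀ k‖ ^ 2 = (‖w k‖ + ‖w₀ k‖) * (‖w k‖ - ‖w₀ k‖) := by ring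
    have a7 : (‖w k‖ + ‖w₀ k‖) * (‖w k‖ - ‖w₀ k‖) ≤ (‖w k‖ + ‖w₀ k‖) * ‖w k - w₀ k‖ :=
      mul_le_mul_of_nonneg_left (by linarith) (add_nonneg (norm_nonneg _) (norm_nonneg _))
    have a8 : (‖w k‖ + ‖w₀ k‖) * ‖w k - w₀ k‖ ≤ 8 * ‖w k - w₀ k‖ :=
      mul_le_mul_of_nonneg_right (by linarith) a5
    linarith
  have h2 := Finset.sum_le_sum h1
  rw [Finset.sum_add_distrib, Finset.sum_const, Finset.card_univ, Fintype.card_fin, nsmul_eq_mul] at h2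
  unfold nw
  linarith

/-- the constants -/
theorem m3_const (m : ℕ) (L r₁ c₀ : ℝ) (hL : 1 ≤ L) (hr : 1 < r₁) (hc : 0 < c₀) :
    ∃ c₁ c₂ : ℝ, 0 < c₁ ∧ c₁ ≤ 1 ∧ 0 < c₂ ∧ c₂ ≤ 1 ∧ c₁ * (1 + 16 * m) ≤ (r₁ - 1) / 4 ∧
      64 * L * r₁ * c₁ ≤ 1 ∧ 16 * L * r₁ ^ 2 * c₂ ≤ c₁ ∧ 4 * r₁ * L * (4 * r₁ + 1) * c₂ ≤ 1 ∧
      8 * m * r₁ ^ 2 * c₂ ≤ (r₁ - 1) / 4 ∧ 2 * L * r₁ * c₂ ≤ c₀ := by
  have hδ : 0 < (r₁ - 1) / 4 := by linarith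
  have hr0 : 0 < r₁ := by linarith
  have hL0 : 0 < L := by linarith
  have hm : (0 : ℝ) ≤ m := Nat.cast_nonneg m
  obtain ⟨c₁, h0, h1, h2, h3⟩ : ∃ c₁ : ℝ, 0 < c₁ ∧ c₁ ≤ 1 ∧ c₁ * (1 + 16 * m) ≤ (r₁ - 1) / 4 ∧
      64 * L * r₁ * c₁ ≤ 1 := by
    refine ⟨min 1 (min ((r₁ - 1) / 4 / (1 + 16 * m)) (1 / (64 * L * r₁))), ?_, ?_, ?_, ?_⟩
    · refine lt_min one_pos (lt_min (by positivity) (by positivity))
    · exact min_le_left _ _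
    · have : min 1 (min ((r₁ - 1) / 4 / (1 + 16 * m)) (1 / (64 * L * r₁))) ≤ (r₁ - 1) / 4 / (1 + 16 * m) :=
        (min_le_right _ _).trans (min_le_left _ _)
      rwa [le_div_iff₀ (by positivity)] at this
    · have : min 1 (min ((r₁ - 1) / 4 / (1 + 16 * m)) (1 / (64 * L * r₁))) ≤ 1 / (64 * L * r₁) :=
        (min_le_right _ _).trans (min_le_right _ _)
      rw [le_div_iff₀ (by positivity)] at this
      linarith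
  obtain ⟨c₂, g0, g1, g2, g3, g4, g5⟩ : ∃ c₂ : ℝ, 0 < c₂ ∧ c₂ ≤ 1 ∧ 16 * L * r₁ ^ 2 * c₂ ≤ c₁ ∧
      4 * r₁ * L * (4 * r₁ + 1) * c₂ ≤ 1 ∧ 8 * m * r₁ ^ 2 * c₂ ≤ (r₁ - 1) / 4 ∧ 2 * L * r₁ * c₂ ≤ c₀ := by
    obtain ⟨c₂, hc₂⟩ : ∃ c₂ : ℝ, c₂ = min 1 (min (c₁ / (16 * L * r₁ ^ 2)) (min (1 / (4 * r₁ * L * (4 * r₁ + 1)))
      (min ((r₁ - 1) / 4 / (8 * m * r₁ ^ 2 + 1)) (c₀ / (2 * L * r₁))))) := ⟨_, rfl⟩
    have k0 : 0 < c₂ := by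
      rw [hc₂]
      refine lt_min one_pos (lt_min (by positivity) (lt_min (by positivity) (lt_min (by positivity) (by positivity))))
    have k1 : c₂ ≤ 1 := by rw [hc₂]; exact min_le_left _ _
    have k2 : c₂ ≤ c₁ / (16 * L * r₁ ^ 2) := by
      rw [hc₂]; exact (min_le_right _ _).trans (min_le_left _ _)
    have k3 : c₂ ≤ 1 / (4 * r₁ * L * (4 * r₁ + 1)) := by
      rw [hc₂]; exact (min_le_right _ _).trans ((min_le_right _ _).trans (min_le_left _ _))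
    have k4 : c₂ ≤ (r₁ - 1) / 4 / (8 * m * r₁ ^ 2 + 1) := by
      rw [hc₂]
      exact (min_le_right _ _).trans ((min_le_right _ _).trans ((min_le_right _ _).trans (min_le_left _ _)))
    have k5 : c₂ ≤ c₀ / (2 * L * r₁) := by
      rw [hc₂]
      exact (min_le_right _ _).trans ((min_le_right _ _).trans ((min_le_right _ _).trans (min_le_right _ _)))
    rw [le_div_iff₀ (by positivity)] at k2 k3 k4 k5
    refine ⟨c₂, k0, k1, by linarith, by linarith, ?_, by linarith⟩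
    have : c₂ * (8 * m * r₁ ^ 2 + 1) = 8 * m * r₁ ^ 2 * c₂ + c₂ := by ring
    linarith
  exact ⟨c₁, c₂, h0, h1, g0, g1, h2, h3, g2, g3, g4, g5⟩

theorem near_root (m : ℕ) (i : Fin (m + 1)) (F : (Fin (m + 1) → ℂ) → ℂ) (r₁ : ℝ) (hr₁ : 1 < r₁)
    (hF : AnalyticOnNhd ℂ F (KB (m + 1) r₁)) :
    ∃ c₁ c₂ : ℝ, 0 < c₁ ∧ c₁ ≤ 1 ∧ 0 < c₂ ∧ c₂ ≤ 1 ∧
      ∀ (y : ℝ) (w₀ : Fin m → ℂ) (τ₀ : ℂ), 0 < y → y ≤ 1 → ‖w₀‖ ≤ 3 →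
      ‖τ₀‖ ^ 2 * nw w₀ ≤ ((1 + r₁) / 2) ^ 2 → F (pt i w₀ τ₀) = 0 → y ≤ ‖RF F (pt i w₀ τ₀)‖ →
      ∀ w, ‖w - w₀‖ ≤ c₂ * y ^ 2 → ∃ τ : ℂ, ‖τ - τ₀‖ ≤ c₁ * y / 4 ∧ F (pt i w τ) = 0 ∧
        ‖τ‖ ^ 2 * nw w ≤ r₁ ^ 2 ∧ y / 2 ≤ ‖RF F (pt i w τ)‖ ∧
        ∀ τ' : ℂ, ‖τ' - τ₀‖ ≤ c₁ * y → F (pt i w τ') = 0 → τ' = τ := by
  obtain ⟨L, hL, hlip⟩ := lip r₁ hF
  obtain ⟨c₀, hc₀, hc₀1, hz⟩ := zero_near r₁ ((1 + 3 * r₁) / 4) (by linarith) (by linarith) hF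
  obtain ⟨c₁, c₂, h0, h1, g0, g1, h2, h3, g2, g3, g4, g5⟩ := m3_const m L r₁ c₀ hL hr₁ hc₀
  have hr0 : 0 < r₁ := by linarith
  have hL0 : 0 < L := by linarith
  have hm : (0 : ℝ) ≤ m := Nat.cast_nonneg m
  refine ⟨c₁, c₂, h0, h1, g0, g1, ?_⟩
  intro y w₀ τ₀ hy hy1 hw₀ hτ₀ hF₀ hR₀ w hw
  have hy2 : y ^ 2 ≤ y := by nlinarith
  have hy20 : 0 < y ^ 2 := by positivity
  have hw1 : ‖w - w₀‖ ≤ 1 := by
    have : c₂ * y ^ 2 ≤ 1 * 1 := mul_le_mul g1 (by linarith) hy20.le zero_le_one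
    linarith
  have hw₀4 : ‖w₀‖ ≤ 4 := by linarith
  have hw4 : ‖w‖ ≤ 4 := by
    have := norm_add_le w₀ (w - w₀)
    rw [add_sub_cancel] at this
    linarith
  have hwy : ‖w - w₀‖ ≤ c₂ * y := hw.trans (mul_le_mul_of_nonneg_left hy2 g0.le)
  have hN1 := one_le_nw w
  have hN01 := one_le_nw w₀
  have hN : nw w ≤ 1 + 16 * m := by
    have := nw_le w 4 hw4
    linarith
  have hτsq : ‖τ₀‖ ^ 2 ≤ ((1 + r₁) / 2) ^ 2 := by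
    have h4 : ‖τ₀‖ ^ 2 * 1 ≤ ‖τ₀‖ ^ 2 * nw w₀ := mul_le_mul_of_nonneg_left hN01 (sq_nonneg _)
    linarith
  have hτn : ‖τ₀‖ ≤ (1 + r₁) / 2 := abs_le_of_sq_le_sq' hτsq (by linarith) |>.2
  have hτr : ‖τ₀‖ ≤ r₁ := by linarith
  have hτ0n := norm_nonneg τ₀
  -- `p` in the smaller ball
  have hp2 : ‖τ₀‖ ^ 2 * nw w ≤ ((1 + 3 * r₁) / 4) ^ 2 := by
    have h4 := m3_nw_sub w w₀ hw4 hw₀4
    have h5 : 8 * m * ‖w - w₀‖ ≤ 8 * m * c₂ := by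
      apply mul_le_mul_of_nonneg_left _ (by positivity)
      have : c₂ * y ^ 2 ≤ c₂ * 1 := mul_le_mul_of_nonneg_left (by linarith) g0.le
      linarith
    have h6 : ‖τ₀‖ ^ 2 * nw w ≤ ‖τ₀‖ ^ 2 * (nw w₀ + 8 * m * c₂) :=
      mul_le_mul_of_nonneg_left (by linarith) (sq_nonneg _)
    have h7 : ‖τ₀‖ ^ 2 ≤ r₁ ^ 2 := pow_le_pow_left₀ hτ0n hτr 2
    have h8 : ‖τ₀‖ ^ 2 * (8 * m * c₂) ≤ r₁ ^ 2 * (8 * m * c₂) :=
      mul_le_mul_of_nonneg_right h7 (by positivity)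
    have h9 : ((1 + r₁) / 2) ^ 2 + (r₁ - 1) / 4 ≤ ((1 + 3 * r₁) / 4) ^ 2 := by nlinarith
    have h10 : r₁ ^ 2 * (8 * m * c₂) = 8 * m * r₁ ^ 2 * c₂ := by ring
    have h11 : ‖τ₀‖ ^ 2 * (nw w₀ + 8 * m * c₂) = ‖τ₀‖ ^ 2 * nw w₀ + ‖τ₀‖ ^ 2 * (8 * m * c₂) := by ring
    linarith
  have hKp2 : pt i w τ₀ ∈ KB (m + 1) ((1 + 3 * r₁) / 4) := (m3_KB i w τ₀ _).2 hp2
  have hKmono : ∀ a : ℝ, a ≤ ((1 + 3 * r₁) / 4) ^ 2 → a ≤ r₁ ^ 2 := by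
    intro a ha
    refine ha.trans (pow_le_pow_left₀ (by linarith) (by linarith) 2)
  have hKp : pt i w τ₀ ∈ KB (m + 1) r₁ := (m3_KB i w τ₀ _).2 (hKmono _ hp2)
  have hKp0 : pt i w₀ τ₀ ∈ KB (m + 1) r₁ := by
    refine (m3_KB i w₀ τ₀ _).2 (hτ₀.trans ?_)
    exact pow_le_pow_left₀ (by linarith) (by linarith) 2
  -- points of the disc
  have hdisc : ∀ s : ℂ, ‖s - τ₀‖ ≤ c₁ * y → pt i w s ∈ KB (m + 1) r₁ := by
    intro s hs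
    rw [m3_KB]
    have h4 : ‖s‖ ≤ ‖τ₀‖ + c₁ := by
      have h5 := norm_add_le τ₀ (s - τ₀)
      rw [add_sub_cancel] at h5
      have h6 : c₁ * y ≤ c₁ * 1 := mul_le_mul_of_nonneg_left hy1 h0.le
      linarith
    have h5 : ‖s‖ ^ 2 ≤ (‖τ₀‖ + c₁) ^ 2 := pow_le_pow_left₀ (norm_nonneg _) h4 2
    have h6 : ‖s‖ ^ 2 * nw w ≤ (‖τ₀‖ + c₁) ^ 2 * nw w :=
      mul_le_mul_of_nonneg_right h5 (by linarith)
    have h7 : c₁ * nw w ≤ (r₁ - 1) / 4 := (mul_le_mul_of_nonneg_left hN h0.le).trans h2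
    have h8 : ‖τ₀‖ * (c₁ * nw w) ≤ ((1 + 3 * r₁) / 4) * ((r₁ - 1) / 4) :=
      mul_le_mul (by linarith) h7 (by positivity) (by linarith)
    have h9 : c₁ * (c₁ * nw w) ≤ (c₁ * nw w) * (c₁ * nw w) := by
      apply mul_le_mul_of_nonneg_right _ (by positivity)
      have := mul_le_mul_of_nonneg_left hN1 h0.le
      linarith
    have h10 : (c₁ * nw w) * (c₁ * nw w) ≤ ((r₁ - 1) / 4) * ((r₁ - 1) / 4) :=
      mul_le_mul h7 h7 (by positivity) (by linarith)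
    have h11 : (‖τ₀‖ + c₁) ^ 2 * nw w = ‖τ₀‖ ^ 2 * nw w + 2 * (‖τ₀‖ * (c₁ * nw w)) + c₁ * (c₁ * nw w) := by
      ring
    have h12 : r₁ ^ 2 = ((1 + 3 * r₁) / 4) ^ 2 + 2 * (((1 + 3 * r₁) / 4) * ((r₁ - 1) / 4)) +
        ((r₁ - 1) / 4) * ((r₁ - 1) / 4) := by ring
    linarith
  -- distance of the points
  have hdist : ∀ s : ℂ, ‖pt i w s - pt i w₀ τ₀‖ ≤ 4 * ‖s - τ₀‖ + r₁ * (c₂ * y ^ 2) := by
    intro s
    have h4 := m3_pt_sub i w w₀ s τ₀ hw4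
    have h5 : ‖τ₀‖ * ‖w - w₀‖ ≤ r₁ * (c₂ * y ^ 2) := mul_le_mul hτr hw (norm_nonneg _) hr0.le
    linarith
  have hd0 : ‖pt i w τ₀ - pt i w₀ τ₀‖ ≤ r₁ * (c₂ * y ^ 2) := by
    have := hdist τ₀
    rw [sub_self, norm_zero] at this
    linarith
  have hLr : L * (r₁ * c₂) ≤ 1 / 20 := by
    have e : 4 * r₁ * L * (4 * r₁ + 1) * c₂ = L * (r₁ * c₂) * (4 * (4 * r₁ + 1)) := by ring
    rw [e] at g3
    have h4 : 0 ≤ L * (r₁ * c₂) := by positivity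
    have h5 : L * (r₁ * c₂) * 20 ≤ L * (r₁ * c₂) * (4 * (4 * r₁ + 1)) :=
      mul_le_mul_of_nonneg_left (by linarith) h4
    linarith
  have hFp : ‖F (pt i w τ₀)‖ ≤ L * (r₁ * c₂) * y ^ 2 := by
    have h4 := (hlip _ hKp _ hKp0).1
    rw [hF₀, sub_zero] at h4
    have h5 := mul_le_mul_of_nonneg_left hd0 hL0.le
    have e : L * (r₁ * (c₂ * y ^ 2)) = L * (r₁ * c₂) * y ^ 2 := by ring
    linarith
  have hRp : 3 * y / 4 ≤ ‖RF F (pt i w τ₀)‖ := by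
    have h4 := (hlip _ hKp _ hKp0).2.1
    have h5 := mul_le_mul_of_nonneg_left hd0 hL0.le
    have e : L * (r₁ * (c₂ * y ^ 2)) = L * (r₁ * c₂) * y ^ 2 := by ring
    have h6 : L * (r₁ * c₂) * y ^ 2 ≤ 1 / 20 * y := mul_le_mul hLr hy2 hy20.le (by norm_num)
    have h7 : ‖RF F (pt i w₀ τ₀)‖ ≤ ‖RF F (pt i w τ₀)‖ + ‖RF F (pt i w τ₀) - RF F (pt i w₀ τ₀)‖ := by
      have := norm_sub_le (RF F (pt i w τ₀)) (RF F (pt i w τ₀) - RF F (pt i w₀ τ₀))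
      rw [sub_sub_cancel] at this
      exact this
    linarith
  obtain ⟨t, ht1, ht2⟩ := hz (pt i w τ₀) hKp2 (3 * y / 4) (by linarith) (by linarith) hRp (by
    refine hFp.trans ?_
    have h4 : c₀ * (3 * y / 4) ^ 2 = (9 / 16 * c₀) * y ^ 2 := by ring
    rw [h4]
    apply mul_le_mul_of_nonneg_right _ hy20.le
    have e : 2 * L * r₁ * c₂ = 2 * (L * (r₁ * c₂)) := by ring
    linarith)
  have ht3 : ‖t - 1‖ ≤ 4 * (L * (r₁ * c₂)) * y := by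
    have e : 3 * ‖F (pt i w τ₀)‖ / (3 * y / 4) = 4 * ‖F (pt i w τ₀)‖ / y := by
      field_simp
    rw [e] at ht1
    refine ht1.trans ?_
    rw [div_le_iff₀ hy]
    have e2 : 4 * (L * (r₁ * c₂)) * y * y = 4 * (L * (r₁ * c₂) * y ^ 2) := by ring
    rw [e2]
    linarith
  have hτd : ‖t * τ₀ - τ₀‖ ≤ c₁ * y / 4 := by
    have e : t * τ₀ - τ₀ = (t - 1) * τ₀ := by ring
    rw [e, norm_mul]
    have h4 : ‖t - 1‖ * ‖τ₀‖ ≤ 4 * (L * (r₁ * c₂)) * y * r₁ := mul_le_mul ht3 hτr hτ0n (by positivity)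
    have h5 : 16 * L * r₁ ^ 2 * c₂ * y ≤ c₁ * y := mul_le_mul_of_nonneg_right g2 hy.le
    have e2 : 4 * (L * (r₁ * c₂)) * y * r₁ = 16 * L * r₁ ^ 2 * c₂ * y / 4 := by ring
    linarith
  have hc1y : 0 ≤ c₁ * y := by positivity
  have hτd1 : ‖t * τ₀ - τ₀‖ ≤ c₁ * y := by linarith
  have hKt := hdisc (t * τ₀) hτd1
  have hFt : F (pt i w (t * τ₀)) = 0 := by
    rw [← ht2]
    congr 1
    funext j
    unfold pt
    ring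
  -- the derivative
  have hder : ∀ s : ℂ, ‖s - τ₀‖ ≤ c₁ * y →
      HasDerivAt (fun s => F (pt i w s)) (fderiv ℂ F (pt i w s) (ins i w)) s := by
    intro s hs
    have h4 : HasFDerivAt F (fderiv ℂ F (pt i w s)) (pt i w s) :=
      (hF _ (hdisc s hs)).differentiableAt.hasFDerivAt
    have h5 : HasDerivAt (fun s : ℂ => pt i w s) (ins i w) s := by
      have h6 := (hasDerivAt_id s).smul_const (ins i w)
      rw [one_smul] at h6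
      exact h6
    exact h4.comp_hasDerivAt s h5
  obtain ⟨κ, hκ⟩ : ∃ κ : ℂ, κ = fderiv ℂ F (pt i w₀ τ₀) (ins i w₀) := ⟨_, rfl⟩
  have hκτ : RF F (pt i w₀ τ₀) = τ₀ * κ := by
    unfold RF
    rw [hκ]
    conv_lhs => rw [m3_pt i w₀ τ₀]
    rw [← m3_pt i w₀ τ₀, ← smul_eq_mul, ← map_smul]
    rfl
  have hκn : y ≤ r₁ * ‖κ‖ := by
    rw [hκτ, norm_mul] at hR₀
    exact hR₀.trans (mul_le_mul_of_nonneg_right hτr (norm_nonneg _))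
  have hκ0 : 0 < ‖κ‖ := by
    by_contra hcon
    have h4 : ‖κ‖ = 0 := le_antisymm (not_lt.mp hcon) (norm_nonneg _)
    rw [h4, mul_zero] at hκn
    linarith
  have hbound : ∀ s ∈ Metric.closedBall τ₀ (c₁ * y),
      ‖fderiv ℂ F (pt i w s) (ins i w) - κ‖ ≤ ‖κ‖ / 2 := by
    intro s hs
    rw [Metric.mem_closedBall, dist_eq_norm] at hs
    have hL2 := hlip _ (hdisc s hs) _ hKp0
    have e : fderiv ℂ F (pt i w s) (ins i w) - κ =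
        (fderiv ℂ F (pt i w s) - fderiv ℂ F (pt i w₀ τ₀)) (ins i w) +
          fderiv ℂ F (pt i w₀ τ₀) (ins i w - ins i w₀) := by
      rw [hκ, _root_.sub_apply, map_sub]
      ring
    rw [e]
    refine (norm_add_le _ _).trans ?_
    have b1 : ‖(fderiv ℂ F (pt i w s) - fderiv ℂ F (pt i w₀ τ₀)) (ins i w)‖ ≤
        L * (4 * (c₁ * y) + r₁ * (c₂ * y)) * 4 := by
      refine (ContinuousLinearMap.le_opNorm _ _).trans ?_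
      refine mul_le_mul ?_ (m3_ins_norm i w hw4) (norm_nonneg _) (by positivity)
      refine hL2.2.2.1.trans (mul_le_mul_of_nonneg_left ?_ hL0.le)
      have h4 := hdist s
      have h5 : r₁ * (c₂ * y ^ 2) ≤ r₁ * (c₂ * y) :=
        mul_le_mul_of_nonneg_left (mul_le_mul_of_nonneg_left hy2 g0.le) hr0.le
      linarith
    have b2 : ‖fderiv ℂ F (pt i w₀ τ₀) (ins i w - ins i w₀)‖ ≤ L * (c₂ * y) := by
      refine (ContinuousLinearMap.le_opNorm _ _).trans ?_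
      refine mul_le_mul (hlip _ hKp0 _ hKp0).2.2.2 ((m3_ins_sub i w w₀).trans hwy) (norm_nonneg _) hL0.le
    have h4 : r₁ * (L * (4 * (c₁ * y) + r₁ * (c₂ * y)) * 4 + L * (c₂ * y)) ≤ r₁ * (‖κ‖ / 2) := by
      have e2 : r₁ * (L * (4 * (c₁ * y) + r₁ * (c₂ * y)) * 4 + L * (c₂ * y)) =
          (64 * L * r₁ * c₁) * (y / 4) + (4 * r₁ * L * (4 * r₁ + 1) * c₂) * (y / 4) := by ring
      have h5 : (64 * L * r₁ * c₁) * (y / 4) ≤ 1 * (y / 4) := mul_le_mul_of_nonneg_right h3 (by linarith)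
      have h6 : (4 * r₁ * L * (4 * r₁ + 1) * c₂) * (y / 4) ≤ 1 * (y / 4) :=
        mul_le_mul_of_nonneg_right g3 (by linarith)
      rw [e2]
      linarith
    have h5 := le_of_mul_le_mul_left h4 hr0
    linarith
  refine ⟨t * τ₀, hτd, hFt, (m3_KB i w _ _).1 hKt, ?_, ?_⟩
  · have h4 := (hlip _ hKt _ hKp0).2.1
    have h5 := mul_le_mul_of_nonneg_left (hdist (t * τ₀)) hL0.le
    have h7 : ‖RF F (pt i w₀ τ₀)‖ ≤ ‖RF F (pt i w (t * τ₀))‖ +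
        ‖RF F (pt i w (t * τ₀)) - RF F (pt i w₀ τ₀)‖ := by
      have := norm_sub_le (RF F (pt i w (t * τ₀))) (RF F (pt i w (t * τ₀)) - RF F (pt i w₀ τ₀))
      rw [sub_sub_cancel] at this
      exact this
    have h8 : L * (4 * ‖t * τ₀ - τ₀‖ + r₁ * (c₂ * y ^ 2)) ≤ L * c₁ * y + L * (r₁ * c₂) * y ^ 2 := by
      have h9 : L * (4 * ‖t * τ₀ - τ₀‖) ≤ L * (c₁ * y) := mul_le_mul_of_nonneg_left (by linarith) hL0.le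
      have e2 : L * (4 * ‖t * τ₀ - τ₀‖ + r₁ * (c₂ * y ^ 2)) =
          L * (4 * ‖t * τ₀ - τ₀‖) + L * (r₁ * c₂) * y ^ 2 := by ring
      rw [e2]
      linarith
    have h9 : L * c₁ ≤ 1 / 64 := by
      have h10 : L * c₁ * 1 ≤ L * c₁ * r₁ := mul_le_mul_of_nonneg_left hr₁.le (by positivity)
      linarith
    have h10 : L * c₁ * y ≤ 1 / 64 * y := mul_le_mul_of_nonneg_right h9 hy.le
    have h11 : L * (r₁ * c₂) * y ^ 2 ≤ 1 / 20 * y := mul_le_mul hLr hy2 hy20.le (by norm_num)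
    linarith
  · intro τ' hτ' hFτ'
    have hmem1 : t * τ₀ ∈ Metric.closedBall τ₀ (c₁ * y) := by
      rw [Metric.mem_closedBall, dist_eq_norm]; exact hτd1
    have hmem2 : τ' ∈ Metric.closedBall τ₀ (c₁ * y) := by
      rw [Metric.mem_closedBall, dist_eq_norm]; exact hτ'
    have hmv := Convex.norm_image_sub_le_of_norm_hasDerivWithin_le
      (f := fun s => F (pt i w s) - κ * s) (f' := fun s => fderiv ℂ F (pt i w s) (ins i w) - κ)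
      (C := ‖κ‖ / 2) (s := Metric.closedBall τ₀ (c₁ * y)) (x := t * τ₀) (y := τ') (by
        intro s hs
        have hs' := hs
        rw [Metric.mem_closedBall, dist_eq_norm] at hs
        have h4 : HasDerivAt (fun s : ℂ => κ * s) κ s := by
          have := (hasDerivAt_id s).const_mul κ
          rw [mul_one] at this
          exact this
        exact ((hder s hs).sub h4).hasDerivWithinAt) hbound (convex_closedBall _ _) hmem1 hmem2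
    rw [hFt, hFτ'] at hmv
    have e : (0 : ℂ) - κ * τ' - (0 - κ * (t * τ₀)) = -(κ * (τ' - t * τ₀)) := by ring
    rw [e, norm_neg, norm_mul] at hmv
    have h4 : ‖κ‖ * ‖τ' - t * τ₀‖ ≤ 0 := by linarith [norm_nonneg (τ' - t * τ₀)]
    have h5 : ‖τ' - t * τ₀‖ = 0 := by
      by_contra hne
      have h6 : 0 < ‖τ' - t * τ₀‖ := lt_of_le_of_ne (norm_nonneg _) (Ne.symm hne)
      have h7 := mul_pos hκ0 h6
      linarith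
    exact sub_eq_zero.mp (norm_eq_zero.mp h5)

end PCY
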