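import Pool.Agent.PCY.M3

/-!
# [PCY-M4] the holomorphic branch through a simple zero

Copy of `PCX/X5` (`branch`).  Choose `T w` by `near_root` for `w` in the ball (`0` elsewhere); the last three properties
are clear.  Analyticity at `w₁ ∈ ball w₀ (c₂ y²)`: apply the implicit function theorem of
`Mathlib.Analysis.Calculus.ImplicitContDiff` (`ContDiffAt.implicitFunction` with smoothness exponent `ω`;
`AnalyticAt.contDiffAt`, `ContDiffAt.analyticAt`) to `Φ (w, s) = F (pt i w s)` at `u = (w₁, T w₁)` (`pt i w₁ (T w₁) ∈ KB r₁`, so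
`F` is analytic there; `(w, s) ↦ pt i w s` is analytic): the partial derivative in the direction `s` is multiplication by
`fderiv F (pt i w₁ (T w₁)) (ins i w₁)`, which is `≠ 0` because `T w₁` times it is `RF F (pt i w₁ (T w₁))`, of norm `≥ y/2`.
Let `ψ` be the implicit function: `ψ w₁ = T w₁`, `Φ (w, ψ w) = Φ u = 0` near `w₁`, `ψ` is analytic at `w₁`, in particular
continuous; since `‖T w₁ - τ₀‖ ≤ c₁ y/4 < c₁ y`, near `w₁` we have `‖ψ w - τ₀‖ ≤ c₁ y` and `w` in the ball, so `ψ w` equals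
`T w` by uniqueness.  `AnalyticAt.congr`.
-/

open MeasureTheory Set Filter Topology

namespace PCY

open PCM PCV

theorem m4_invertible (m : ℕ) (F : (Fin m → ℂ) × ℂ → ℂ) (u : (Fin m → ℂ) × ℂ)
    (hF : DifferentiableAt ℂ F u) (d : ℂ) (hd : d ≠ 0)
    (hder : HasDerivAt (fun X => F (u.1, X)) d u.2) :
    (fderiv ℂ F u ∘L .inr ℂ (Fin m → ℂ) ℂ).IsInvertible := by
  have h1 : HasDerivAt (fun X : ℂ => (u.1, X)) (0, 1) u.2 :=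
    (hasDerivAt_const u.2 u.1).prodMk (hasDerivAt_id u.2)
  have h2 : HasDerivAt (fun X => F (u.1, X)) (fderiv ℂ F u (0, 1)) u.2 :=
    HasFDerivAt.comp_hasDerivAt (f := fun X : ℂ => (u.1, X)) u.2 hF.hasFDerivAt h1
  have h3 := h2.unique hder
  refine ⟨ContinuousLinearEquiv.unitsEquivAut ℂ (Units.mk0 d hd), ?_⟩
  ext
  simp [h3]

theorem m4_smul {m : ℕ} (i : Fin (m + 1)) (w : Fin m → ℂ) (τ : ℂ) :
    pt i w τ = τ • ins i w := rfl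

/-- `(w, s) ↦ pt i w s` is analytic -/
theorem m4_an {m : ℕ} (i : Fin (m + 1)) (u : (Fin m → ℂ) × ℂ) :
    AnalyticAt ℂ (fun p : (Fin m → ℂ) × ℂ => pt i p.1 p.2) u := by
  rw [analyticAt_pi_iff]
  intro j
  have h1 : AnalyticAt ℂ (fun p : (Fin m → ℂ) × ℂ => ins i p.1 j) u := by
    rcases Fin.eq_self_or_eq_succAbove i j with rfl | ⟨k, rfl⟩
    · have e : (fun p : (Fin m → ℂ) × ℂ => ins j p.1 j) = fun _ => (1 : ℂ) := by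
        funext p
        exact Fin.insertNth_apply_same _ _ _
      rw [e]
      exact analyticAt_const
    · have e : (fun p : (Fin m → ℂ) × ℂ => ins i p.1 (i.succAbove k)) = fun p => p.1 k := by
        funext p
        exact Fin.insertNth_apply_succAbove _ _ _ _
      rw [e]
      exact ((ContinuousLinearMap.proj (R := ℂ) (φ := fun _ : Fin m => ℂ) k).comp
        (ContinuousLinearMap.fst ℂ (Fin m → ℂ) ℂ)).analyticAt u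
  have h2 : AnalyticAt ℂ (fun p : (Fin m → ℂ) × ℂ => p.2) u := analyticAt_snd
  exact h2.mul h1

theorem m4_KB {m : ℕ} (i : Fin (m + 1)) (w : Fin m → ℂ) (τ : ℂ) (r : ℝ)
    (h : ‖τ‖ ^ 2 * nw w ≤ r ^ 2) : pt i w τ ∈ KB (m + 1) r := by
  show ∑ j, ‖pt i w τ j‖ ^ 2 ≤ r ^ 2
  refine le_trans (le_of_eq ?_) h
  rw [← n2_sum i w, Finset.mul_sum]
  refine Finset.sum_congr rfl fun j _ => ?_
  show ‖τ * ins i w j‖ ^ 2 = _
  rw [norm_mul, mul_pow]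

theorem branch (m : ℕ) (i : Fin (m + 1)) (F : (Fin (m + 1) → ℂ) → ℂ) (r₁ : ℝ) (hr₁ : 1 < r₁)
    (hF : AnalyticOnNhd ℂ F (KB (m + 1) r₁)) :
    ∃ c₁ c₂ : ℝ, 0 < c₁ ∧ c₁ ≤ 1 ∧ 0 < c₂ ∧ c₂ ≤ 1 ∧
      ∀ (y : ℝ) (w₀ : Fin m → ℂ) (τ₀ : ℂ), 0 < y → y ≤ 1 → ‖w₀‖ ≤ 3 →
      ‖τ₀‖ ^ 2 * nw w₀ ≤ ((1 + r₁) / 2) ^ 2 → F (pt i w₀ τ₀) = 0 → y ≤ ‖RF F (pt i w₀ τ₀)‖ →
      ∃ T : (Fin m → ℂ) → ℂ, AnalyticOnNhd ℂ T (Metric.ball w₀ (c₂ * y ^ 2)) ∧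
        ∀ w ∈ Metric.ball w₀ (c₂ * y ^ 2), ‖T w - τ₀‖ ≤ c₁ * y / 4 ∧ F (pt i w (T w)) = 0 ∧
          ∀ τ' : ℂ, ‖τ' - τ₀‖ ≤ c₁ * y → F (pt i w τ') = 0 → τ' = T w := by
  classical
  obtain ⟨c₁, c₂, hc₁, hc₁1, hc₂, hc₂1, hnear⟩ := near_root m i F r₁ hr₁ hF
  refine ⟨c₁, c₂, hc₁, hc₁1, hc₂, hc₂1, ?_⟩
  intro y w₀ τ₀ hy hy1 hw₀ hτ₀ hF0 hder
  have hn := hnear y w₀ τ₀ hy hy1 hw₀ hτ₀ hF0 hder
  have hn' : ∀ w, ∃ τ : ℂ, w ∈ Metric.ball w₀ (c₂ * y ^ 2) →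
      ‖τ - τ₀‖ ≤ c₁ * y / 4 ∧ F (pt i w τ) = 0 ∧
        ‖τ‖ ^ 2 * nw w ≤ r₁ ^ 2 ∧ y / 2 ≤ ‖RF F (pt i w τ)‖ ∧
        ∀ τ' : ℂ, ‖τ' - τ₀‖ ≤ c₁ * y → F (pt i w τ') = 0 → τ' = τ := by
    intro w
    by_cases hw : w ∈ Metric.ball w₀ (c₂ * y ^ 2)
    · obtain ⟨τ, h⟩ := hn w (mem_ball_iff_norm.1 hw).le
      exact ⟨τ, fun _ => h⟩
    · exact ⟨0, fun h => absurd h hw⟩
  choose T hT using hn'
  refine ⟨T, ?_, fun w hw => ⟨(hT w hw).1, (hT w hw).2.1, (hT w hw).2.2.2.2⟩⟩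
  intro w₁ hw₁
  obtain ⟨h1, h2, h3, h4, h5⟩ := hT w₁ hw₁
  have hK : pt i w₁ (T w₁) ∈ KB (m + 1) r₁ := m4_KB i w₁ (T w₁) r₁ h3
  have hFan : AnalyticAt ℂ F (pt i w₁ (T w₁)) := hF _ hK
  obtain ⟨κ, hκ⟩ : ∃ κ : ℂ, κ = fderiv ℂ F (pt i w₁ (T w₁)) (ins i w₁) := ⟨_, rfl⟩
  have hRF : RF F (pt i w₁ (T w₁)) = T w₁ * κ := by
    unfold RF
    rw [hκ]
    conv_lhs => rw [show fderiv ℂ F (pt i w₁ (T w₁)) (pt i w₁ (T w₁)) =
      fderiv ℂ F (pt i w₁ (T w₁)) (T w₁ • ins i w₁) from rfl]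
    rw [map_smul, smul_eq_mul]
  have hκ0 : κ ≠ 0 := by
    intro h0
    rw [hRF, h0, mul_zero, norm_zero] at h4
    linarith
  obtain ⟨Φ, hΦ⟩ : ∃ Φ : (Fin m → ℂ) × ℂ → ℂ, Φ = fun p => F (pt i p.1 p.2) := ⟨_, rfl⟩
  have hΦan : AnalyticAt ℂ Φ (w₁, T w₁) := by
    rw [hΦ]
    exact AnalyticAt.fun_comp (g := F) (f := fun p : (Fin m → ℂ) × ℂ => pt i p.1 p.2) hFan
      (m4_an i (w₁, T w₁))
  have cdf : ContDiffAt ℂ ⊤ Φ (w₁, T w₁) := hΦan.contDiffAt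
  have hne : (⊤ : WithTop ℕ∞) ≠ 0 := by simp
  have hinv : (fderiv ℂ Φ (w₁, T w₁) ∘L .inr ℂ (Fin m → ℂ) ℂ).IsInvertible := by
    refine m4_invertible m Φ (w₁, T w₁) hΦan.differentiableAt _ hκ0 ?_
    rw [hΦ]
    have g1 : HasDerivAt (fun s : ℂ => pt i w₁ s) (ins i w₁) (T w₁) := by
      have g2 := (hasDerivAt_id (T w₁)).smul_const (ins i w₁)
      rw [one_smul] at g2
      exact g2
    have g3 := HasFDerivAt.comp_hasDerivAt (f := fun s : ℂ => pt i w₁ s) (T w₁)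
      hFan.differentiableAt.hasFDerivAt g1
    rw [← hκ] at g3
    exact g3
  have hψ0 := cdf.implicitFunction_apply_self hne hinv
  have hψ1 := cdf.eventually_apply_implicitFunction hne hinv
  have hψ2 := (cdf.contDiffAt_implicitFunction hne hinv).analyticAt
  set ψ := cdf.implicitFunction hne hinv
  simp only at hψ0 hψ1 hψ2
  have hΦ0 : Φ (w₁, T w₁) = 0 := by
    rw [hΦ]
    exact h2
  rw [hΦ0] at hψ1
  have hclose : ∀ᶠ w in 𝓝 w₁, ‖ψ w - τ₀‖ < c₁ * y := by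
    have hc : ContinuousAt (fun w => ‖ψ w - τ₀‖) w₁ :=
      (hψ2.continuousAt.sub continuousAt_const).norm
    refine hc.eventually_lt_const ?_
    show ‖ψ w₁ - τ₀‖ < c₁ * y
    rw [hψ0]
    have : 0 < c₁ * y := by positivity
    linarith
  have hball : ∀ᶠ w in 𝓝 w₁, w ∈ Metric.ball w₀ (c₂ * y ^ 2) :=
    Metric.isOpen_ball.mem_nhds hw₁
  have heq : ψ =ᶠ[𝓝 w₁] T := by
    filter_upwards [hψ1, hclose, hball] with w e1 e2 e3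
    obtain ⟨-, -, -, -, f5⟩ := hT w e3
    refine f5 (ψ w) e2.le ?_
    rw [hΦ] at e1
    exact e1
  exact hψ2.congr heq

end PCY
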