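import Pool.Agent.PCY.Defs

/-!
# [PCY-M5] covering a disc by small discs

The points `ε (k + l I)`, `k, l` integers with `|k|, |l| ≤ K := ⌈2/ε⌉`: at most `(2K+1)² ≤ (4/ε + 3)² ≤ (7/ε)²` of them
(`ε ≤ 1`).  For `‖t‖ ≤ 2` take `k = round (re t/ε)`, `l = round (im t/ε)` (`abs_sub_round`: `|x - round x| ≤ 1/2`;
`|k| ≤ K` because `|re t/ε| ≤ 2/ε ≤ K` and `K` is an integer); the distance is `≤ √(ε²/4 + ε²/4) ≤ ε`
(`Complex.norm_le_abs_re_add_abs_im` gives `≤ ε`).  `Finset.image` over `Finset.Icc (-K) K ×ˢ Finset.Icc (-K) K`.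
-/

open MeasureTheory Set Filter Topology

namespace PCY

theorem m5_round (ε x : ℝ) (K : ℤ) (hε : 0 < ε) (hx : |x| ≤ 2) (hK : 2 / ε ≤ K) :
    round (x / ε) ∈ Finset.Icc (-K) K ∧ |x - ε * (round (x / ε) : ℤ)| ≤ ε / 2 := by
  have h1 := abs_sub_round (x / ε)
  have h2 := abs_le.1 h1
  have h3 : |x / ε| ≤ K := by
    rw [abs_div, abs_of_pos hε]
    refine le_trans ?_ hK
    gcongr
  have h4 := abs_le.1 h3
  refine ⟨?_, ?_⟩
  · rw [Finset.mem_Icc]
    constructor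
    · have : (-K : ℝ) - 1 < (round (x / ε) : ℤ) := by linarith [h2.1, h2.2, h4.1]
      have h5 : -K - 1 < round (x / ε) := by exact_mod_cast this
      omega
    · have : ((round (x / ε) : ℤ) : ℝ) < K + 1 := by linarith [h2.1, h2.2, h4.2]
      have h5 : round (x / ε) < K + 1 := by exact_mod_cast this
      omega
  · have e : x - ε * (round (x / ε) : ℤ) = ε * (x / ε - (round (x / ε) : ℤ)) := by
      field_simp
    rw [e, abs_mul, abs_of_pos hε]
    nlinarith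

theorem disc_cover (ε : ℝ) (hε : 0 < ε) (hε1 : ε ≤ 1) : ∃ S : Finset ℂ,
    (S.card : ℝ) ≤ 100 * (ε⁻¹) ^ 2 ∧ ∀ t ∈ Metric.closedBall (0 : ℂ) 2, ∃ σ ∈ S, ‖t - σ‖ ≤ ε := by
  obtain ⟨K, hK1, hK2⟩ : ∃ K : ℤ, 2 / ε ≤ K ∧ (K : ℝ) < 2 / ε + 1 :=
    ⟨⌈2 / ε⌉, Int.le_ceil _, Int.ceil_lt_add_one _⟩
  have hK0 : (0 : ℝ) < K := lt_of_lt_of_le (by positivity) hK1
  have hK0' : 0 < K := by exact_mod_cast hK0
  let F : ℤ × ℤ → ℂ := fun q => ⟨ε * q.1, ε * q.2⟩
  refine ⟨(Finset.Icc (-K) K ×ˢ Finset.Icc (-K) K).image F, ?_, ?_⟩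
  · have h1 : ((Finset.Icc (-K) K ×ˢ Finset.Icc (-K) K).image F).card ≤
        (Finset.Icc (-K) K).card * (Finset.Icc (-K) K).card := by
      refine Finset.card_image_le.trans ?_
      rw [Finset.card_product]
    have h2 : ((Finset.Icc (-K) K).card : ℝ) = 2 * K + 1 := by
      rw [Int.card_Icc]
      have : (((K + 1 - -K).toNat : ℤ) : ℝ) = 2 * K + 1 := by
        rw [Int.toNat_of_nonneg (by omega)]
        push_cast
        ring
      exact_mod_cast this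
    have h3 : (((Finset.Icc (-K) K ×ˢ Finset.Icc (-K) K).image F).card : ℝ) ≤
        (2 * K + 1) * (2 * K + 1) := by
      rw [← h2]
      exact_mod_cast h1
    have h4 : 1 ≤ ε⁻¹ := (one_le_inv₀ hε).2 hε1
    have h5 : (2 * K + 1 : ℝ) ≤ 7 * ε⁻¹ := by
      rw [div_eq_mul_inv] at hK2
      linarith
    have h6 : (0 : ℝ) ≤ 2 * K + 1 := by linarith
    nlinarith
  · intro t ht
    rw [Metric.mem_closedBall, dist_zero_right] at ht
    obtain ⟨a1, a2⟩ := m5_round ε t.re K hε ((Complex.abs_re_le_norm t).trans ht) hK1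
    obtain ⟨b1, b2⟩ := m5_round ε t.im K hε ((Complex.abs_im_le_norm t).trans ht) hK1
    refine ⟨F (round (t.re / ε), round (t.im / ε)),
      Finset.mem_image_of_mem _ (Finset.mk_mem_product a1 b1), ?_⟩
    refine (Complex.norm_le_abs_re_add_abs_im _).trans ?_
    have e1 : (t - F (round (t.re / ε), round (t.im / ε))).re =
        t.re - ε * (round (t.re / ε) : ℤ) := rfl
    have e2 : (t - F (round (t.re / ε), round (t.im / ε))).im =
        t.im - ε * (round (t.im / ε) : ℤ) := rfl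
    rw [e1, e2]
    linarith

end PCY
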