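import Pool.Agent.PCY.M4
import Pool.Agent.PCY.M5
import Pool.Agent.PCX.X6
import Pool.Agent.PCV.V10
import Pool.Agent.PCV.V11

/-!
# [PCY-M6] the measure of the directions in which there is a zero near the sphere

`E` = the set in the theorem; `‖τ‖ √(nw w) ≤ 1 + x` is the closeness condition.
Trivial case: `m = 0` (`volume E ≤ volume univ = 1` on `Fin 0 → ℂ`, `√x^0 = 1`, `(y⁻¹)^A ≥ 1`) or `x > x₀ := min 1 ((r₁-1)/2)`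
(`volume E ≤ volume (closedBall 0 1) = π^m ≤ (π^m/√x₀^m) √x^m`).
Let `m ≥ 1`, `x ≤ x₀`, `c₁, c₂` from `branch`, `C₆` from `PCX.local_vol`.  `R' = c₂ y²/4`, `R = c₂ y²/8`, `ε = c₁ y/2`.
Cells: `S` from `disc_cover ε`.  Every `τ` in the definition of `E` has `‖τ‖ ≤ ‖τ‖ √nw ≤ 2`, so it lies in some cell
`‖τ - σ‖ ≤ ε`, `σ ∈ S`: `E ⊆ ⋃_σ E_σ` (`E_σ`: additionally `‖τ - σ‖ ≤ ε`).
Claim: for all `a` with `‖a‖ ≤ 1 + R`: `volume (E_σ ∩ closedBall a R) ≤ ofReal (C₆ √x^m R'^m)`.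
If the set is empty, fine.  Otherwise pick `w₀` in it, with its zero `τ₀`, and let `T` be the branch at `(w₀, τ₀)`
(`(‖τ₀‖ √nw)² ≤ (1+x)² ≤ ((1+r₁)/2)²`).  Put `b w = (T w)⁻¹`.  On `closedBall w₀ (3R') ⊆ ball w₀ (c₂ y²)`: `F (pt i w (T w)) = 0`
and `F` has no zeros in the ball, so `1 ≤ ‖T w‖² nw w` (`pt i w τ ∈ Ball` iff `‖τ‖² nw w < 1`), in particular `T w ≠ 0`, `b` is
analytic (`AnalyticOnNhd.inv`) and `‖b w‖ ≤ √(nw w)`.  Any `w ∈ E_σ ∩ closedBall a R`, with zero `τ`, has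
`‖w - w₀‖ ≤ 2R = R' ≤ 5/4 R'` and `‖τ - τ₀‖ ≤ 2ε = c₁ y`, so `τ = T w` and `‖b w‖ = 1/‖τ‖ ≥ √nw/(1+x) ≥ (1-x) √nw`.
`PCX.local_vol` with `a := w₀`, `R := R'` (`‖w₀‖ ≤ 1 ≤ 2`).
`cover_le` (`PCV/V11`) with `c = 0`, radii `1` and `R` and `volume_ball` (`PCV/V10`):
`volume E_σ * (π R²)^m ≤ C₆ √x^m R'^m (π (1+R)²)^m`, hence `volume E_σ ≤ C₆ √x^m 2^m 4^m R^m / R^(2m) = C √x^m R^(-m)`,
`R^(-m) = (8/c₂)^m (y⁻¹)^(2m)`.  Sum over `σ ∈ S` (`measure_biUnion_finset_le`), `card S ≤ 100 (2/(c₁ y))²`.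
`A = 2m + 2`.
-/

open MeasureTheory Set Filter Topology

namespace PCY

open PCM PCV

theorem m6_sum {m : ℕ} (i : Fin (m + 1)) (w : Fin m → ℂ) (τ : ℂ) :
    ∑ j, ‖pt i w τ j‖ ^ 2 = ‖τ‖ ^ 2 * nw w := by
  unfold pt
  rw [← n2_sum i w, Finset.mul_sum]
  refine Finset.sum_congr rfl fun j _ => ?_
  rw [norm_mul, mul_pow]

theorem m6_big {m : ℕ} (i : Fin (m + 1)) (F : (Fin (m + 1) → ℂ) → ℂ) (hF0 : ∀ z ∈ Ball (m + 1), F z ≠ 0)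
    (w : Fin m → ℂ) (τ : ℂ) (h : F (pt i w τ) = 0) : 1 ≤ ‖τ‖ * Real.sqrt (nw w) := by
  by_contra hc
  push Not at hc
  have hnw : 1 ≤ nw w := n2_nw w
  apply hF0 (pt i w τ) _ h
  show ∑ j, ‖pt i w τ j‖ ^ 2 < 1
  rw [m6_sum]
  have h1 : ‖τ‖ ^ 2 * nw w = (‖τ‖ * Real.sqrt (nw w)) ^ 2 := by
    rw [mul_pow, Real.sq_sqrt (by linarith)]
  rw [h1]
  have h0 : 0 ≤ ‖τ‖ * Real.sqrt (nw w) := by positivity
  exact pow_lt_one₀ h0 hc two_ne_zero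

theorem m6_local (m : ℕ) (hm : 1 ≤ m) (i : Fin (m + 1)) (F : (Fin (m + 1) → ℂ) → ℂ) (r₁ : ℝ)
    (hr₁ : 1 < r₁) (hF : AnalyticOnNhd ℂ F (KB (m + 1) r₁)) (hF0 : ∀ z ∈ Ball (m + 1), F z ≠ 0) :
    ∃ C₆ c₁ c₂ : ℝ, 0 < C₆ ∧ 0 < c₁ ∧ c₁ ≤ 1 ∧ 0 < c₂ ∧ c₂ ≤ 1 ∧
      ∀ (x y R : ℝ) (a : Fin m → ℂ) (σ : ℂ), 0 < x → x ≤ 1 → x ≤ (r₁ - 1) / 2 → 0 < y → y ≤ 1 →
        R = c₂ * y ^ 2 / 8 →
        volume ({w : Fin m → ℂ | ‖w‖ ≤ 1 ∧ ∃ τ : ℂ, F (pt i w τ) = 0 ∧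
          ‖τ‖ * Real.sqrt (nw w) ≤ 1 + x ∧ y ≤ ‖RF F (pt i w τ)‖ ∧ ‖τ - σ‖ ≤ c₁ * y / 2} ∩
            Metric.closedBall a R) ≤ ENNReal.ofReal (C₆ * Real.sqrt x ^ m * (2 * R) ^ m) := by
  obtain ⟨c₁, c₂, hc₁, hc₁1, hc₂, hc₂1, hbr⟩ := branch m i F r₁ hr₁ hF
  obtain ⟨C₆, hC₆, hloc⟩ := PCX.local_vol m hm
  refine ⟨C₆, c₁, c₂, hC₆, hc₁, hc₁1, hc₂, hc₂1, ?_⟩
  intro x y R a σ hx hx1 hxr hy hy1 hR
  have hy2 : y ^ 2 ≤ 1 := pow_le_one₀ hy.le hy1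
  have hy2' : 0 < y ^ 2 := by positivity
  have hRpos : 0 < R := by rw [hR]; positivity
  have hρ : c₂ * y ^ 2 = 8 * R := by rw [hR]; ring
  have hR1 : 8 * R ≤ 1 := by
    rw [← hρ]
    calc c₂ * y ^ 2 ≤ 1 * 1 := by gcongr
      _ = 1 := mul_one _
  rcases Set.eq_empty_or_nonempty ({w : Fin m → ℂ | ‖w‖ ≤ 1 ∧ ∃ τ : ℂ, F (pt i w τ) = 0 ∧
          ‖τ‖ * Real.sqrt (nw w) ≤ 1 + x ∧ y ≤ ‖RF F (pt i w τ)‖ ∧ ‖τ - σ‖ ≤ c₁ * y / 2} ∩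
            Metric.closedBall a R) with he | ⟨w₀, ⟨hw₀, τ₀, ht0, ht1, ht2, ht3⟩, hw₀a⟩
  · rw [he, measure_empty]
    exact bot_le
  have hnw0 : 1 ≤ nw w₀ := n2_nw w₀
  have hsq : ‖τ₀‖ ^ 2 * nw w₀ ≤ ((1 + r₁) / 2) ^ 2 := by
    have h1 : ‖τ₀‖ ^ 2 * nw w₀ = (‖τ₀‖ * Real.sqrt (nw w₀)) ^ 2 := by
      rw [mul_pow, Real.sq_sqrt (by linarith)]
    rw [h1]
    apply pow_le_pow_left₀ (by positivity)
    linarith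
  obtain ⟨T, hT1, hT2⟩ := hbr y w₀ τ₀ hy hy1 (by linarith) hsq ht0 ht2
  rw [hρ] at hT1 hT2
  have hsub : Metric.closedBall w₀ (3 * (2 * R)) ⊆ Metric.ball w₀ (8 * R) :=
    Metric.closedBall_subset_ball (by linarith)
  have hbig : ∀ w ∈ Metric.ball w₀ (8 * R), 1 ≤ ‖T w‖ * Real.sqrt (nw w) := fun w hw =>
    m6_big i F hF0 w (T w) (hT2 w hw).2.1
  have hne : ∀ w ∈ Metric.ball w₀ (8 * R), T w ≠ 0 := by
    intro w hw h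
    have h1 := hbig w hw
    rw [h, norm_zero, zero_mul] at h1
    linarith
  have han : AnalyticOnNhd ℂ (fun w => (T w)⁻¹) (Metric.closedBall w₀ (3 * (2 * R))) :=
    fun w hw => (hT1 w (hsub hw)).inv (hne w (hsub hw))
  have hbd : ∀ w ∈ Metric.closedBall w₀ (3 * (2 * R)), ‖(T w)⁻¹‖ ≤ Real.sqrt (nw w) := by
    intro w hw
    have h1 := hbig w (hsub hw)
    have h2 : 0 < ‖T w‖ := norm_pos_iff.2 (hne w (hsub hw))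
    rw [norm_inv, inv_le_iff_one_le_mul₀ h2]
    linarith
  refine (measure_mono ?_).trans (hloc (fun w => (T w)⁻¹) w₀ (2 * R) x (by linarith) (by linarith) hx hx1
    (by linarith) han hbd)
  rintro w ⟨⟨hw1, τ, hτ0, hτ1, hτ2, hτ3⟩, hwa⟩
  rw [mem_closedBall_iff_norm] at hwa hw₀a
  have hd : ‖w - w₀‖ ≤ 2 * R := by
    have h1 : w - w₀ = (w - a) - (w₀ - a) := by abel
    rw [h1]
    refine (norm_sub_le _ _).trans ?_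
    linarith
  have hwin : w ∈ Metric.ball w₀ (8 * R) := by
    rw [mem_ball_iff_norm]
    linarith
  have hτ : τ = T w := by
    apply (hT2 w hwin).2.2 τ _ hτ0
    have h1 : τ - τ₀ = (τ - σ) - (τ₀ - σ) := by ring
    rw [h1]
    refine (norm_sub_le _ _).trans ?_
    linarith
  refine ⟨by linarith, ?_⟩
  show (1 - x) * Real.sqrt (nw w) ≤ ‖(T w)⁻¹‖
  rw [← hτ, norm_inv]
  have h2 : 0 < ‖τ‖ := by
    rw [hτ]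
    exact norm_pos_iff.2 (hne w hwin)
  have h3 : (1 - x) * Real.sqrt (nw w) * ‖τ‖ ≤ 1 := by
    have h4 : (1 - x) * (‖τ‖ * Real.sqrt (nw w)) ≤ (1 - x) * (1 + x) :=
      mul_le_mul_of_nonneg_left hτ1 (by linarith)
    have h5 : (1 - x) * (1 + x) ≤ 1 := by nlinarith
    calc (1 - x) * Real.sqrt (nw w) * ‖τ‖ = (1 - x) * (‖τ‖ * Real.sqrt (nw w)) := by ring
      _ ≤ 1 := h4.trans h5
  rw [← one_div, le_div_iff₀ h2]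
  exact h3

theorem m6_cell (m : ℕ) (hm : 1 ≤ m) (i : Fin (m + 1)) (F : (Fin (m + 1) → ℂ) → ℂ) (r₁ : ℝ)
    (hr₁ : 1 < r₁) (hF : AnalyticOnNhd ℂ F (KB (m + 1) r₁)) (hF0 : ∀ z ∈ Ball (m + 1), F z ≠ 0) :
    ∃ C₇ c₁ : ℝ, 0 < C₇ ∧ 0 < c₁ ∧ c₁ ≤ 1 ∧
      ∀ (x y : ℝ) (σ : ℂ), 0 < x → x ≤ 1 → x ≤ (r₁ - 1) / 2 → 0 < y → y ≤ 1 →
        volume {w : Fin m → ℂ | ‖w‖ ≤ 1 ∧ ∃ τ : ℂ, F (pt i w τ) = 0 ∧
          ‖τ‖ * Real.sqrt (nw w) ≤ 1 + x ∧ y ≤ ‖RF F (pt i w τ)‖ ∧ ‖τ - σ‖ ≤ c₁ * y / 2} ≤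
            ENNReal.ofReal (C₇ * y⁻¹ ^ (2 * m) * Real.sqrt x ^ m) := by
  obtain ⟨C₆, c₁, c₂, hC₆, hc₁, hc₁1, hc₂, hc₂1, hloc⟩ := m6_local m hm i F r₁ hr₁ hF hF0
  refine ⟨C₆ * 8 ^ m * (8 / c₂) ^ m, c₁, by positivity, hc₁, hc₁1, ?_⟩
  intro x y σ hx hx1 hxr hy hy1
  obtain ⟨R, hR⟩ : ∃ R : ℝ, R = c₂ * y ^ 2 / 8 := ⟨_, rfl⟩
  have hRpos : 0 < R := by rw [hR]; positivity
  have hR1 : R ≤ 1 := by
    rw [hR]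
    have hy2 : y ^ 2 ≤ 1 := pow_le_one₀ hy.le hy1
    have : c₂ * y ^ 2 ≤ 1 * 1 := by gcongr
    linarith
  have hcov := cover_le m {w : Fin m → ℂ | ‖w‖ ≤ 1 ∧ ∃ τ : ℂ, F (pt i w τ) = 0 ∧
          ‖τ‖ * Real.sqrt (nw w) ≤ 1 + x ∧ y ≤ ‖RF F (pt i w τ)‖ ∧ ‖τ - σ‖ ≤ c₁ * y / 2} 0 1 R hRpos
      (by
        intro w hw
        rw [mem_closedBall_zero_iff]
        exact hw.1)
      (ENNReal.ofReal (C₆ * Real.sqrt x ^ m * (2 * R) ^ m))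
      (by
        intro a ha
        exact hloc x y R a σ hx hx1 hxr hy hy1 hR)
  have hpi := Real.pi_pos
  have hsx : 0 ≤ Real.sqrt x := Real.sqrt_nonneg _
  rw [volume_ball m 0 R hRpos.le, volume_ball m 0 (1 + R) (by linarith),
    ← ENNReal.ofReal_mul (by positivity)] at hcov
  have ht : 0 < (Real.pi * R ^ 2) ^ m := by positivity
  rw [← ENNReal.le_div_iff_mul_le (Or.inl (ENNReal.ofReal_pos.2 ht).ne')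
    (Or.inl ENNReal.ofReal_ne_top), ← ENNReal.ofReal_div_of_pos ht] at hcov
  refine hcov.trans (ENNReal.ofReal_le_ofReal ?_)
  rw [div_le_iff₀ ht]
  have e1 : (Real.pi * (1 + R) ^ 2) ^ m ≤ (Real.pi * 4) ^ m := by
    apply pow_le_pow_left₀ (by positivity)
    gcongr
    nlinarith
  have e2 : R * (8 / c₂) * y⁻¹ ^ 2 = 1 := by
    rw [hR, inv_pow]
    field_simp
  have e3 : (8 / c₂) ^ m * y⁻¹ ^ (2 * m) * R ^ m = 1 := by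
    rw [pow_mul, ← mul_pow, ← mul_pow]
    have : 8 / c₂ * y⁻¹ ^ 2 * R = R * (8 / c₂) * y⁻¹ ^ 2 := by ring
    rw [this, e2, one_pow]
  calc C₆ * Real.sqrt x ^ m * (2 * R) ^ m * (Real.pi * (1 + R) ^ 2) ^ m
      ≤ C₆ * Real.sqrt x ^ m * (2 * R) ^ m * (Real.pi * 4) ^ m := by gcongr
    _ = C₆ * Real.sqrt x ^ m * (2 * R) ^ m * (Real.pi * 4) ^ m *
        ((8 / c₂) ^ m * y⁻¹ ^ (2 * m) * R ^ m) := by rw [e3, mul_one]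
    _ = C₆ * 8 ^ m * (8 / c₂) ^ m * y⁻¹ ^ (2 * m) * Real.sqrt x ^ m *
        (Real.pi * R ^ 2) ^ m := by
        have e8 : (8 : ℝ) ^ m = 2 ^ m * 4 ^ m := by rw [← mul_pow]; norm_num
        rw [e8, mul_pow, mul_pow, mul_pow, ← pow_mul]
        ring

theorem meas (m : ℕ) (i : Fin (m + 1)) (F : (Fin (m + 1) → ℂ) → ℂ) (r₁ : ℝ) (hr₁ : 1 < r₁)
    (hF : AnalyticOnNhd ℂ F (KB (m + 1) r₁)) (hF0 : ∀ z ∈ Ball (m + 1), F z ≠ 0) :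
    ∃ (C : ℝ) (A : ℕ), 0 < C ∧ ∀ x y : ℝ, 0 < x → x ≤ 1 → 0 < y → y ≤ 1 →
      volume {w : Fin m → ℂ | ‖w‖ ≤ 1 ∧ ∃ τ : ℂ, F (pt i w τ) = 0 ∧
        ‖τ‖ * Real.sqrt (nw w) ≤ 1 + x ∧ y ≤ ‖RF F (pt i w τ)‖} ≤
        ENNReal.ofReal (C * y⁻¹ ^ A * Real.sqrt x ^ m) := by
  rcases Nat.eq_zero_or_pos m with hm | hm
  · subst hm
    refine ⟨1, 0, one_pos, ?_⟩
    intro x y _ _ _ _
    have h1 : {w : Fin 0 → ℂ | ‖w‖ ≤ 1 ∧ ∃ τ : ℂ, F (pt i w τ) = 0 ∧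
        ‖τ‖ * Real.sqrt (nw w) ≤ 1 + x ∧ y ≤ ‖RF F (pt i w τ)‖} ⊆ Metric.closedBall 0 1 := by
      intro w hw
      rw [mem_closedBall_zero_iff]
      exact hw.1
    refine (measure_mono h1).trans ?_
    rw [volume_ball 0 0 1 zero_le_one]
    simp
  · obtain ⟨C₇, c₁, hC₇, hc₁, hc₁1, hcell⟩ := m6_cell m hm i F r₁ hr₁ hF hF0
    have hx₀ : 0 < (r₁ - 1) / 2 := by linarith
    have hpi := Real.pi_pos
    have hs₀ : 0 < Real.sqrt ((r₁ - 1) / 2) := Real.sqrt_pos.2 hx₀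
    refine ⟨100 * (2 / c₁) ^ 2 * C₇ + (Real.pi / Real.sqrt ((r₁ - 1) / 2)) ^ m, 2 * m + 2, by positivity, ?_⟩
    intro x y hx hx1 hy hy1
    have hsx : 0 ≤ Real.sqrt x := Real.sqrt_nonneg _
    have hyi : 1 ≤ y⁻¹ := (one_le_inv₀ hy).2 hy1
    have hyA : 1 ≤ y⁻¹ ^ (2 * m + 2) := one_le_pow₀ hyi
    by_cases hxr : x ≤ (r₁ - 1) / 2
    · obtain ⟨S, hS1, hS2⟩ := disc_cover (c₁ * y / 2) (by positivity) (by nlinarith)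
      have hincl : {w : Fin m → ℂ | ‖w‖ ≤ 1 ∧ ∃ τ : ℂ, F (pt i w τ) = 0 ∧
          ‖τ‖ * Real.sqrt (nw w) ≤ 1 + x ∧ y ≤ ‖RF F (pt i w τ)‖} ⊆
          ⋃ σ ∈ S, {w : Fin m → ℂ | ‖w‖ ≤ 1 ∧ ∃ τ : ℂ, F (pt i w τ) = 0 ∧
          ‖τ‖ * Real.sqrt (nw w) ≤ 1 + x ∧ y ≤ ‖RF F (pt i w τ)‖ ∧ ‖τ - σ‖ ≤ c₁ * y / 2} := by
        rintro w ⟨hw1, τ, h0, h1, h2⟩
        have hnw : 1 ≤ nw w := n2_nw w
        have hsq : 1 ≤ Real.sqrt (nw w) := Real.one_le_sqrt.2 hnw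
        have h3 : ‖τ‖ * 1 ≤ ‖τ‖ * Real.sqrt (nw w) := mul_le_mul_of_nonneg_left hsq (norm_nonneg _)
        obtain ⟨σ, hσ, hσ1⟩ := hS2 τ (by
          rw [mem_closedBall_zero_iff]
          linarith)
        rw [Set.mem_iUnion₂]
        exact ⟨σ, hσ, hw1, τ, h0, h1, h2, hσ1⟩
      refine (measure_mono hincl).trans ((measure_biUnion_finset_le _ _).trans ?_)
      refine (Finset.sum_le_card_nsmul _ _ _ fun σ _ => hcell x y σ hx hx1 hxr hy hy1).trans ?_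
      rw [nsmul_eq_mul, ← ENNReal.ofReal_natCast, ← ENNReal.ofReal_mul (Nat.cast_nonneg _)]
      apply ENNReal.ofReal_le_ofReal
      have h1 : (S.card : ℝ) * (C₇ * y⁻¹ ^ (2 * m) * Real.sqrt x ^ m) ≤
          100 * (c₁ * y / 2)⁻¹ ^ 2 * (C₇ * y⁻¹ ^ (2 * m) * Real.sqrt x ^ m) :=
        mul_le_mul_of_nonneg_right hS1 (by positivity)
      refine h1.trans ?_
      have h2 : (c₁ * y / 2)⁻¹ = 2 / c₁ * y⁻¹ := by field_simp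
      have h3 : 0 ≤ (Real.pi / Real.sqrt ((r₁ - 1) / 2)) ^ m * y⁻¹ ^ (2 * m + 2) * Real.sqrt x ^ m := by
        positivity
      calc 100 * (c₁ * y / 2)⁻¹ ^ 2 * (C₇ * y⁻¹ ^ (2 * m) * Real.sqrt x ^ m)
          = 100 * (2 / c₁) ^ 2 * C₇ * y⁻¹ ^ (2 * m + 2) * Real.sqrt x ^ m := by
            rw [h2, mul_pow, pow_add]
            ring
        _ ≤ 100 * (2 / c₁) ^ 2 * C₇ * y⁻¹ ^ (2 * m + 2) * Real.sqrt x ^ m +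
          (Real.pi / Real.sqrt ((r₁ - 1) / 2)) ^ m * y⁻¹ ^ (2 * m + 2) * Real.sqrt x ^ m := by linarith
        _ = _ := by ring
    · push Not at hxr
      have h1 : {w : Fin m → ℂ | ‖w‖ ≤ 1 ∧ ∃ τ : ℂ, F (pt i w τ) = 0 ∧
          ‖τ‖ * Real.sqrt (nw w) ≤ 1 + x ∧ y ≤ ‖RF F (pt i w τ)‖} ⊆ Metric.closedBall 0 1 := by
        intro w hw
        rw [mem_closedBall_zero_iff]
        exact hw.1
      refine (measure_mono h1).trans ?_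
      rw [volume_ball m 0 1 zero_le_one]
      apply ENNReal.ofReal_le_ofReal
      have h2 : 1 ≤ Real.sqrt x / Real.sqrt ((r₁ - 1) / 2) := by
        rw [le_div_iff₀ hs₀, one_mul]
        exact Real.sqrt_le_sqrt hxr.le
      have h3 : (Real.pi * 1 ^ 2) ^ m ≤
          (Real.pi / Real.sqrt ((r₁ - 1) / 2)) ^ m * Real.sqrt x ^ m := by
        rw [← mul_pow]
        apply pow_le_pow_left₀ (by positivity)
        calc Real.pi * 1 ^ 2 = Real.pi * 1 := by ring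
          _ ≤ Real.pi * (Real.sqrt x / Real.sqrt ((r₁ - 1) / 2)) := by gcongr
          _ = _ := by ring
      have h4 : 0 ≤ (Real.pi / Real.sqrt ((r₁ - 1) / 2)) ^ m * Real.sqrt x ^ m := by positivity
      have h5 : 0 ≤ 100 * (2 / c₁) ^ 2 * C₇ * y⁻¹ ^ (2 * m + 2) * Real.sqrt x ^ m := by positivity
      calc (Real.pi * 1 ^ 2) ^ m ≤ (Real.pi / Real.sqrt ((r₁ - 1) / 2)) ^ m * Real.sqrt x ^ m := h3
        _ = (Real.pi / Real.sqrt ((r₁ - 1) / 2)) ^ m * Real.sqrt x ^ m * 1 := by ring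
        _ ≤ (Real.pi / Real.sqrt ((r₁ - 1) / 2)) ^ m * Real.sqrt x ^ m * y⁻¹ ^ (2 * m + 2) := by gcongr
        _ ≤ (Real.pi / Real.sqrt ((r₁ - 1) / 2)) ^ m * Real.sqrt x ^ m * y⁻¹ ^ (2 * m + 2) +
          100 * (2 / c₁) ^ 2 * C₇ * y⁻¹ ^ (2 * m + 2) * Real.sqrt x ^ m := by linarith
        _ = _ := by ring

end PCY
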