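import Pool.Agent.PCY.M6

/-!
# [PCY-M7] the volume of the set where `F` is small and its radial derivative is not

`r₂ = (1+r₁)/2`; `c₀` from `zero_near` (radii `r₁`, `r₂`), `L` from `lip r₁`, `c₁` from `near_root`, `C₆, A₆` from `meas`.
Trivial case `x > x₁ := c₃ y²` (`c₃ ≤ min c₀ ..` small, chosen below): the volume is at most that of the polydisc, `π^(m+1)`,
and `x² √x^m ≥ (c₃ y²)^2 √(c₃ y²)^m`.
Let `x ≤ c₃ y²`, `S` the set, measurable (`F`, `RF F` continuous on the open ball, which is contained in `KB r₁`).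
`chart_le` (`PCV/N2`) for the indicator of `S`:
`volume S ≤ ∑_i ∫⁻ w in closedBall 0 1, volume {μ ∈ ball 0 1 | μ/√(nw w) (1,w) ∈ S}`.
Fix `i` and `w`, `‖w‖ ≤ 1`, and let `μ` be in the inner set, `τ₁ = μ/√nw`, `z = pt i w τ₁ ∈ Ball`.  `zero_near`: `t` with
`‖t - 1‖ ≤ 3x/y` and `F (pt i w (t τ₁)) = 0`; put `τ = t τ₁`: `‖τ - τ₁‖ ≤ 3x/y`, `‖τ‖ √nw ≤ 1 + 3x/y` (`≤ r₂`), and
`‖RF F (pt i w τ)‖ ≥ y - L ‖..‖ ≥ y - 3 L x/y ≥ y/2` (`z` and `t z` differ by at most `‖t-1‖`).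
* So `w` belongs to the set `E` of `meas` with `x := 3x/y` (`≤ 1`) and `y := y/2`.
* The inner set is contained in the union over the cells `σ` of `disc_cover (c₁ (y/2)/2)` of
  `{μ | ∃ τ, ‖τ - σ‖ ≤ c₁ (y/2)/2, τ as above, ‖μ/√nw - τ‖ ≤ 3x/y}`; two such `τ, τ'` in one cell have distance `≤ c₁ (y/2)`,
  so they are equal by the uniqueness in `near_root` (with `w = w₀`, `τ₀ = τ`, `y/2`: both `τ` and `τ'` equal the `τ` given
  there).  So each of these sets lies in a disc of radius `√nw 3x/y`, of area `≤ π (1+m) 9 x²/y²`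
  (`nw w ≤ 1 + m`, `PCV.nw_le`), and the area of the inner set is `≤ 100 (4/(c₁ y))² π (1+m) 9 x²/y² = C x² y^(-4)`.
Hence `volume S ≤ ∑_i C x² y^(-4) volume (E_i) ≤ C x² y^(-4) C₆ (2/y)^A₆ √(3x/y)^m` (`lintegral` of a function that is
`≤ const` on `E` and `0` outside: `lintegral_indicator_const_le` / `setLIntegral_le..`), and `√(3x/y)^m ≤ √3^m √x^m y^(-m)`
(`y ≤ 1`).
-/

open MeasureTheory Set Filter Topology

namespace PCY

open PCM PCV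

private theorem m7_sum {m : ℕ} (i : Fin (m + 1)) (w : Fin m → ℂ) (τ : ℂ) :
    ∑ j, ‖pt i w τ j‖ ^ 2 = ‖τ‖ ^ 2 * nw w := by
  rw [Fin.sum_univ_succAbove _ i]
  simp only [pt, ins, Fin.insertNth_apply_same, Fin.insertNth_apply_succAbove]
  unfold nw
  rw [mul_one, mul_add, mul_one, Finset.mul_sum]
  congr 1
  refine Finset.sum_congr rfl fun j _ => ?_
  rw [norm_mul, mul_pow]

private theorem m7_nw1 {m : ℕ} (w : Fin m → ℂ) : 1 ≤ nw w := by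
  unfold nw
  have : 0 ≤ ∑ i, ‖w i‖ ^ 2 := Finset.sum_nonneg fun _ _ => by positivity
  linarith

private theorem m7_open (d : ℕ) : IsOpen (Ball d) := by
  have h : Continuous fun z : Fin d → ℂ => ∑ i, ‖z i‖ ^ 2 := by fun_prop
  exact isOpen_lt h continuous_const

private theorem m7_sub {d : ℕ} {r : ℝ} (hr : 1 ≤ r) : Ball d ⊆ KB d r := by
  intro z hz
  have h1 : ∑ i, ‖z i‖ ^ 2 < 1 := hz
  show ∑ i, ‖z i‖ ^ 2 ≤ r ^ 2
  nlinarith

private theorem m7_RF {d : ℕ} {F : (Fin d → ℂ) → ℂ} {z : Fin d → ℂ} (h : AnalyticAt ℂ F z) :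
    ContinuousAt (RF F) z := by
  have h1 : ContinuousAt (fderiv ℂ F) z := h.fderiv.continuousAt
  exact h1.clm_apply continuousAt_id

private theorem m7_meas {d : ℕ} {F : (Fin d → ℂ) → ℂ} {r₁ : ℝ} (hr₁ : 1 < r₁)
    (hF : AnalyticOnNhd ℂ F (KB d r₁)) (x y : ℝ) :
    MeasurableSet {z | z ∈ Ball d ∧ ‖F z‖ ≤ x ∧ y ≤ ‖RF F z‖} := by
  have hsub := m7_sub (d := d) hr₁.le
  have h1 : IsOpen (Ball d ∩ F ⁻¹' {c | x < ‖c‖}) := by
    refine ContinuousOn.isOpen_inter_preimage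
      (fun z hz => (hF z (hsub hz)).continuousAt.continuousWithinAt) (m7_open d) ?_
    exact isOpen_lt continuous_const continuous_norm
  have h2 : IsOpen (Ball d ∩ RF F ⁻¹' {c | ‖c‖ < y}) := by
    refine ContinuousOn.isOpen_inter_preimage
      (fun z hz => (m7_RF (hF z (hsub hz))).continuousWithinAt) (m7_open d) ?_
    exact isOpen_lt continuous_norm continuous_const
  have h3 : {z | z ∈ Ball d ∧ ‖F z‖ ≤ x ∧ y ≤ ‖RF F z‖} =
      (Ball d \ (Ball d ∩ F ⁻¹' {c | x < ‖c‖})) \ (Ball d ∩ RF F ⁻¹' {c | ‖c‖ < y}) := by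
    ext z
    constructor
    · rintro ⟨a1, a2, a3⟩
      exact ⟨⟨a1, fun h => absurd a2 (not_le.2 h.2)⟩, fun h => absurd a3 (not_le.2 h.2)⟩
    · rintro ⟨⟨a1, a2⟩, a3⟩
      refine ⟨a1, ?_, ?_⟩
      · by_contra hcon
        exact a2 ⟨a1, not_le.1 hcon⟩
      · by_contra hcon
        exact a3 ⟨a1, not_le.1 hcon⟩
  rw [h3]
  exact ((m7_open d).measurableSet.diff h1.measurableSet).diff h2.measurableSet

/-- from a point of the set to a good zero -/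
private theorem m7_root {m : ℕ} {i : Fin (m + 1)} {F : (Fin (m + 1) → ℂ) → ℂ} {r₁ c₀ L x y : ℝ}
    (hr₁ : 1 < r₁) (hL : 1 ≤ L)
    (Hz : ∀ z ∈ KB (m + 1) ((1 + r₁) / 2), ∀ y : ℝ, 0 < y → y ≤ 1 → y ≤ ‖RF F z‖ →
      ‖F z‖ ≤ c₀ * y ^ 2 → ∃ t : ℂ, ‖t - 1‖ ≤ 3 * ‖F z‖ / y ∧ F (fun j => t * z j) = 0)
    (Hl : ∀ z ∈ KB (m + 1) r₁, ∀ z' ∈ KB (m + 1) r₁, ‖RF F z - RF F z'‖ ≤ L * ‖z - z'‖)
    (hx : 0 < x) (hy : 0 < y) (hy1 : y ≤ 1) (hxc : x ≤ c₀ * y ^ 2) (hxL : L * (3 * x / y) ≤ y / 2)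
    (hxr : 1 + 3 * x / y ≤ (1 + r₁) / 2) {w : Fin m → ℂ} {μ : ℂ} (hμ : ‖μ‖ < 1)
    (hS : pt i w (μ / (Real.sqrt (nw w) : ℂ)) ∈ {z | z ∈ Ball (m + 1) ∧ ‖F z‖ ≤ x ∧ y ≤ ‖RF F z‖}) :
    ∃ τ : ℂ, F (pt i w τ) = 0 ∧ ‖τ‖ * Real.sqrt (nw w) ≤ 1 + 3 * x / y ∧
      y / 2 ≤ ‖RF F (pt i w τ)‖ ∧ ‖μ - Real.sqrt (nw w) * τ‖ ≤ 3 * x / y := by
  obtain ⟨hz1, hz2, hz3⟩ := hS
  set τ₁ : ℂ := μ / (Real.sqrt (nw w) : ℂ) with hτ₁
  set z := pt i w τ₁ with hz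
  have hnw := m7_nw1 w
  have hs1 : 1 ≤ Real.sqrt (nw w) := Real.one_le_sqrt.2 hnw
  have hs0 : 0 < Real.sqrt (nw w) := by linarith
  obtain ⟨t, ht1, ht2⟩ := Hz z (m7_sub (by linarith) hz1) y hy hy1 hz3 (hz2.trans hxc)
  have ht3 : ‖t - 1‖ ≤ 3 * x / y := by
    refine ht1.trans ?_
    exact div_le_div_of_nonneg_right (by linarith) hy.le
  have hτn : ‖τ₁‖ * Real.sqrt (nw w) = ‖μ‖ := by
    rw [hτ₁, norm_div, Complex.norm_real, Real.norm_eq_abs, abs_of_pos hs0,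
      div_mul_cancel₀ _ hs0.ne']
  have htz : (fun j => t * z j) = pt i w (t * τ₁) := by
    funext j
    simp only [hz, pt]
    ring
  have hxy : 0 < 3 * x / y := by positivity
  have ht4 : ‖t‖ ≤ 1 + 3 * x / y := by
    calc ‖t‖ = ‖1 + (t - 1)‖ := by rw [add_sub_cancel]
      _ ≤ ‖(1 : ℂ)‖ + ‖t - 1‖ := norm_add_le _ _
      _ ≤ _ := by rw [norm_one]; linarith
  refine ⟨t * τ₁, by rw [← htz]; exact ht2, ?_, ?_, ?_⟩
  · rw [norm_mul, mul_assoc, hτn]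
    calc ‖t‖ * ‖μ‖ ≤ (1 + 3 * x / y) * 1 := mul_le_mul ht4 hμ.le (norm_nonneg _) (by linarith)
      _ = _ := mul_one _
  · rw [← htz]
    have h1 : (fun j => t * z j) ∈ KB (m + 1) r₁ := by
      show ∑ j, ‖t * z j‖ ^ 2 ≤ r₁ ^ 2
      have h2 : ∑ j, ‖t * z j‖ ^ 2 = ‖t‖ ^ 2 * ∑ j, ‖z j‖ ^ 2 := by
        rw [Finset.mul_sum]
        refine Finset.sum_congr rfl fun j _ => ?_
        rw [norm_mul, mul_pow]
      have h3 : ∑ j, ‖z j‖ ^ 2 < 1 := hz1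
      have h4 : 0 ≤ ∑ j, ‖z j‖ ^ 2 := Finset.sum_nonneg fun _ _ => by positivity
      have h5 : ‖t‖ ≤ r₁ := by linarith
      have h6 : ‖t‖ ^ 2 ≤ r₁ ^ 2 := pow_le_pow_left₀ (norm_nonneg _) h5 2
      rw [h2]
      nlinarith [sq_nonneg ‖t‖]
    have h7 := Hl z (m7_sub hr₁.le hz1) _ h1
    have h8 : ‖z - fun j => t * z j‖ ≤ 3 * x / y := by
      rw [pi_norm_le_iff_of_nonneg hxy.le]
      intro j
      have h9 : ‖z j‖ ≤ 1 := by
        have h10 : ‖z j‖ ^ 2 ≤ ∑ j, ‖z j‖ ^ 2 :=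
          Finset.single_le_sum (f := fun j => ‖z j‖ ^ 2) (fun _ _ => by positivity)
            (Finset.mem_univ j)
        have h11 : ∑ j, ‖z j‖ ^ 2 < 1 := hz1
        nlinarith [norm_nonneg (z j)]
      have h12 : z j - t * z j = -((t - 1) * z j) := by ring
      show ‖z j - t * z j‖ ≤ 3 * x / y
      rw [h12, norm_neg, norm_mul]
      calc ‖t - 1‖ * ‖z j‖ ≤ 3 * x / y * 1 := mul_le_mul ht3 h9 (norm_nonneg _) hxy.le
        _ = _ := mul_one _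
    have h13 : ‖RF F z‖ ≤ ‖RF F (fun j => t * z j)‖ + ‖RF F z - RF F (fun j => t * z j)‖ := by
      calc ‖RF F z‖ = ‖RF F (fun j => t * z j) + (RF F z - RF F (fun j => t * z j))‖ := by
            rw [add_sub_cancel]
        _ ≤ _ := norm_add_le _ _
    have h14 : L * ‖z - fun j => t * z j‖ ≤ L * (3 * x / y) :=
      mul_le_mul_of_nonneg_left h8 (by linarith)
    linarith
  · have h1 : μ = Real.sqrt (nw w) * τ₁ := by
      rw [hτ₁, mul_div_cancel₀]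
      exact Complex.ofReal_ne_zero.2 hs0.ne'
    have h2 : μ - Real.sqrt (nw w) * (t * τ₁) = -((t - 1) * (Real.sqrt (nw w) * τ₁)) := by
      rw [h1]
      ring
    rw [h2, norm_neg, norm_mul, ← h1]
    calc ‖t - 1‖ * ‖μ‖ ≤ 3 * x / y * 1 := mul_le_mul ht3 hμ.le (norm_nonneg _) hxy.le
      _ = _ := mul_one _

/-- area of the inner set -/
private theorem m7_area {m : ℕ} {i : Fin (m + 1)} {F : (Fin (m + 1) → ℂ) → ℂ} {c₁ x' y : ℝ}
    (hc₁ : 0 < c₁) (hc₁' : c₁ ≤ 1) (hx'0 : 0 < x') (hx' : x' ≤ 1) (hy : 0 < y) (hy1 : y ≤ 1)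
    {w : Fin m → ℂ}
    (Hu : ∀ τ₀ : ℂ, F (pt i w τ₀) = 0 → ‖τ₀‖ * Real.sqrt (nw w) ≤ 1 + x' →
      y / 2 ≤ ‖RF F (pt i w τ₀)‖ → ∀ τ' : ℂ, ‖τ' - τ₀‖ ≤ c₁ * (y / 2) → F (pt i w τ') = 0 → τ' = τ₀) :
    volume {μ : ℂ | ∃ τ : ℂ, F (pt i w τ) = 0 ∧ ‖τ‖ * Real.sqrt (nw w) ≤ 1 + x' ∧
      y / 2 ≤ ‖RF F (pt i w τ)‖ ∧ ‖μ - Real.sqrt (nw w) * τ‖ ≤ x'} ≤
      ENNReal.ofReal (1600 / c₁ ^ 2 * Real.pi * (x' ^ 2 * y⁻¹ ^ 2)) := by
  classical
  have hnw := m7_nw1 w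
  have hs1 : 1 ≤ Real.sqrt (nw w) := Real.one_le_sqrt.2 hnw
  obtain ⟨S, hS1, hS2⟩ := disc_cover (c₁ * y / 4) (by positivity) (by nlinarith)
  set Dσ : ℂ → Set ℂ := fun σ => {μ : ℂ | ∃ τ : ℂ, F (pt i w τ) = 0 ∧
    ‖τ‖ * Real.sqrt (nw w) ≤ 1 + x' ∧ y / 2 ≤ ‖RF F (pt i w τ)‖ ∧ ‖τ - σ‖ ≤ c₁ * y / 4 ∧
    ‖μ - Real.sqrt (nw w) * τ‖ ≤ x'} with hD
  have hcov : {μ : ℂ | ∃ τ : ℂ, F (pt i w τ) = 0 ∧ ‖τ‖ * Real.sqrt (nw w) ≤ 1 + x' ∧
      y / 2 ≤ ‖RF F (pt i w τ)‖ ∧ ‖μ - Real.sqrt (nw w) * τ‖ ≤ x'} ⊆ ⋃ σ ∈ S, Dσ σ := by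
    rintro μ ⟨τ, t1, t2, t3, t4⟩
    have h1 : ‖τ‖ ≤ 2 := by
      have h2 : ‖τ‖ * 1 ≤ ‖τ‖ * Real.sqrt (nw w) := mul_le_mul_of_nonneg_left hs1 (norm_nonneg _)
      linarith
    obtain ⟨σ, hσ, hσ2⟩ := hS2 τ (by rwa [Metric.mem_closedBall, dist_zero_right])
    rw [Set.mem_iUnion₂]
    exact ⟨σ, hσ, τ, t1, t2, t3, hσ2, t4⟩
  have hone : ∀ σ, volume (Dσ σ) ≤ ENNReal.ofReal (Real.pi * x' ^ 2) := by
    intro σ
    rcases (Dσ σ).eq_empty_or_nonempty with hem | ⟨μ₀, τ₀, t1, t2, t3, t4, t5⟩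
    · rw [hem, measure_empty]
      exact zero_le
    · have hsub : Dσ σ ⊆ Metric.closedBall (Real.sqrt (nw w) * τ₀) x' := by
        rintro μ ⟨τ, u1, u2, u3, u4, u5⟩
        have h1 : τ = τ₀ := by
          refine Hu τ₀ t1 t2 t3 τ ?_ u1
          calc ‖τ - τ₀‖ = ‖(τ - σ) - (τ₀ - σ)‖ := by congr 1; ring
            _ ≤ ‖τ - σ‖ + ‖τ₀ - σ‖ := norm_sub_le _ _
            _ ≤ c₁ * (y / 2) := by linarith
        rw [Metric.mem_closedBall, dist_eq_norm, ← h1]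
        exact u5
      refine (measure_mono hsub).trans ?_
      rw [Complex.volume_closedBall, ← ENNReal.ofReal_pow hx'0.le, mul_comm Real.pi,
        ENNReal.ofReal_mul (by positivity), ← NNReal.coe_real_pi, ENNReal.ofReal_coe_nnreal]
  calc volume {μ : ℂ | ∃ τ : ℂ, F (pt i w τ) = 0 ∧ ‖τ‖ * Real.sqrt (nw w) ≤ 1 + x' ∧
      y / 2 ≤ ‖RF F (pt i w τ)‖ ∧ ‖μ - Real.sqrt (nw w) * τ‖ ≤ x'}
      ≤ volume (⋃ σ ∈ S, Dσ σ) := measure_mono hcov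
    _ ≤ ∑ σ ∈ S, volume (Dσ σ) := measure_biUnion_finset_le _ _
    _ ≤ ∑ _σ ∈ S, ENNReal.ofReal (Real.pi * x' ^ 2) := Finset.sum_le_sum fun σ _ => hone σ
    _ = ENNReal.ofReal ((S.card : ℝ) * (Real.pi * x' ^ 2)) := by
        rw [Finset.sum_const, nsmul_eq_mul, ENNReal.ofReal_mul (Nat.cast_nonneg _),
          ENNReal.ofReal_natCast]
    _ ≤ ENNReal.ofReal (1600 / c₁ ^ 2 * Real.pi * (x' ^ 2 * y⁻¹ ^ 2)) := by
        refine ENNReal.ofReal_le_ofReal ?_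
        have h1 : 100 * ((c₁ * y / 4)⁻¹) ^ 2 = 1600 / c₁ ^ 2 * y⁻¹ ^ 2 := by
          field_simp
          norm_num
        rw [h1] at hS1
        calc (S.card : ℝ) * (Real.pi * x' ^ 2) ≤ (1600 / c₁ ^ 2 * y⁻¹ ^ 2) * (Real.pi * x' ^ 2) :=
              mul_le_mul_of_nonneg_right hS1 (by have := Real.pi_pos; positivity)
          _ = _ := by ring

theorem vol (m : ℕ) (F : (Fin (m + 1) → ℂ) → ℂ) (r₁ : ℝ) (hr₁ : 1 < r₁)
    (hF : AnalyticOnNhd ℂ F (KB (m + 1) r₁)) (hF0 : ∀ z ∈ Ball (m + 1), F z ≠ 0) :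
    ∃ (C : ℝ) (A : ℕ), 0 < C ∧ ∀ x y : ℝ, 0 < x → x ≤ 1 → 0 < y → y ≤ 1 →
      volume {z | z ∈ Ball (m + 1) ∧ ‖F z‖ ≤ x ∧ y ≤ ‖RF F z‖} ≤
        ENNReal.ofReal (C * y⁻¹ ^ A * (x ^ 2 * Real.sqrt x ^ m)) := by
  obtain ⟨c₀, hc₀, hc₀', Hz⟩ := zero_near r₁ ((1 + r₁) / 2) (by linarith) (by linarith) hF
  obtain ⟨L, hL, Hl⟩ := lip r₁ hF
  obtain ⟨c₃, hc₃0, h31, h32, h33, h34⟩ : ∃ c₃ : ℝ, 0 < c₃ ∧ c₃ ≤ c₀ ∧ c₃ ≤ 1 / (6 * L) ∧
      c₃ ≤ (r₁ - 1) / 6 ∧ c₃ ≤ 1 / 3 := by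
    refine ⟨min c₀ (min (1 / (6 * L)) (min ((r₁ - 1) / 6) (1 / 3))), ?_, ?_, ?_, ?_, ?_⟩
    · have : 0 < (r₁ - 1) / 6 := by linarith
      positivity
    · exact min_le_left _ _
    · exact (min_le_right _ _).trans (min_le_left _ _)
    · exact (min_le_right _ _).trans ((min_le_right _ _).trans (min_le_left _ _))
    · exact (min_le_right _ _).trans ((min_le_right _ _).trans (min_le_right _ _))
  -- the charts
  have hchart : ∀ i : Fin (m + 1), ∃ (C : ℝ) (A : ℕ), 0 < C ∧ ∀ x y : ℝ, 0 < x → 0 < y → y ≤ 1 →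
      x ≤ c₃ * y ^ 2 →
      ∫⁻ w in Metric.closedBall (0 : Fin m → ℂ) 1, ∫⁻ μ in Metric.ball (0 : ℂ) 1,
        ({z | z ∈ Ball (m + 1) ∧ ‖F z‖ ≤ x ∧ y ≤ ‖RF F z‖}).indicator (fun _ => (1 : ENNReal))
          (fun j => μ / (Real.sqrt (nw w) : ℂ) * ins i w j) ≤
        ENNReal.ofReal (C * y⁻¹ ^ A * (x ^ 2 * Real.sqrt x ^ m)) := by
    intro i
    obtain ⟨c₁, c₂, hc₁, hc₁', hc₂, hc₂', Hr⟩ := near_root m i F r₁ hr₁ hF
    obtain ⟨C₆, A₆, hC₆, H6⟩ := meas m i F r₁ hr₁ hF hF0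
    have hπ := Real.pi_pos
    refine ⟨1600 / c₁ ^ 2 * Real.pi * 9 * (C₆ * 2 ^ A₆ * 2 ^ m), 4 + A₆ + m, by positivity, ?_⟩
    intro x y hx hy hy1 hxy
    -- basic inequalities
    have hyi : 1 ≤ y⁻¹ := (one_le_inv₀ hy).2 hy1
    set x' : ℝ := 3 * x / y with hx'
    have hx'0 : 0 < x' := by positivity
    have hx'c : x' ≤ 3 * c₃ * y := by
      rw [hx', div_le_iff₀ hy]
      nlinarith
    have hx'1 : x' ≤ 1 := by nlinarith
    have hx'r : 1 + x' ≤ (1 + r₁) / 2 := by nlinarith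
    have hx'L : L * x' ≤ y / 2 := by
      have h1 : c₃ * (6 * L) ≤ 1 := by
        rwa [le_div_iff₀ (by linarith)] at h32
      nlinarith
    have hxc₀ : x ≤ c₀ * y ^ 2 := hxy.trans (mul_le_mul_of_nonneg_right h31 (by positivity))
    set E : Set (Fin m → ℂ) := {w : Fin m → ℂ | ‖w‖ ≤ 1 ∧ ∃ τ : ℂ, F (pt i w τ) = 0 ∧
        ‖τ‖ * Real.sqrt (nw w) ≤ 1 + x' ∧ y / 2 ≤ ‖RF F (pt i w τ)‖} with hE
    set G : ENNReal := ENNReal.ofReal (1600 / c₁ ^ 2 * Real.pi * (x' ^ 2 * y⁻¹ ^ 2)) with hG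
    have hinner : ∀ w ∈ Metric.closedBall (0 : Fin m → ℂ) 1, ∫⁻ μ in Metric.ball (0 : ℂ) 1,
        ({z | z ∈ Ball (m + 1) ∧ ‖F z‖ ≤ x ∧ y ≤ ‖RF F z‖}).indicator (fun _ => (1 : ENNReal))
          (fun j => μ / (Real.sqrt (nw w) : ℂ) * ins i w j) ≤ E.indicator (fun _ => G) w := by
      intro w hw
      rw [Metric.mem_closedBall, dist_zero_right] at hw
      set Gd : Set ℂ := {μ : ℂ | ∃ τ : ℂ, F (pt i w τ) = 0 ∧ ‖τ‖ * Real.sqrt (nw w) ≤ 1 + x' ∧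
        y / 2 ≤ ‖RF F (pt i w τ)‖ ∧ ‖μ - Real.sqrt (nw w) * τ‖ ≤ x'} with hGd
      have h1 : ∫⁻ μ in Metric.ball (0 : ℂ) 1,
          ({z | z ∈ Ball (m + 1) ∧ ‖F z‖ ≤ x ∧ y ≤ ‖RF F z‖}).indicator (fun _ => (1 : ENNReal))
          (fun j => μ / (Real.sqrt (nw w) : ℂ) * ins i w j) ≤
          ∫⁻ μ in Metric.ball (0 : ℂ) 1, Gd.indicator (fun _ => (1 : ENNReal)) μ := by
        refine setLIntegral_mono' Metric.isOpen_ball.measurableSet fun μ hμ => ?_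
        rw [Metric.mem_ball, dist_zero_right] at hμ
        by_cases hS : (fun j => μ / (Real.sqrt (nw w) : ℂ) * ins i w j) ∈
            {z | z ∈ Ball (m + 1) ∧ ‖F z‖ ≤ x ∧ y ≤ ‖RF F z‖}
        · obtain ⟨τ, t1, t2, t3, t4⟩ := m7_root hr₁ hL Hz (fun z hz z' hz' => (Hl z hz z' hz').2.1)
            hx hy hy1 hxc₀ hx'L hx'r hμ hS
          rw [Set.indicator_of_mem hS, Set.indicator_of_mem (show μ ∈ Gd from ⟨τ, t1, t2, t3, t4⟩)]
        · rw [Set.indicator_of_notMem hS]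
          exact zero_le
      have h2 : ∫⁻ μ in Metric.ball (0 : ℂ) 1, Gd.indicator (fun _ => (1 : ENNReal)) μ ≤
          volume Gd := by
        refine (lintegral_indicator_const_le _ _).trans ?_
        rw [one_mul]
        exact Measure.restrict_le_self _
      refine (h1.trans h2).trans ?_
      by_cases hwE : w ∈ E
      · rw [Set.indicator_of_mem hwE]
        refine m7_area hc₁ hc₁' hx'0 hx'1 hy hy1 ?_
        intro τ₀ t1 t2 t3 τ' t4 t5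
        have h3 : ‖τ₀‖ ^ 2 * nw w ≤ ((1 + r₁) / 2) ^ 2 := by
          have h4 : (‖τ₀‖ * Real.sqrt (nw w)) ^ 2 = ‖τ₀‖ ^ 2 * nw w := by
            rw [mul_pow, Real.sq_sqrt (by linarith [m7_nw1 w])]
          rw [← h4]
          exact pow_le_pow_left₀ (by positivity) (t2.trans hx'r) 2
        obtain ⟨τ, u1, u2, u3, u4, u5⟩ := Hr (y / 2) w τ₀ (by linarith) (by linarith) (by linarith)
          h3 t1 t3 w (by rw [sub_self, norm_zero]; positivity)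
        rw [u5 τ' t4 t5, ← u5 τ₀ (by rw [sub_self, norm_zero]; positivity) t1]
      · have hem : Gd = ∅ := by
          rw [Set.eq_empty_iff_forall_notMem]
          rintro μ ⟨τ, t1, t2, t3, t4⟩
          exact hwE ⟨hw, τ, t1, t2, t3⟩
        rw [hem, measure_empty]
        exact zero_le
    have hEv := H6 x' (y / 2) hx'0 hx'1 (by linarith) (by linarith)
    calc ∫⁻ w in Metric.closedBall (0 : Fin m → ℂ) 1, ∫⁻ μ in Metric.ball (0 : ℂ) 1,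
        ({z | z ∈ Ball (m + 1) ∧ ‖F z‖ ≤ x ∧ y ≤ ‖RF F z‖}).indicator (fun _ => (1 : ENNReal))
          (fun j => μ / (Real.sqrt (nw w) : ℂ) * ins i w j)
        ≤ ∫⁻ w in Metric.closedBall (0 : Fin m → ℂ) 1, E.indicator (fun _ => G) w :=
          setLIntegral_mono' Metric.isClosed_closedBall.measurableSet hinner
      _ ≤ G * (volume.restrict (Metric.closedBall (0 : Fin m → ℂ) 1)) E :=
          lintegral_indicator_const_le _ _
      _ ≤ G * volume E := mul_le_mul_right (Measure.restrict_le_self _) _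
      _ ≤ G * ENNReal.ofReal (C₆ * (y / 2)⁻¹ ^ A₆ * Real.sqrt x' ^ m) := mul_le_mul_right hEv _
      _ = ENNReal.ofReal ((1600 / c₁ ^ 2 * Real.pi * (x' ^ 2 * y⁻¹ ^ 2)) *
            (C₆ * (y / 2)⁻¹ ^ A₆ * Real.sqrt x' ^ m)) := by
          rw [hG, ← ENNReal.ofReal_mul (by positivity)]
      _ ≤ _ := by
          refine ENNReal.ofReal_le_ofReal ?_
          have g1 : x' ^ 2 = 9 * (x ^ 2 * y⁻¹ ^ 2) := by
            rw [hx']
            field_simp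
            norm_num
          have g2 : (y / 2)⁻¹ ^ A₆ = 2 ^ A₆ * y⁻¹ ^ A₆ := by
            rw [inv_div, div_eq_mul_inv, mul_pow]
          have g3 : Real.sqrt x' ≤ 2 * (Real.sqrt x * y⁻¹) := by
            rw [Real.sqrt_le_left (by positivity), mul_pow, mul_pow, Real.sq_sqrt hx.le, hx',
              div_eq_mul_inv]
            have g4 : x * y⁻¹ ≤ x * y⁻¹ ^ 2 := by
              refine mul_le_mul_of_nonneg_left ?_ hx.le
              rw [pow_two]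
              exact le_mul_of_one_le_left (by positivity) hyi
            nlinarith
          have g5 : Real.sqrt x' ^ m ≤ 2 ^ m * (Real.sqrt x ^ m * y⁻¹ ^ m) := by
            rw [← mul_pow, ← mul_pow]
            exact pow_le_pow_left₀ (Real.sqrt_nonneg _) g3 m
          rw [g1, g2]
          calc 1600 / c₁ ^ 2 * Real.pi * (9 * (x ^ 2 * y⁻¹ ^ 2) * y⁻¹ ^ 2) *
              (C₆ * (2 ^ A₆ * y⁻¹ ^ A₆) * Real.sqrt x' ^ m)
              ≤ 1600 / c₁ ^ 2 * Real.pi * (9 * (x ^ 2 * y⁻¹ ^ 2) * y⁻¹ ^ 2) *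
              (C₆ * (2 ^ A₆ * y⁻¹ ^ A₆) * (2 ^ m * (Real.sqrt x ^ m * y⁻¹ ^ m))) := by
                refine mul_le_mul_of_nonneg_left ?_ (by positivity)
                exact mul_le_mul_of_nonneg_left g5 (by positivity)
            _ = _ := by
                rw [pow_add, pow_add]
                ring
  choose Cc Ac hCc Hc using hchart
  have hV : volume (Ball (m + 1)) ≠ ⊤ := by
    have hsub : Ball (m + 1) ⊆ Metric.closedBall 0 1 := by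
      intro z hz
      rw [Metric.mem_closedBall, dist_zero_right, pi_norm_le_iff_of_nonneg zero_le_one]
      intro j
      have h10 : ‖z j‖ ^ 2 ≤ ∑ j, ‖z j‖ ^ 2 :=
        Finset.single_le_sum (f := fun j => ‖z j‖ ^ 2) (fun _ _ => by positivity)
          (Finset.mem_univ j)
      have h11 : ∑ j, ‖z j‖ ^ 2 < 1 := hz
      nlinarith [norm_nonneg (z j)]
    exact ne_top_of_le_ne_top (isCompact_closedBall (0 : Fin (m + 1) → ℂ) 1).measure_lt_top.ne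
      (measure_mono hsub)
  set V : ℝ := (volume (Ball (m + 1))).toReal with hVdef
  have hV0 : 0 ≤ V := ENNReal.toReal_nonneg
  have hs3 : 0 < Real.sqrt c₃ := Real.sqrt_pos.2 hc₃0
  set C₁ : ℝ := V / (c₃ ^ 2 * Real.sqrt c₃ ^ m) with hC₁
  have hC₁0 : 0 ≤ C₁ := by positivity
  have hsumC : 0 ≤ ∑ i, Cc i := Finset.sum_nonneg fun i _ => (hCc i).le
  refine ⟨1 + C₁ + ∑ i, Cc i, 4 + m + ∑ i, Ac i, by positivity, ?_⟩
  intro x y hx hx1 hy hy1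
  have hyi : 1 ≤ y⁻¹ := (one_le_inv₀ hy).2 hy1
  rcases le_or_gt x (c₃ * y ^ 2) with hle | hgt
  · have hms := m7_meas hr₁ hF x y
    have e1 : volume {z | z ∈ Ball (m + 1) ∧ ‖F z‖ ≤ x ∧ y ≤ ‖RF F z‖} =
        ∫⁻ z in Ball (m + 1), ({z | z ∈ Ball (m + 1) ∧ ‖F z‖ ≤ x ∧ y ≤ ‖RF F z‖}).indicator
          (fun _ => (1 : ENNReal)) z := by
      rw [lintegral_indicator_const hms, one_mul, Measure.restrict_apply hms]
      congr 1
      ext z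
      constructor
      · exact fun h => ⟨h, h.1⟩
      · exact fun h => h.1
    rw [e1]
    refine (chart_le m _ (measurable_const.indicator hms)).trans ?_
    calc ∑ i : Fin (m + 1), ∫⁻ w in Metric.closedBall (0 : Fin m → ℂ) 1,
          ∫⁻ μ in Metric.ball (0 : ℂ) 1,
          ({z | z ∈ Ball (m + 1) ∧ ‖F z‖ ≤ x ∧ y ≤ ‖RF F z‖}).indicator (fun _ => (1 : ENNReal))
          (fun j => μ / (Real.sqrt (nw w) : ℂ) * ins i w j)
        ≤ ∑ i, ENNReal.ofReal (Cc i * y⁻¹ ^ Ac i * (x ^ 2 * Real.sqrt x ^ m)) :=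
          Finset.sum_le_sum fun i _ => Hc i x y hx hy hy1 hle
      _ ≤ ∑ i, ENNReal.ofReal (Cc i * (y⁻¹ ^ (4 + m + ∑ i, Ac i) * (x ^ 2 * Real.sqrt x ^ m))) := by
          refine Finset.sum_le_sum fun i _ => ENNReal.ofReal_le_ofReal ?_
          rw [mul_assoc]
          refine mul_le_mul_of_nonneg_left ?_ (hCc i).le
          refine mul_le_mul_of_nonneg_right ?_ (by positivity)
          refine pow_le_pow_right₀ hyi ?_
          have h1 : Ac i ≤ ∑ i, Ac i :=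
            Finset.single_le_sum (f := Ac) (fun _ _ => Nat.zero_le _) (Finset.mem_univ i)
          omega
      _ = ENNReal.ofReal (∑ i, Cc i * (y⁻¹ ^ (4 + m + ∑ i, Ac i) * (x ^ 2 * Real.sqrt x ^ m))) := by
          rw [ENNReal.ofReal_sum_of_nonneg]
          intro i _
          have := (hCc i).le
          positivity
      _ ≤ _ := by
          refine ENNReal.ofReal_le_ofReal ?_
          rw [← Finset.sum_mul, mul_assoc]
          refine mul_le_mul_of_nonneg_right (by linarith) (by positivity)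
  · calc volume {z | z ∈ Ball (m + 1) ∧ ‖F z‖ ≤ x ∧ y ≤ ‖RF F z‖}
        ≤ volume (Ball (m + 1)) := measure_mono fun z hz => hz.1
      _ = ENNReal.ofReal V := (ENNReal.ofReal_toReal hV).symm
      _ ≤ _ := by
          refine ENNReal.ofReal_le_ofReal ?_
          have h1 : Real.sqrt c₃ * y ≤ Real.sqrt x := by
            refine Real.le_sqrt_of_sq_le ?_
            rw [mul_pow, Real.sq_sqrt hc₃0.le]
            exact hgt.le
          have h2 : (Real.sqrt c₃ * y) ^ m ≤ Real.sqrt x ^ m := pow_le_pow_left₀ (by positivity) h1 m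
          have h3 : (c₃ * y ^ 2) ^ 2 ≤ x ^ 2 := pow_le_pow_left₀ (by positivity) hgt.le 2
          have h4 : (c₃ * y ^ 2) ^ 2 * (Real.sqrt c₃ * y) ^ m ≤ x ^ 2 * Real.sqrt x ^ m :=
            mul_le_mul h3 h2 (by positivity) (by positivity)
          have h5 : V = C₁ * (y⁻¹ ^ (4 + m) * ((c₃ * y ^ 2) ^ 2 * (Real.sqrt c₃ * y) ^ m)) := by
            have e1 : y⁻¹ ^ m * (Real.sqrt c₃ * y) ^ m = Real.sqrt c₃ ^ m := by
              rw [← mul_pow]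
              congr 1
              field_simp
            have e2 : y⁻¹ ^ 4 * (c₃ * y ^ 2) ^ 2 = c₃ ^ 2 := by
              field_simp
            have e3 : y⁻¹ ^ (4 + m) * ((c₃ * y ^ 2) ^ 2 * (Real.sqrt c₃ * y) ^ m)
                = c₃ ^ 2 * Real.sqrt c₃ ^ m := by
              rw [pow_add, ← e1, ← e2]
              ring
            rw [e3, hC₁]
            have hs : (0:ℝ) < Real.sqrt c₃ := Real.sqrt_pos.2 hc₃0
            have hs2 : Real.sqrt c₃ ^ m ≠ 0 := (pow_pos hs m).ne'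
            field_simp
          have h6 : y⁻¹ ^ (4 + m) ≤ y⁻¹ ^ (4 + m + ∑ i, Ac i) :=
            pow_le_pow_right₀ hyi (Nat.le_add_right _ _)
          calc V = C₁ * (y⁻¹ ^ (4 + m) * ((c₃ * y ^ 2) ^ 2 * (Real.sqrt c₃ * y) ^ m)) := h5
            _ ≤ C₁ * (y⁻¹ ^ (4 + m + ∑ i, Ac i) * (x ^ 2 * Real.sqrt x ^ m)) := by
                refine mul_le_mul_of_nonneg_left ?_ hC₁0
                exact mul_le_mul h6 h4 (by positivity) (by positivity)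
            _ ≤ (1 + C₁ + ∑ i, Cc i) * (y⁻¹ ^ (4 + m + ∑ i, Ac i) * (x ^ 2 * Real.sqrt x ^ m)) :=
                mul_le_mul_of_nonneg_right (by linarith) (by positivity)
            _ = _ := by ring

end PCY
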