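import Pool.Agent.PCY.Defs

/-!
# [PCY-U1] division by a Blaschke type factor

`H t = - ((r² - conj a t) / r) * dslope G a t`.  Since `G a = 0`, `G t = (t - a) * dslope G a t` for all `t`
(`sub_smul_dslope`), and `bl r a t * H t = (t - a) * dslope G a t` because the denominator `r² - conj a t` does not vanish
for `‖t‖ ≤ r` (`‖conj a t‖ ≤ ‖a‖ r < r²`).
`dslope G a` is analytic on the closed ball: at `t ≠ a` it is the quotient `(G t - G a)/(t - a)` near `t`; near `a` it is
`DifferentiableOn` (`Complex.differentiableOn_dslope` on a ball on which `G` is analytic), or use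
`AnalyticAt.dslope` / `HasFPowerSeriesAt.has_fpower_series_dslope_fslope`.
Bound: on the sphere `‖t‖ = r` one has `‖bl r a t‖ = 1`: `‖r² - conj a t‖ = ‖t‖ ‖conj t - conj a‖ = r ‖a - t‖`
(`t * conj t = r²`; also `Complex.norm_canonicalFactor_eval_circle_eq_one`), so `‖H t‖ = ‖G t‖ ≤ M` there, and the maximum
principle (`Complex.norm_le_of_forall_mem_frontier_norm_le` on `ball 0 r`, or on `closedBall`) gives the bound inside.
-/

open MeasureTheory Set Filter Topology

namespace PCY

theorem u1_dslope_an (G : ℂ → ℂ) (a t : ℂ) (ht : AnalyticAt ℂ G t) (ha : AnalyticAt ℂ G a) :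
    AnalyticAt ℂ (dslope G a) t := by
  by_cases h : t = a
  · subst h
    obtain ⟨p, hp⟩ := ha
    exact ⟨_, hp.has_fpower_series_dslope_fslope⟩
  · have h1 : AnalyticAt ℂ (fun z => (G z - G a) / (z - a)) t :=
      (ht.sub analyticAt_const).div (analyticAt_id.sub analyticAt_const) (sub_ne_zero.2 h)
    refine h1.congr ?_
    filter_upwards [isOpen_ne.mem_nhds h] with z hz
    rw [dslope_of_ne _ hz, slope_def_field]

theorem div_bl (r : ℝ) (hr : 1 < r) (M : ℝ) (G : ℂ → ℂ)
    (hG : AnalyticOnNhd ℂ G (Metric.closedBall 0 r))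
    (hM : ∀ t ∈ Metric.closedBall (0 : ℂ) r, ‖G t‖ ≤ M) (a : ℂ) (ha : ‖a‖ < r) (hGa : G a = 0) :
    ∃ H : ℂ → ℂ, AnalyticOnNhd ℂ H (Metric.closedBall 0 r) ∧
      (∀ t ∈ Metric.closedBall (0 : ℂ) r, ‖H t‖ ≤ M) ∧
      ∀ t ∈ Metric.closedBall (0 : ℂ) r, G t = bl r a t * H t := by
  have hr0 : 0 < r := by linarith
  have hra : a ∈ Metric.closedBall (0 : ℂ) r := by
    rw [mem_closedBall_zero_iff]
    exact ha.le
  have hden : ∀ t ∈ Metric.closedBall (0 : ℂ) r, (r : ℂ) ^ 2 - (starRingEnd ℂ) a * t ≠ 0 := by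
    intro t ht h
    have ht' : ‖t‖ ≤ r := mem_closedBall_zero_iff.1 ht
    have h1 : (r : ℂ) ^ 2 = (starRingEnd ℂ) a * t := sub_eq_zero.1 h
    have h2 : r ^ 2 = ‖a‖ * ‖t‖ := by
      have := congrArg norm h1
      rw [norm_mul, Complex.norm_conj, norm_pow, Complex.norm_real, Real.norm_eq_abs,
        abs_of_pos hr0] at this
      exact this
    have h3 : ‖a‖ * ‖t‖ ≤ ‖a‖ * r := mul_le_mul_of_nonneg_left ht' (norm_nonneg a)
    nlinarith
  have hrc : (r : ℂ) ≠ 0 := by
    exact_mod_cast hr0.ne'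
  let H : ℂ → ℂ := fun t => -(((r : ℂ) ^ 2 - (starRingEnd ℂ) a * t) / r) * dslope G a t
  have hHan : AnalyticOnNhd ℂ H (Metric.closedBall 0 r) := by
    intro t ht
    have h1 : AnalyticAt ℂ (fun t : ℂ => -(((r : ℂ) ^ 2 - (starRingEnd ℂ) a * t) / r)) t := by
      fun_prop
    exact h1.mul (u1_dslope_an G a t (hG t ht) (hG a hra))
  have hfac : ∀ t ∈ Metric.closedBall (0 : ℂ) r, G t = bl r a t * H t := by
    intro t ht
    have h1 : (t - a) * dslope G a t = G t := by
      have := sub_smul_dslope G a t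
      rw [hGa, sub_zero, smul_eq_mul] at this
      exact this
    have h2 := hden t ht
    rw [← h1]
    have key : ∀ D x : ℂ, D ≠ 0 → (t - a) * x = (r : ℂ) * (a - t) / D * (-(D / r) * x) := by
      intro D x hD
      field_simp
      ring
    exact key _ _ h2
  refine ⟨H, hHan, ?_, hfac⟩
  intro t ht
  have hcl : closure (Metric.ball (0 : ℂ) r) = Metric.closedBall 0 r := closure_ball 0 hr0.ne'
  have hd : DiffContOnCl ℂ H (Metric.ball 0 r) := by
    apply DifferentiableOn.diffContOnCl
    rw [hcl]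
    exact hHan.differentiableOn
  apply Complex.norm_le_of_forall_mem_frontier_norm_le Metric.isBounded_ball hd
  · intro z hz
    rw [frontier_ball _ hr0.ne'] at hz
    have hz' : ‖z‖ = r := mem_sphere_zero_iff_norm.1 hz
    have hzc : z ∈ Metric.closedBall (0 : ℂ) r := Metric.sphere_subset_closedBall hz
    have h1 : ‖bl r a z‖ = 1 := by
      have h2 : (r : ℂ) ^ 2 = z * (starRingEnd ℂ) z := by
        rw [Complex.mul_conj, Complex.normSq_eq_norm_sq, hz']
        push_cast
        rfl
      have h3 : (r : ℂ) ^ 2 - (starRingEnd ℂ) a * z = z * (starRingEnd ℂ) (z - a) := by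
        rw [h2, map_sub]
        ring
      have hza : ‖z - a‖ ≠ 0 := by
        intro h
        have h4 : z = a := sub_eq_zero.1 (norm_eq_zero.1 h)
        rw [h4] at hz'
        linarith
      unfold bl
      rw [h3, norm_div, norm_mul, norm_mul, Complex.norm_conj, hz', Complex.norm_real,
        Real.norm_eq_abs, abs_of_pos hr0, norm_sub_rev a z]
      exact div_self (mul_ne_zero hr0.ne' hza)
    have h5 := hM z hzc
    rw [hfac z hzc, norm_mul, h1, one_mul] at h5
    exact h5
  · rw [hcl]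
    exact ht

end PCY
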