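import Pool.Agent.PCY.Defs

/-!
# [PCY-U2] zero free functions

On `ball 0 r` there is a holomorphic logarithm `φ` of `H`: `deriv H / H` is holomorphic on the ball, hence has a primitive
(`Mathlib.Analysis.Complex.HasPrimitives`, discs), and `H * exp (-φ)` has derivative `0`; normalise `exp (φ 0) = H 0`.
`Re φ = log ‖H‖ ≤ log M`, `Re (φ 0) ≥ 0`.  Borel-Carathéodory (`Complex.borelCaratheodory_zero` for `φ - φ 0`, whose real
part is `≤ log M ≤ log M + 1 =: M₁ > 0`): `‖φ t - φ 0‖ ≤ 2 M₁ r₁ / (r - r₁) =: K₁` for `‖t‖ ≤ r₁ := (1 + r)/2 < r`.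
So `‖H t‖ = exp (Re φ t) ≥ exp (- K₁)` for `‖t‖ ≤ 1`, and `deriv H t = φ'(t) H t` with
`‖φ'(t)‖ ≤ K₁ / (r₁ - 1)` for `‖t‖ ≤ 1` (Cauchy's estimate `Complex.norm_deriv_le_of_forall_mem_sphere_norm_le` on the
circle about `t` of radius `r₁ - 1`, for `φ - φ 0`).
`K = max (exp K₁) (K₁/(r₁ - 1)) ` (and `≥ 1`) depends on `r` and `M` only.
-/

open MeasureTheory Set Filter Topology

namespace PCY

theorem zfree (r : ℝ) (hr : 1 < r) (M : ℝ) (hM1 : 1 ≤ M) : ∃ K : ℝ, 1 ≤ K ∧ ∀ H : ℂ → ℂ,
    AnalyticOnNhd ℂ H (Metric.closedBall 0 r) → (∀ t ∈ Metric.closedBall (0 : ℂ) r, ‖H t‖ ≤ M) →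
    (∀ t ∈ Metric.closedBall (0 : ℂ) r, H t ≠ 0) → 1 ≤ ‖H 0‖ →
    ∀ t ∈ Metric.closedBall (0 : ℂ) 1, ‖deriv H t‖ ≤ K * ‖H t‖ ∧ 1 ≤ K * ‖H t‖ := by
  have hr0 : 0 < r := by linarith
  let M₁ : ℝ := Real.log M + 1
  let r₁ : ℝ := (1 + r) / 2
  let K₁ : ℝ := 2 * M₁ * r₁ / (r - r₁)
  have hlog : 0 ≤ Real.log M := Real.log_nonneg hM1
  have hM₁ : 0 < M₁ := by
    show 0 < Real.log M + 1
    linarith
  have hr1 : 1 < r₁ := by
    show 1 < (1 + r) / 2
    linarith
  have hr1' : r₁ < r := by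
    show (1 + r) / 2 < r
    linarith
  have hK₁ : 0 ≤ K₁ := by
    apply div_nonneg
    · positivity
    · linarith
  refine ⟨max (Real.exp K₁) (K₁ / (r₁ - 1)), le_trans (Real.one_le_exp hK₁) (le_max_left _ _), ?_⟩
  intro H hH hHM hH0 hH1
  have hsub : Metric.ball (0 : ℂ) r ⊆ Metric.closedBall 0 r := Metric.ball_subset_closedBall
  have h0mem : (0 : ℂ) ∈ Metric.ball (0 : ℂ) r := Metric.mem_ball_self hr0
  have hdH : DifferentiableOn ℂ (fun z => deriv H z / H z) (Metric.ball 0 r) := by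
    intro z hz
    have h1 : AnalyticAt ℂ H z := hH z (hsub hz)
    exact (h1.deriv.div h1 (hH0 z (hsub hz))).differentiableAt.differentiableWithinAt
  obtain ⟨g, hg0, hg⟩ := (hdH.isExactOn_ball).with_val_at 0 (Complex.log (H 0))
  have hexp : ∀ z ∈ Metric.ball (0 : ℂ) r, H z = Complex.exp (g z) := by
    have hder : ∀ z ∈ Metric.ball (0 : ℂ) r,
        HasDerivAt (fun z => H z * Complex.exp (-g z)) 0 z := by
      intro z hz
      have h1 : AnalyticAt ℂ H z := hH z (hsub hz)
      have h2 := h1.differentiableAt.hasDerivAt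
      have h3 := ((hg z hz).neg).cexp
      have h4 := h2.mul h3
      have h5 : deriv H z * Complex.exp (-g z) +
          H z * (Complex.exp (-g z) * -(deriv H z / H z)) = 0 := by
        have := hH0 z (hsub hz)
        field_simp
        ring
      rw [← h5]
      exact h4
    intro z hz
    have h1 : (fun z => H z * Complex.exp (-g z)) z = (fun z => H z * Complex.exp (-g z)) 0 := by
      apply IsOpen.is_const_of_deriv_eq_zero Metric.isOpen_ball
        (convex_ball (0 : ℂ) r).isPreconnected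
        (fun w hw => (hder w hw).differentiableAt.differentiableWithinAt) _ hz h0mem
      intro w hw
      exact (hder w hw).deriv
    have h2 : H z * Complex.exp (-g z) = 1 := by
      have h3 : H z * Complex.exp (-g z) = H 0 * Complex.exp (-g 0) := h1
      rw [h3, hg0, Complex.exp_neg, Complex.exp_log (hH0 0 (hsub h0mem))]
      exact mul_inv_cancel₀ (hH0 0 (hsub h0mem))
    rw [Complex.exp_neg] at h2
    have h3 := Complex.exp_ne_zero (g z)
    field_simp at h2
    exact h2
  have hnorm : ∀ z ∈ Metric.ball (0 : ℂ) r, ‖H z‖ = Real.exp (g z).re := by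
    intro z hz
    rw [hexp z hz, Complex.norm_exp]
  have hre0 : 0 ≤ (g 0).re := by
    have h1 := hnorm 0 h0mem
    rw [h1] at hH1
    exact Real.one_le_exp_iff.1 hH1
  have hre : ∀ z ∈ Metric.ball (0 : ℂ) r, (g z).re ≤ Real.log M := by
    intro z hz
    have h1 := hHM z (hsub hz)
    rw [hnorm z hz] at h1
    rw [← Real.log_exp (g z).re]
    exact Real.log_le_log (Real.exp_pos _) h1
  have hgd : DifferentiableOn ℂ (fun z => g z - g 0) (Metric.ball 0 r) := by
    intro z hz
    exact ((hg z hz).differentiableAt.sub_const _).differentiableWithinAt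
  have hBC : ∀ z : ℂ, ‖z‖ ≤ r₁ → ‖g z - g 0‖ ≤ K₁ := by
    intro z hz
    have hzr : z ∈ Metric.ball (0 : ℂ) r := mem_ball_zero_iff.2 (by linarith)
    have h1 : ‖g z - g 0‖ ≤ 2 * M₁ * ‖z‖ / (r - ‖z‖) := by
      apply Complex.borelCaratheodory_zero (f := fun z => g z - g 0) hM₁ hgd _ hr0 hzr
        (sub_self _)
      intro w hw
      show (g w - g 0).re ≤ M₁
      rw [Complex.sub_re]
      have := hre w hw
      show (g w).re - (g 0).re ≤ Real.log M + 1
      linarith
    refine le_trans h1 ?_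
    apply div_le_div₀
    · positivity
    · exact mul_le_mul_of_nonneg_left hz (by positivity)
    · linarith
    · linarith
  intro t ht
  have ht1 : ‖t‖ ≤ 1 := mem_closedBall_zero_iff.1 ht
  have htr : t ∈ Metric.ball (0 : ℂ) r := mem_ball_zero_iff.2 (by linarith)
  have hlow : Real.exp (-K₁) ≤ ‖H t‖ := by
    rw [hnorm t htr]
    apply Real.exp_le_exp.2
    have h1 := hBC t (by linarith)
    have h2 := Complex.abs_re_le_norm (g t - g 0)
    rw [Complex.sub_re] at h2
    have h3 := neg_abs_le ((g t).re - (g 0).re)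
    linarith
  have hder : ‖deriv g t‖ ≤ K₁ / (r₁ - 1) := by
    have hcb : Metric.closedBall t (r₁ - 1) ⊆ Metric.ball 0 r := by
      intro w hw
      rw [mem_ball_zero_iff]
      have h1 : ‖w - t‖ ≤ r₁ - 1 := by
        rw [← dist_eq_norm]
        exact Metric.mem_closedBall.1 hw
      have h2 : ‖w‖ ≤ ‖w - t‖ + ‖t‖ := by
        have := norm_add_le (w - t) t
        rw [sub_add_cancel] at this
        exact this
      linarith
    have h1 : ‖deriv (fun z => g z - g 0) t‖ ≤ K₁ / (r₁ - 1) := by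
      apply Complex.norm_deriv_le_of_forall_mem_sphere_norm_le (by linarith)
        (hgd.diffContOnCl_ball hcb)
      intro w hw
      apply hBC
      have h1 : ‖w - t‖ = r₁ - 1 := by
        rw [← dist_eq_norm]
        exact Metric.mem_sphere.1 hw
      have h2 : ‖w‖ ≤ ‖w - t‖ + ‖t‖ := by
        have := norm_add_le (w - t) t
        rw [sub_add_cancel] at this
        exact this
      linarith
    have h2 : deriv (fun z => g z - g 0) t = deriv g t := by
      rw [deriv_sub_const]
    rw [h2] at h1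
    exact h1
  have hgt : deriv g t = deriv H t / H t := (hg t htr).deriv
  have hHt : 0 < ‖H t‖ := norm_pos_iff.2 (hH0 t (hsub htr))
  constructor
  · rw [hgt, norm_div, div_le_iff₀ hHt] at hder
    exact le_trans hder (mul_le_mul_of_nonneg_right (le_max_right _ _) hHt.le)
  · have h1 : 1 ≤ Real.exp K₁ * ‖H t‖ := by
      calc (1 : ℝ) = Real.exp K₁ * Real.exp (-K₁) := by
            rw [← Real.exp_add, add_neg_cancel, Real.exp_zero]
        _ ≤ Real.exp K₁ * ‖H t‖ := mul_le_mul_of_nonneg_left hlow (Real.exp_pos _).le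
    exact le_trans h1 (mul_le_mul_of_nonneg_right (le_max_left _ _) hHt.le)

end PCY
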