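import Pool.Agent.PCY.U1

/-!
# [PCY-U3] dividing out the zeros

Induction on `k` (for all `G`).  If `G` has no zero in `closedBall 0 r₂`, take `S = 0`, `H = G`.
Otherwise let `G a = 0`, `‖a‖ ≤ r₂ < r`; `a ≠ 0` because `G 0 ≠ 0`.  `div_bl` gives `G = bl r a * G₁` on the closed ball,
`‖G₁‖ ≤ M`.  At `t = 0`: `bl r a 0 = a / r`, so `‖G₁ 0‖ = ‖G 0‖ r / ‖a‖ ≥ ‖G 0‖ (r / r₂)`.
If `k = 0`: `M < ‖G 0‖ (r/r₂) ≤ ‖G₁ 0‖ ≤ M`, a contradiction.  If `k = j + 1`: `M < ‖G 0‖ (r/r₂)^(j+2) ≤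
‖G₁ 0‖ (r/r₂)^(j+1)`, so the induction hypothesis applies to `G₁`: multiset `S₁`, function `H`; `S = a ::ₘ S₁`.  The elements
of `S₁` are zeros of `G₁`, hence of `G` (`G t = bl r a t * G₁ t`).  `‖H 0‖ ≥ ‖G₁ 0‖ ≥ ‖G 0‖` (`r/r₂ ≥ 1`).
-/

open MeasureTheory Set Filter Topology

namespace PCY

theorem U3_step (r r₂ : ℝ) (hr₂ : 1 < r₂) (hr : r₂ < r) (M : ℝ) (G : ℂ → ℂ)
    (hG : AnalyticOnNhd ℂ G (Metric.closedBall 0 r))
    (hM : ∀ t ∈ Metric.closedBall (0 : ℂ) r, ‖G t‖ ≤ M) (a : ℂ) (ha : ‖a‖ ≤ r₂) (hGa : G a = 0) :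
    ∃ H : ℂ → ℂ, AnalyticOnNhd ℂ H (Metric.closedBall 0 r) ∧
      (∀ t ∈ Metric.closedBall (0 : ℂ) r, ‖H t‖ ≤ M) ∧
      (∀ t ∈ Metric.closedBall (0 : ℂ) r, G t = bl r a t * H t) ∧ ‖G 0‖ * (r / r₂) ≤ ‖H 0‖ := by
  obtain ⟨H, h1, h2, h3⟩ := div_bl r (hr₂.trans hr) M G hG hM a (lt_of_le_of_lt ha hr) hGa
  refine ⟨H, h1, h2, h3, ?_⟩
  have hr0 : 0 < r := by linarith
  have hr20 : 0 < r₂ := by linarith
  have h4 := h3 0 (Metric.mem_closedBall_self hr0.le)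
  have hrc : (r : ℂ) ≠ 0 := by
    exact_mod_cast hr0.ne'
  have h5 : bl r a 0 = a / (r : ℂ) := by
    unfold bl
    rw [sub_zero, mul_zero, sub_zero, pow_two, mul_div_mul_left _ _ hrc]
  have h6 : ‖G 0‖ = ‖a‖ / r * ‖H 0‖ := by
    rw [h4, h5, norm_mul, norm_div, Complex.norm_real, Real.norm_of_nonneg hr0.le]
  rw [h6]
  have h7 : ‖a‖ / r * ‖H 0‖ * (r / r₂) = ‖a‖ / r₂ * ‖H 0‖ := by
    field_simp
  rw [h7]
  have h8 : ‖a‖ / r₂ ≤ 1 := (div_le_one hr20).2 ha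
  calc ‖a‖ / r₂ * ‖H 0‖ ≤ 1 * ‖H 0‖ := mul_le_mul_of_nonneg_right h8 (norm_nonneg _)
    _ = ‖H 0‖ := one_mul _

theorem factor (r r₂ : ℝ) (hr₂ : 1 < r₂) (hr : r₂ < r) (M : ℝ) (k : ℕ) : ∀ G : ℂ → ℂ,
    AnalyticOnNhd ℂ G (Metric.closedBall 0 r) → (∀ t ∈ Metric.closedBall (0 : ℂ) r, ‖G t‖ ≤ M) →
    0 < ‖G 0‖ → M < ‖G 0‖ * (r / r₂) ^ (k + 1) →
    ∃ (S : Multiset ℂ) (H : ℂ → ℂ), Multiset.card S ≤ k ∧ (∀ a ∈ S, ‖a‖ ≤ r₂ ∧ G a = 0) ∧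
      AnalyticOnNhd ℂ H (Metric.closedBall 0 r) ∧ (∀ t ∈ Metric.closedBall (0 : ℂ) r, ‖H t‖ ≤ M) ∧
      (∀ t ∈ Metric.closedBall (0 : ℂ) r₂, H t ≠ 0) ∧ ‖G 0‖ ≤ ‖H 0‖ ∧
      ∀ t ∈ Metric.closedBall (0 : ℂ) r, G t = (S.map fun a => bl r a t).prod * H t := by
  have hr20 : 0 < r₂ := by linarith
  have hρ : 1 ≤ r / r₂ := (one_le_div hr20).2 hr.le
  have hcb : Metric.closedBall (0 : ℂ) r₂ ⊆ Metric.closedBall 0 r := Metric.closedBall_subset_closedBall hr.le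
  induction k with
  | zero =>
    intro G hG hM hG0 hlt
    by_cases hz : ∃ a : ℂ, ‖a‖ ≤ r₂ ∧ G a = 0
    · exfalso
      obtain ⟨a, ha, hGa⟩ := hz
      obtain ⟨H, h1, h2, h3, h4⟩ := U3_step r r₂ hr₂ hr M G hG hM a ha hGa
      have h5 := h2 0 (Metric.mem_closedBall_self (by linarith))
      rw [zero_add, pow_one] at hlt
      linarith
    · push Not at hz
      refine ⟨0, G, by simp, by simp, hG, hM, ?_, le_rfl, ?_⟩
      · intro t ht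
        exact hz t (by simpa using ht)
      · intro t _
        simp
  | succ j ih =>
    intro G hG hM hG0 hlt
    by_cases hz : ∃ a : ℂ, ‖a‖ ≤ r₂ ∧ G a = 0
    · obtain ⟨a, ha, hGa⟩ := hz
      obtain ⟨G1, h1, h2, h3, h4⟩ := U3_step r r₂ hr₂ hr M G hG hM a ha hGa
      have h5 : ‖G 0‖ ≤ ‖G1 0‖ := by
        refine le_trans ?_ h4
        calc ‖G 0‖ = ‖G 0‖ * 1 := (mul_one _).symm
          _ ≤ ‖G 0‖ * (r / r₂) := mul_le_mul_of_nonneg_left hρ (norm_nonneg _)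
      have h6 : M < ‖G1 0‖ * (r / r₂) ^ (j + 1) := by
        refine lt_of_lt_of_le hlt ?_
        calc ‖G 0‖ * (r / r₂) ^ (j + 1 + 1) = ‖G 0‖ * (r / r₂) * (r / r₂) ^ (j + 1) := by ring
          _ ≤ ‖G1 0‖ * (r / r₂) ^ (j + 1) :=
            mul_le_mul_of_nonneg_right h4 (pow_nonneg (by linarith) _)
      obtain ⟨S, H, s1, s2, s3, s4, s5, s6, s7⟩ := ih G1 h1 h2 (lt_of_lt_of_le hG0 h5) h6
      refine ⟨a ::ₘ S, H, ?_, ?_, s3, s4, s5, h5.trans s6, ?_⟩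
      · rw [Multiset.card_cons]
        omega
      · intro b hb
        rw [Multiset.mem_cons] at hb
        rcases hb with rfl | hb
        · exact ⟨ha, hGa⟩
        · have h7 := s2 b hb
          refine ⟨h7.1, ?_⟩
          have hb' : b ∈ Metric.closedBall (0 : ℂ) r := hcb (by simpa using h7.1)
          rw [h3 b hb', h7.2, mul_zero]
      · intro t ht
        rw [Multiset.map_cons, Multiset.prod_cons, h3 t ht, s7 t ht, mul_assoc]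
    · push Not at hz
      refine ⟨0, G, by simp, by simp, hG, hM, ?_, le_rfl, ?_⟩
      · intro t ht
        exact hz t (by simpa using ht)
      · intro t _
        simp

end PCY
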