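import Pool.Agent.PCY.U2
import Pool.Agent.PCY.U3

/-!
# [PCY-U4] functions of one variable without zeros in the unit disc, holomorphic across the circle

`r₂ = (1+r)/2`.  `k` with `M < (r/r₂)^(k+1)` (`pow_unbounded_of_one_lt`), `K` from `zfree r₂ M`.
`factor`: `G = (∏_{a ∈ S} bl r a) H` on `closedBall 0 r`, `card S ≤ k`, `1 ≤ ‖a‖ ≤ r₂` for `a ∈ S` (`G a = 0`, so `a` is not in
`ball 0 1`).  Let `t ∈ ball 0 1`, `a ∈ S`.
* denominators: `r² - r₂ ≤ ‖r² - conj a t‖ ≤ r² + r₂` (`‖conj a t‖ ≤ r₂`), `r² - r₂ > 0`; `bl r a t ≠ 0`.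
* (i) `deriv (bl r a) t / bl r a t = 1/(t-a) + conj a/(r² - conj a t)`; `Re (t/(t-a)) ≤ 1/2`: `Re (t conj (t-a)) = ‖t‖² -
  Re (t conj a)` and `‖t-a‖² = ‖t‖² - 2 Re (t conj a) + ‖a‖² ≥ 2 (‖t‖² - Re (t conj a))` since `‖a‖ ≥ 1 ≥ ‖t‖`;
  `‖t conj a/(r² - conj a t)‖ ≤ r₂/(r² - r₂)`.  `‖t H'(t)/H(t)‖ ≤ K`.  The logarithmic derivative of a product
  (`logDeriv_mul`, multiset induction): `Re (t G'(t)/G(t)) ≤ k (1/2 + r₂/(r²-r₂)) + K`.
  It is convenient to prove first, by multiset induction, for all multisets `S` of such `a` the three statements about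
  `B t = (S.map fun a => bl r a t).prod` (differentiable at `t`, nonzero, bound of `Re (t B'/B)`).
* (ii) `‖a - t‖ ≤ 2 ‖a - ρ t‖` : `‖a - t‖ ≤ ‖a - ρ t‖ + (1-ρ)‖t‖` and `(1-ρ)‖t‖ ≤ 1 - ρ ‖t‖ ≤ ‖a‖ - ρ ‖t‖ ≤ ‖a - ρ t‖`.  So
  `‖bl r a t‖ ≤ b ‖bl r a (ρ t)‖`, `b = 2 (r² + r₂)/(r² - r₂) ≥ 1`, and `‖H t‖ ≤ M ≤ M K ‖H (ρ t)‖`.  Total `b^k M K`.
* (iii) `‖a - s t‖ ≥ 1 - s`, `‖bl r a (s t)‖ ≥ r (1-s)/(r²+r₂) ≥ c (1-s)`, `c = min 1 (r/(r²+r₂))`; `‖H (s t)‖ ≥ 1/K`.  Total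
  `(c (1-s))^(card S)/K ≥ c^k (1-s)^k/K`.
`C = max` of the constants, also `C ≥ c^(-k) K`.
-/

open MeasureTheory Set Filter Topology

namespace PCY

private theorem u4_den {r r₂ : ℝ} (h2 : 1 < r₂) (hr : r₂ < r) {a t : ℂ} (ha2 : ‖a‖ ≤ r₂)
    (ht : ‖t‖ ≤ 1) : r ^ 2 - r₂ ≤ ‖(r : ℂ) ^ 2 - (starRingEnd ℂ) a * t‖ ∧
      ‖(r : ℂ) ^ 2 - (starRingEnd ℂ) a * t‖ ≤ r ^ 2 + r₂ := by
  have h3 : ‖(starRingEnd ℂ) a * t‖ ≤ r₂ := by
    rw [norm_mul, RCLike.norm_conj]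
    calc ‖a‖ * ‖t‖ ≤ r₂ * 1 := mul_le_mul ha2 ht (norm_nonneg _) (by linarith)
      _ = r₂ := mul_one _
  have h4 : ‖(r : ℂ) ^ 2‖ = r ^ 2 := by
    rw [norm_pow, Complex.norm_real, Real.norm_eq_abs, abs_of_pos (by linarith)]
  constructor
  · have := norm_sub_norm_le ((r : ℂ) ^ 2) ((starRingEnd ℂ) a * t)
    linarith
  · have := norm_sub_le ((r : ℂ) ^ 2) ((starRingEnd ℂ) a * t)
    linarith

private theorem u4_gap {r r₂ : ℝ} (h2 : 1 < r₂) (hr : r₂ < r) : 0 < r ^ 2 - r₂ := by nlinarith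

private theorem u4_norm {r r₂ : ℝ} (h2 : 1 < r₂) (hr : r₂ < r) {a t : ℂ} :
    ‖bl r a t‖ = r * ‖a - t‖ / ‖(r : ℂ) ^ 2 - (starRingEnd ℂ) a * t‖ := by
  unfold bl
  rw [norm_div, norm_mul, Complex.norm_real, Real.norm_eq_abs, abs_of_pos (by linarith)]

private theorem u4_half {a t : ℂ} (hat : ‖t‖ ≤ ‖a‖) (hne : t - a ≠ 0) : (t / (t - a)).re ≤ 1 / 2 := by
  have h1 : ‖t‖ ^ 2 ≤ ‖a‖ ^ 2 := pow_le_pow_left₀ (norm_nonneg _) hat 2
  rw [← Complex.normSq_eq_norm_sq, ← Complex.normSq_eq_norm_sq, Complex.normSq_apply,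
    Complex.normSq_apply] at h1
  have h2 : 0 < Complex.normSq (t - a) := Complex.normSq_pos.2 hne
  rw [Complex.div_re, ← add_div, div_le_iff₀ h2, Complex.normSq_apply, Complex.sub_re, Complex.sub_im]
  nlinarith

private theorem u4_bl {r r₂ : ℝ} (h2 : 1 < r₂) (hr : r₂ < r) {a t : ℂ} (ha1 : 1 ≤ ‖a‖)
    (ha2 : ‖a‖ ≤ r₂) (ht : ‖t‖ < 1) : bl r a t ≠ 0 ∧ ∃ D : ℂ, HasDerivAt (bl r a) D t ∧
      (t * D / bl r a t).re ≤ 1 / 2 + r₂ / (r ^ 2 - r₂) := by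
  obtain ⟨d1, d2⟩ := u4_den h2 hr ha2 ht.le
  have hg := u4_gap h2 hr
  have hr0 : (r : ℂ) ≠ 0 := by
    rw [Complex.ofReal_ne_zero]
    linarith
  have hden : (r : ℂ) ^ 2 - (starRingEnd ℂ) a * t ≠ 0 := by
    rw [← norm_pos_iff]
    linarith
  have hat : a - t ≠ 0 := by
    intro h
    rw [sub_eq_zero] at h
    rw [h] at ha1
    linarith
  have hta : t - a ≠ 0 := by
    intro h
    exact hat (by linear_combination -h)
  have hbl : bl r a t ≠ 0 := by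
    unfold bl
    exact div_ne_zero (mul_ne_zero hr0 hat) hden
  refine ⟨hbl, bl r a t * (1 / (t - a) + (starRingEnd ℂ) a /
    ((r : ℂ) ^ 2 - (starRingEnd ℂ) a * t)), ?_, ?_⟩
  · have h3 : HasDerivAt (fun t : ℂ => (r : ℂ) * (a - t)) ((r : ℂ) * (-1)) t :=
      ((hasDerivAt_id t).const_sub a).const_mul _
    have h4 : HasDerivAt (fun t : ℂ => (r : ℂ) ^ 2 - (starRingEnd ℂ) a * t)
        (-((starRingEnd ℂ) a * 1)) t := ((hasDerivAt_id t).const_mul _).const_sub _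
    have h5 := h3.div h4 hden
    refine h5.congr_deriv ?_
    unfold bl
    field_simp
    ring
  · have h3 : t * (bl r a t * (1 / (t - a) + (starRingEnd ℂ) a /
        ((r : ℂ) ^ 2 - (starRingEnd ℂ) a * t))) / bl r a t =
        t / (t - a) + t * (starRingEnd ℂ) a / ((r : ℂ) ^ 2 - (starRingEnd ℂ) a * t) := by
      field_simp
    rw [h3, Complex.add_re]
    refine add_le_add (u4_half (by linarith) hta) ?_
    refine (Complex.re_le_norm _).trans ?_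
    rw [norm_div, norm_mul, RCLike.norm_conj]
    refine div_le_div₀ (by linarith) ?_ hg d1
    calc ‖t‖ * ‖a‖ ≤ 1 * r₂ := mul_le_mul ht.le ha2 (norm_nonneg _) zero_le_one
      _ = r₂ := one_mul _

private theorem u4_two {r r₂ : ℝ} (h2 : 1 < r₂) (hr : r₂ < r) {a t : ℂ} (ha1 : 1 ≤ ‖a‖)
    (ha2 : ‖a‖ ≤ r₂) (ht : ‖t‖ < 1) {ρ : ℝ} (h0 : 0 ≤ ρ) (h1 : ρ ≤ 1) :
    ‖bl r a t‖ ≤ 2 * (r ^ 2 + r₂) / (r ^ 2 - r₂) * ‖bl r a (ρ * t)‖ := by
  have hg := u4_gap h2 hr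
  have hρt : ‖(ρ : ℂ) * t‖ ≤ ‖t‖ := by
    rw [norm_mul, Complex.norm_real, Real.norm_eq_abs, abs_of_nonneg h0]
    exact mul_le_of_le_one_left (norm_nonneg _) h1
  obtain ⟨d1, d2⟩ := u4_den h2 hr ha2 ht.le
  obtain ⟨e1, e2⟩ := u4_den h2 hr (t := (ρ : ℂ) * t) ha2 (by linarith)
  rw [u4_norm h2 hr, u4_norm h2 hr]
  set p := ‖(r : ℂ) ^ 2 - (starRingEnd ℂ) a * t‖
  set q := ‖(r : ℂ) ^ 2 - (starRingEnd ℂ) a * ((ρ : ℂ) * t)‖
  have h3 : ‖a - t‖ ≤ 2 * ‖a - (ρ : ℂ) * t‖ := by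
    have h4 : ‖a - t‖ ≤ ‖a - (ρ : ℂ) * t‖ + (1 - ρ) * ‖t‖ := by
      calc ‖a - t‖ = ‖(a - (ρ : ℂ) * t) - ((1 - ρ : ℝ) : ℂ) * t‖ := by
            congr 1
            push_cast
            ring
        _ ≤ ‖a - (ρ : ℂ) * t‖ + ‖((1 - ρ : ℝ) : ℂ) * t‖ := norm_sub_le _ _
        _ = _ := by
            rw [norm_mul ((1 - ρ : ℝ) : ℂ), Complex.norm_real, Real.norm_eq_abs,
              abs_of_nonneg (by linarith)]
    have h5 := norm_sub_norm_le a ((ρ : ℂ) * t)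
    rw [norm_mul, Complex.norm_real, Real.norm_eq_abs, abs_of_nonneg h0] at h5
    have h6 : (1 - ρ) * ‖t‖ = ‖t‖ - ρ * ‖t‖ := by ring
    linarith
  have hr0 : 0 < r := by linarith
  have hq : 0 < q := by linarith
  have h7 : r * ‖a - t‖ / p ≤ r * (2 * ‖a - (ρ : ℂ) * t‖) / (r ^ 2 - r₂) :=
    div_le_div₀ (by positivity) (mul_le_mul_of_nonneg_left h3 hr0.le) hg d1
  refine h7.trans ?_
  have h8 : r * ‖a - (ρ : ℂ) * t‖ / (r ^ 2 + r₂) ≤ r * ‖a - (ρ : ℂ) * t‖ / q :=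
    div_le_div_of_nonneg_left (by positivity) hq e2
  calc r * (2 * ‖a - (ρ : ℂ) * t‖) / (r ^ 2 - r₂)
      = 2 * (r ^ 2 + r₂) / (r ^ 2 - r₂) * (r * ‖a - (ρ : ℂ) * t‖ / (r ^ 2 + r₂)) := by
        have : r ^ 2 + r₂ ≠ 0 := by positivity
        field_simp
    _ ≤ _ := mul_le_mul_of_nonneg_left h8 (by positivity)

private theorem u4_three {r r₂ : ℝ} (h2 : 1 < r₂) (hr : r₂ < r) {a t : ℂ} (ha1 : 1 ≤ ‖a‖)
    (ha2 : ‖a‖ ≤ r₂) (ht : ‖t‖ < 1) {ρ : ℝ} (h0 : 0 ≤ ρ) (h1 : ρ ≤ 1) :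
    r / (r ^ 2 + r₂) * (1 - ρ) ≤ ‖bl r a (ρ * t)‖ := by
  have hg := u4_gap h2 hr
  have hρt : ‖(ρ : ℂ) * t‖ ≤ ρ := by
    rw [norm_mul, Complex.norm_real, Real.norm_eq_abs, abs_of_nonneg h0]
    exact mul_le_of_le_one_right h0 ht.le
  obtain ⟨e1, e2⟩ := u4_den h2 hr (t := (ρ : ℂ) * t) ha2 (by linarith)
  rw [u4_norm h2 hr]
  have h5 := norm_sub_norm_le a ((ρ : ℂ) * t)
  have hr0 : 0 < r := by linarith
  rw [div_mul_eq_mul_div]
  exact div_le_div₀ (by positivity) (mul_le_mul_of_nonneg_left (by linarith) hr0.le) (by linarith) e2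

private theorem u4_ind {r r₂ : ℝ} (h2 : 1 < r₂) (hr : r₂ < r) (S : Multiset ℂ) :
    (∀ a ∈ S, 1 ≤ ‖a‖ ∧ ‖a‖ ≤ r₂) → ∀ t : ℂ, ‖t‖ < 1 →
      (∃ D : ℂ, HasDerivAt (fun t => (S.map fun a => bl r a t).prod) D t ∧
        (t * D / (S.map fun a => bl r a t).prod).re ≤
          Multiset.card S * (1 / 2 + r₂ / (r ^ 2 - r₂))) ∧
      (S.map fun a => bl r a t).prod ≠ 0 ∧
      (∀ ρ : ℝ, 0 ≤ ρ → ρ ≤ 1 → ‖(S.map fun a => bl r a t).prod‖ ≤
        (2 * (r ^ 2 + r₂) / (r ^ 2 - r₂)) ^ Multiset.card S *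
          ‖(S.map fun a => bl r a (ρ * t)).prod‖) ∧
      (∀ ρ : ℝ, 0 ≤ ρ → ρ ≤ 1 → (r / (r ^ 2 + r₂) * (1 - ρ)) ^ Multiset.card S ≤
        ‖(S.map fun a => bl r a (ρ * t)).prod‖) := by
  have hg := u4_gap h2 hr
  have hr0 : 0 < r := by linarith
  induction S using Multiset.induction_on with
  | empty =>
    intro _ t _
    refine ⟨⟨0, ?_, ?_⟩, ?_, ?_, ?_⟩
    · simpa using hasDerivAt_const t (1 : ℂ)
    · simp
    · simp
    · intro ρ _ _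
      simp
    · intro ρ _ _
      simp
  | cons a S ih =>
    intro hS t ht
    obtain ⟨⟨D, hD, hD2⟩, hne, hb, hc⟩ := ih (fun a' ha' => hS a' (Multiset.mem_cons_of_mem ha')) t ht
    obtain ⟨ha1, ha2⟩ := hS a (Multiset.mem_cons_self a S)
    obtain ⟨hne', D', hD', hD2'⟩ := u4_bl h2 hr ha1 ha2 ht
    simp only [Multiset.map_cons, Multiset.prod_cons, Multiset.card_cons]
    refine ⟨⟨_, hD'.mul hD, ?_⟩, mul_ne_zero hne' hne, ?_, ?_⟩
    · have h3 : t * (D' * (S.map fun a => bl r a t).prod + bl r a t * D) /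
          (bl r a t * (S.map fun a => bl r a t).prod) =
          t * D' / bl r a t + t * D / (S.map fun a => bl r a t).prod := by
        field_simp
      rw [h3, Complex.add_re]
      push_cast
      linarith
    · intro ρ hρ0 hρ1
      rw [norm_mul, norm_mul, pow_succ]
      have h3 := mul_le_mul (u4_two h2 hr ha1 ha2 ht hρ0 hρ1) (hb ρ hρ0 hρ1) (norm_nonneg _)
        (by positivity)
      refine h3.trans (le_of_eq ?_)
      ring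
    · intro ρ hρ0 hρ1
      rw [norm_mul, pow_succ, mul_comm]
      exact mul_le_mul (u4_three h2 hr ha1 ha2 ht hρ0 hρ1) (hc ρ hρ0 hρ1)
        (pow_nonneg (mul_nonneg (by positivity) (by linarith)) _) (norm_nonneg _)

theorem one_var (r : ℝ) (hr : 1 < r) (M : ℝ) (hM1 : 1 ≤ M) : ∃ (Λ C : ℝ) (k : ℕ), 1 ≤ Λ ∧ 1 ≤ C ∧
    ∀ G : ℂ → ℂ, AnalyticOnNhd ℂ G (Metric.closedBall 0 r) →
    (∀ t ∈ Metric.closedBall (0 : ℂ) r, ‖G t‖ ≤ M) → G 0 = 1 →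
    (∀ t ∈ Metric.ball (0 : ℂ) 1, G t ≠ 0) → ∀ t ∈ Metric.ball (0 : ℂ) 1,
      (t * deriv G t / G t).re ≤ Λ ∧
      (∀ ρ : ℝ, 0 ≤ ρ → ρ ≤ 1 → ‖G t‖ ≤ C * ‖G (ρ * t)‖) ∧
      (∀ s : ℝ, 0 ≤ s → s ≤ 1 → (1 - s) ^ k ≤ C * ‖G (s * t)‖) := by
  obtain ⟨r₂, hr₂⟩ : ∃ r₂ : ℝ, r₂ = (1 + r) / 2 := ⟨_, rfl⟩
  have h2 : 1 < r₂ := by rw [hr₂]; linarith
  have hrr : r₂ < r := by rw [hr₂]; linarith
  have hg := u4_gap h2 hrr
  have hr0 : 0 < r := by linarith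
  obtain ⟨k, hk⟩ : ∃ k : ℕ, M < (r / r₂) ^ k :=
    pow_unbounded_of_one_lt M ((one_lt_div (by linarith)).2 hrr)
  have hk1 : M < (r / r₂) ^ (k + 1) :=
    hk.trans_le (pow_le_pow_right₀ ((one_lt_div (by linarith)).2 hrr).le (Nat.le_succ k))
  obtain ⟨K, hK1, hK⟩ := zfree r₂ h2 M hM1
  set Λ₀ : ℝ := 1 / 2 + r₂ / (r ^ 2 - r₂) with hΛ₀
  set b : ℝ := 2 * (r ^ 2 + r₂) / (r ^ 2 - r₂) with hb
  set c : ℝ := r / (r ^ 2 + r₂) with hc
  have hΛ₀p : 0 < Λ₀ := by positivity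
  have hb1 : 1 ≤ b := by
    rw [hb, le_div_iff₀ hg]
    nlinarith
  have hcp : 0 < c := by positivity
  have hc1 : c ≤ 1 := by
    rw [hc, div_le_one (by positivity)]
    nlinarith
  refine ⟨max 1 (k * Λ₀ + K), max 1 (max (b ^ k * (M * K)) (K * (c ^ k)⁻¹)), k, le_max_left _ _,
    le_max_left _ _, ?_⟩
  intro G hG hGM hG0 hGz t ht
  rw [Metric.mem_ball, dist_zero_right] at ht
  obtain ⟨S, H, hcard, hS, hH, hHM, hHz, hGH, hfac⟩ := factor r r₂ h2 hrr M k G hG hGM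
    (by rw [hG0]; simp) (by rw [hG0]; simpa using hk1)
  rw [hG0, norm_one] at hGH
  have hcb : Metric.closedBall (0 : ℂ) r₂ ⊆ Metric.closedBall 0 r :=
    Metric.closedBall_subset_closedBall hrr.le
  have hHK := hK H (hH.mono hcb) (fun t ht => hHM t (hcb ht)) hHz hGH
  have hS' : ∀ a ∈ S, 1 ≤ ‖a‖ ∧ ‖a‖ ≤ r₂ := by
    intro a ha
    refine ⟨?_, (hS a ha).1⟩
    by_contra hcon
    push Not at hcon
    exact hGz a (by rwa [Metric.mem_ball, dist_zero_right]) (hS a ha).2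
  obtain ⟨⟨D, hD, hD2⟩, hne, hbb, hcc⟩ := u4_ind h2 hrr S hS' t ht
  have hmemr : ∀ z : ℂ, ‖z‖ ≤ 1 → z ∈ Metric.closedBall (0 : ℂ) r := by
    intro z hz
    rw [Metric.mem_closedBall, dist_zero_right]
    linarith
  have hmem1 : ∀ z : ℂ, ‖z‖ ≤ 1 → z ∈ Metric.closedBall (0 : ℂ) 1 := by
    intro z hz
    rwa [Metric.mem_closedBall, dist_zero_right]
  have hcardr : (Multiset.card S : ℝ) ≤ k := by exact_mod_cast hcard
  refine ⟨?_, ?_, ?_⟩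
  · refine le_trans ?_ (le_max_right _ _)
    have h3 : HasDerivAt H (deriv H t) t := (hH t (hmemr t ht.le)).differentiableAt.hasDerivAt
    have h4 : G =ᶠ[𝓝 t] fun t => (S.map fun a => bl r a t).prod * H t := by
      have h5 : Metric.ball (0 : ℂ) 1 ∈ 𝓝 t :=
        Metric.isOpen_ball.mem_nhds (by rwa [Metric.mem_ball, dist_zero_right])
      filter_upwards [h5] with z hz
      rw [Metric.mem_ball, dist_zero_right] at hz
      exact hfac z (hmemr z hz.le)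
    have h6 : HasDerivAt G (D * H t + (S.map fun a => bl r a t).prod * deriv H t) t :=
      (hD.mul h3).congr_of_eventuallyEq h4
    have hHt : H t ≠ 0 := hHz t (by
      rw [Metric.mem_closedBall, dist_zero_right]
      linarith)
    rw [h6.deriv, h4.eq_of_nhds]
    have h7 : t * (D * H t + (S.map fun a => bl r a t).prod * deriv H t) /
        ((S.map fun a => bl r a t).prod * H t) =
        t * D / (S.map fun a => bl r a t).prod + t * deriv H t / H t := by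
      field_simp
    rw [h7, Complex.add_re]
    refine add_le_add (hD2.trans (mul_le_mul_of_nonneg_right hcardr hΛ₀p.le)) ?_
    refine (Complex.re_le_norm _).trans ?_
    have hHn : 0 < ‖H t‖ := norm_pos_iff.2 hHt
    rw [norm_div, norm_mul, div_le_iff₀ hHn]
    calc ‖t‖ * ‖deriv H t‖ ≤ 1 * (K * ‖H t‖) :=
          mul_le_mul ht.le (hHK t (hmem1 t ht.le)).1 (norm_nonneg _) zero_le_one
      _ = K * ‖H t‖ := one_mul _
  · intro ρ hρ0 hρ1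
    have hρt : ‖(ρ : ℂ) * t‖ ≤ 1 := by
      rw [norm_mul, Complex.norm_real, Real.norm_eq_abs, abs_of_nonneg hρ0]
      exact mul_le_one₀ hρ1 (norm_nonneg _) ht.le
    rw [hfac t (hmemr t ht.le), hfac _ (hmemr _ hρt), norm_mul, norm_mul]
    have h3 := hbb ρ hρ0 hρ1
    have h4 : ‖H t‖ ≤ M * K * ‖H (ρ * t)‖ := by
      have h5 := (hHK _ (hmem1 _ hρt)).2
      calc ‖H t‖ ≤ M * 1 := by rw [mul_one]; exact hHM t (hmemr t ht.le)
        _ ≤ M * (K * ‖H (ρ * t)‖) := mul_le_mul_of_nonneg_left h5 (by linarith)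
        _ = _ := by ring
    have h6 : b ^ Multiset.card S ≤ b ^ k := pow_le_pow_right₀ hb1 hcard
    calc ‖(S.map fun a => bl r a t).prod‖ * ‖H t‖
        ≤ (b ^ Multiset.card S * ‖(S.map fun a => bl r a (ρ * t)).prod‖) *
            (M * K * ‖H (ρ * t)‖) := mul_le_mul h3 h4 (norm_nonneg _) (by positivity)
      _ ≤ (b ^ k * ‖(S.map fun a => bl r a (ρ * t)).prod‖) * (M * K * ‖H (ρ * t)‖) := by
          refine mul_le_mul_of_nonneg_right ?_ (by positivity)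
          exact mul_le_mul_of_nonneg_right h6 (norm_nonneg _)
      _ = (b ^ k * (M * K)) * (‖(S.map fun a => bl r a (ρ * t)).prod‖ * ‖H (ρ * t)‖) := by ring
      _ ≤ _ := mul_le_mul_of_nonneg_right ((le_max_left _ _).trans (le_max_right _ _))
          (by positivity)
  · intro ρ hρ0 hρ1
    have hρt : ‖(ρ : ℂ) * t‖ ≤ 1 := by
      rw [norm_mul, Complex.norm_real, Real.norm_eq_abs, abs_of_nonneg hρ0]
      exact mul_le_one₀ hρ1 (norm_nonneg _) ht.le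
    rw [hfac _ (hmemr _ hρt), norm_mul]
    have h3 := hcc ρ hρ0 hρ1
    have h4 := (hHK _ (hmem1 _ hρt)).2
    have h5 : 0 ≤ c * (1 - ρ) := mul_nonneg hcp.le (by linarith)
    have h6 : c * (1 - ρ) ≤ 1 := mul_le_one₀ hc1 (by linarith) (by linarith)
    have h7 : (c * (1 - ρ)) ^ k ≤ (c * (1 - ρ)) ^ Multiset.card S :=
      pow_le_pow_of_le_one h5 h6 hcard
    have h8 : (c * (1 - ρ)) ^ k * 1 ≤ ‖(S.map fun a => bl r a (ρ * t)).prod‖ *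
        (K * ‖H (ρ * t)‖) :=
      mul_le_mul (h7.trans h3) h4 zero_le_one (norm_nonneg _)
    have hck : 0 < c ^ k := by positivity
    calc (1 - ρ) ^ k = (c ^ k)⁻¹ * ((c * (1 - ρ)) ^ k * 1) := by
          rw [mul_pow, mul_one, ← mul_assoc, inv_mul_cancel₀ hck.ne', one_mul]
      _ ≤ (c ^ k)⁻¹ * (‖(S.map fun a => bl r a (ρ * t)).prod‖ * (K * ‖H (ρ * t)‖)) :=
          mul_le_mul_of_nonneg_left h8 (by positivity)
      _ = (K * (c ^ k)⁻¹) * (‖(S.map fun a => bl r a (ρ * t)).prod‖ * ‖H (ρ * t)‖) := by ring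
      _ ≤ _ := mul_le_mul_of_nonneg_right ((le_max_right _ _).trans (le_max_right _ _))
          (by positivity)

end PCY
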