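import Pool.Agent.PCY.H1
import Pool.Agent.PCX.X12

/-!
# [PCY-W1] divisibility of derivatives

Induction on `k`: `R^0` : `Z = 1`.  Step: `R^(k+1)(u^N v^n) = R (R^k (u^N v^n)) = R (u^(N-k) v^(n-k) Z)` (`R_pow_succ_apply`,
`PCM/P3`).  By `R_mul` and `R (u^(j+1)) = (j+1) u^j R u` (induction with `R_mul`; `R (u^0) = 0`, `R_one`), each of the three
terms is `u^(N-(k+1)) v^(n-(k+1))` times a product of `u`, `v`, `R u`, `R v`, `Z`, `R Z` and constants (truncated subtraction:
if `N - k = 0` the term with `R (u^(N-k))` vanishes and `N - (k+1) = 0`; else `N - k = (N-(k+1)) + 1`).  All factors are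
`Hol` (`hol_mul`, `hol_add`, `hol_smul`, `hol_R`, `hol_pow`, `hol_one`).
It is convenient to work with the predicate `∃ W, Hol Z W` (closed under `+`, `*`, `•`, `R`).
-/

open MeasureTheory Set Filter Topology

namespace PCY

open PCM

variable {d : ℕ}

theorem w1_pow (u : A d) (N : ℕ) : R d (u ^ N) = (N : ℂ) • (u ^ (N - 1) * R d u) := by
  induction N with
  | zero => rw [pow_zero, R_one, Nat.cast_zero, zero_smul]
  | succ N ih =>
    rw [pow_succ, R_mul, ih, Nat.add_sub_cancel, Nat.cast_succ, add_smul, one_smul, smul_mul_assoc]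
    congr 1
    rcases Nat.eq_zero_or_pos N with h | h
    · subst h
      rw [Nat.cast_zero, zero_smul, zero_smul]
    · have e1 : u ^ N = u ^ (N - 1) * u := by
        rw [← pow_succ]
        congr 1
        omega
      congr 1
      conv_rhs => rw [e1]
      ring

theorem dvd_R {u v : A d} {U V : (Fin d → ℂ) → ℂ} (hu : Hol u U) (hv : Hol v V) (N n k : ℕ) :
    ∃ (Z : A d) (W : (Fin d → ℂ) → ℂ), Hol Z W ∧
      (R d ^ k) (u ^ N * v ^ n) = u ^ (N - k) * v ^ (n - k) * Z := by
  induction k with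
  | zero =>
    refine ⟨1, _, hol_one, ?_⟩
    rw [pow_zero, Module.End.one_apply, Nat.sub_zero, Nat.sub_zero, mul_one]
  | succ k ih =>
    obtain ⟨Z, W, hZ, h⟩ := ih
    obtain ⟨e, he⟩ : ∃ e, N - k = N - (k + 1) + e := ⟨N - k - (N - (k + 1)), by omega⟩
    obtain ⟨e', he'⟩ : ∃ e', n - k = n - (k + 1) + e' := ⟨n - k - (n - (k + 1)), by omega⟩
    have e1 : N - k - 1 = N - (k + 1) := by omega
    have e2 : n - k - 1 = n - (k + 1) := by omega
    refine ⟨((N - k : ℕ) : ℂ) • (R d u * v ^ e' * Z) + ((n - k : ℕ) : ℂ) • (u ^ e * R d v * Z) +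
      u ^ e * v ^ e' * R d Z, _,
      hol_add (hol_add (hol_smul _ (hol_mul (hol_mul (hol_R hu) (hol_pow e' hv)) hZ))
        (hol_smul _ (hol_mul (hol_mul (hol_pow e hu) (hol_R hv)) hZ)))
        (hol_mul (hol_mul (hol_pow e hu) (hol_pow e' hv)) (hol_R hZ)), ?_⟩
    rw [R_pow_succ_apply, h, R_mul, R_mul, w1_pow, w1_pow, e1, e2]
    have h1 : u ^ (N - k) = u ^ (N - (k + 1)) * u ^ e := by rw [← pow_add, ← he]
    have h2 : v ^ (n - k) = v ^ (n - (k + 1)) * v ^ e' := by rw [← pow_add, ← he']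
    rw [h1, h2]
    simp only [mul_add, add_mul, smul_mul_assoc, mul_smul_comm]
    congr 1
    · congr 1
      · congr 1
        ring
      · congr 1
        ring
    · ring

end PCY
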