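import Pool.Agent.PCY.W1
import Pool.Agent.PCY.W2

/-!
# [PCY-W3] the pointwise bound

Copy of `PCX/X14` (`pointwise`).  Notation: `q = (R g)^N * f^n`, `g_ρ = dl ρ g`, `x = ‖Fg (ρ z)‖`.
`q * g * G = q + q * (g - g_ρ) * G` because `g_ρ * G = 1`.
* `R^K q` is `Hol`, bounded on the ball.
* By `PCX.R_pow_mul` twice, `R^K (q (g - g_ρ) G)` is a finite sum over `a + b + c = K` of constants times
  `R^a q * R^b (g - g_ρ) * R^c G`.  `R^a q = (R g)^(N-a) f^(n-a) Z_a` (`dvd_R`), so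
  `‖R^a q (z)‖ ≤ C ‖RF Fg z‖^(N-a) ‖Ff z‖^(n-a) ≤ C ‖RF Fg z‖^(N-K) ‖Ff z‖^(n-a)` (bounded, `N - a ≥ N - K`).
  `‖R^b (g - g_ρ)(z)‖ = ‖(RF^[b] Fg) z - (RF^[b] Fg) (ρ z)‖ ≤ C (1-ρ)` (`dl_R_pow`, `hol_lip` with `r = 1`, `s = ρ`).
  `‖R^c G (z)‖ ≤ C x^(-(c+1))` (`inv_bound`), `c ≤ K - a`.
  `‖Ff z‖ ≤ C₀ ‖Fg z‖ ≤ C₀² x`, `x ≤ C`.  So `‖Ff z‖^(n-a) x^(-(c+1)) ≤ C x^(n-a) x^(-(K-a+1))` and this is
  `≤ C x^(-(K+1-n))`: if `a ≤ n` the exponent is exactly `n - K - 1`; if `a > n` then `n - a = 0` and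
  `K - a + 1 ≤ K + 1 - n` (use `x ≤ C`, raising the exponent of `x⁻¹`).
-/

open MeasureTheory Set Filter Topology

namespace PCY

open PCM

variable {d : ℕ}

theorem w3_pow (x X : ℝ) (hx : 0 < x) (hxX : x ≤ X) (i k m : ℕ) (h : k ≤ m + i) :
    x ^ i * (x ^ k)⁻¹ ≤ X ^ (i + m - k) * (x ^ m)⁻¹ := by
  have e1 : x ^ i * (x ^ k)⁻¹ = x ^ (i + m - k) * (x ^ m)⁻¹ := by
    have e2 : x ^ i * x ^ m = x ^ (i + m - k) * x ^ k := by
      rw [← pow_add, ← pow_add]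
      congr 1
      omega
    field_simp
    linarith
  rw [e1]
  have : x ^ (i + m - k) ≤ X ^ (i + m - k) := pow_le_pow_left₀ hx.le hxX _
  gcongr

theorem w3_real (K N n a b : ℕ) (hnK : n ≤ K) (hKN : K ≤ N) (ha : a ≤ K) (hb : b ≤ K - a)
    (Z E W X L I u v x q l G δ : ℝ) (hZ : 0 ≤ Z) (hE : 1 ≤ E) (hW : 0 ≤ W) (hX : 0 ≤ X)
    (hL : 0 ≤ L) (hI : 0 ≤ I) (hu : 0 ≤ u) (hv : 0 ≤ v) (hx : 0 < x) (hl : 0 ≤ l)
    (hG : 0 ≤ G) (hδ : 0 ≤ δ)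
    (huE : u ≤ E) (hvx : v ≤ W * x) (hxX : x ≤ X) (hq : q ≤ Z * (u ^ (N - a) * v ^ (n - a)))
    (hq0 : 0 ≤ q) (hlL : l ≤ L * δ) (hGI : G ≤ I * (x ^ (K - a - b + 1))⁻¹) :
    q * (l * G) ≤ (Z * E ^ (K - a) * W ^ (n - a) * L * I *
      X ^ ((n - a) + (K + 1 - n) - (K - a - b + 1))) * (δ * (u ^ (N - K) * (x ^ (K + 1 - n))⁻¹)) := by
  have h1 : u ^ (N - a) ≤ E ^ (K - a) * u ^ (N - K) := by
    have e1 : N - a = (K - a) + (N - K) := by omega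
    rw [e1, pow_add]
    have : u ^ (K - a) ≤ E ^ (K - a) := pow_le_pow_left₀ hu huE _
    gcongr
  have h2 : v ^ (n - a) ≤ W ^ (n - a) * x ^ (n - a) := by
    rw [← mul_pow]
    exact pow_le_pow_left₀ hv hvx _
  have h3 := w3_pow x X hx hxX (n - a) (K - a - b + 1) (K + 1 - n) (by omega)
  have hq1 : q ≤ Z * ((E ^ (K - a) * u ^ (N - K)) * (W ^ (n - a) * x ^ (n - a))) :=
    hq.trans (by gcongr)
  calc q * (l * G) ≤ (Z * ((E ^ (K - a) * u ^ (N - K)) * (W ^ (n - a) * x ^ (n - a)))) *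
        ((L * δ) * (I * (x ^ (K - a - b + 1))⁻¹)) := by gcongr
    _ = (Z * E ^ (K - a) * W ^ (n - a) * L * I) * (δ * u ^ (N - K)) *
        (x ^ (n - a) * (x ^ (K - a - b + 1))⁻¹) := by ring
    _ ≤ (Z * E ^ (K - a) * W ^ (n - a) * L * I) * (δ * u ^ (N - K)) *
        (X ^ ((n - a) + (K + 1 - n) - (K - a - b + 1)) * (x ^ (K + 1 - n))⁻¹) := by gcongr
    _ = _ := by ring

theorem w3_q {u v : A d} {U V : (Fin d → ℂ) → ℂ} (hu : Hol u U) (hv : Hol v V) (a N n : ℕ) :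
    ∃ Z : ℝ, 0 ≤ Z ∧ ∀ z ∈ Ball d, ‖ev ((R d ^ a) (u ^ N * v ^ n)) z‖ ≤
      Z * (‖U z‖ ^ (N - a) * ‖V z‖ ^ (n - a)) := by
  obtain ⟨Z, W, hZW, he⟩ := dvd_R hu hv N n a
  obtain ⟨C, hC0, hC⟩ := hol_bdd hZW
  refine ⟨C, hC0, fun z hz => ?_⟩
  have h1 : Hol (u ^ (N - a) * v ^ (n - a)) (fun z => U z ^ (N - a) * V z ^ (n - a)) :=
    hol_mul (hol_pow _ hu) (hol_pow _ hv)
  rw [he, ev_mul h1.conv hZW.conv hz, h1.ev_eq z hz, hZW.ev_eq z hz, norm_mul, norm_mul,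
    norm_pow, norm_pow, mul_comm]
  have := hC z (ball_sub d hz)
  gcongr

theorem pointwise {f g : A d} {Ff Fg : (Fin d → ℂ) → ℂ} (hf : Hol f Ff) (hg : Hol g Fg) (C₀ : ℝ)
    (hfg : ∀ z ∈ Ball d, ‖Ff z‖ ≤ C₀ * ‖Fg z‖)
    (hdil : ∀ ρ : ℝ, 0 ≤ ρ → ρ ≤ 1 → ∀ z ∈ Ball d, ‖Fg z‖ ≤ C₀ * ‖Fg (fun i => (ρ : ℂ) * z i)‖)
    (K N n : ℕ) (hnK : n ≤ K) (hKN : K ≤ N) : ∃ C : ℝ, 0 ≤ C ∧
    ∀ (ρ : ℝ) (G : A d), 0 ≤ ρ → ρ ≤ 1 → Conv G → dl ρ g * G = 1 → ∀ z ∈ Ball d,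
      ‖ev ((R d ^ K) ((R d g) ^ N * f ^ n * g * G)) z‖ ≤
        C * (1 + (1 - ρ) * (‖RF Fg z‖ ^ (N - K) *
          (‖Fg (fun i => (ρ : ℂ) * z i)‖ ^ (K + 1 - n))⁻¹)) := by
  have hq0 : Hol ((R d g) ^ N * f ^ n) (fun z => RF Fg z ^ N * Ff z ^ n) :=
    hol_mul (hol_pow N (hol_R hg)) (hol_pow n hf)
  obtain ⟨CK, hCK0, hCK⟩ := hol_bdd (hol_R_pow K hq0)
  obtain ⟨E', hE'0, hE'⟩ := hol_bdd (hol_R hg)
  obtain ⟨X, hX0, hX⟩ := hol_bdd hg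
  have hZ := fun a => w3_q (hol_R hg) hf a N n
  choose Z hZ0 hZ using hZ
  have hL := fun b => hol_lip (hol_R_pow b hg)
  choose L hL0 hL using hL
  have hI := fun c => inv_bound hg c
  choose I hI0 hI using hI
  obtain ⟨T, hT⟩ : ∃ T : ℕ → ℕ → ℝ, T = fun a b => (K.choose a : ℝ) * ((K - a).choose b *
    (Z a * (1 + E') ^ (K - a) * (|C₀| * |C₀|) ^ (n - a) * L b * I (K - a - b) *
      X ^ ((n - a) + (K + 1 - n) - (K - a - b + 1)))) := ⟨_, rfl⟩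
  have hT0 : ∀ a b, 0 ≤ T a b := by
    intro a b
    have h1 := hZ0 a
    have h2 := hL0 b
    have h3 := hI0 (K - a - b)
    rw [hT]
    positivity
  refine ⟨CK + ∑ a ∈ Finset.range (K + 1), ∑ b ∈ Finset.range (K - a + 1), T a b,
    add_nonneg hCK0 (Finset.sum_nonneg (fun a _ => Finset.sum_nonneg (fun b _ => hT0 a b))), ?_⟩
  intro ρ G hρ0 hρ1 hG hgG z hz
  have hzC : z ∈ CB d := ball_sub d hz
  have hρz : (fun i => (ρ : ℂ) * z i) ∈ Ball d := smul_mem_ball' hz hρ0 hρ1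
  have hz1 : (fun i => ((1 : ℝ) : ℂ) * z i) = z := by
    funext i
    rw [Complex.ofReal_one, one_mul]
  obtain ⟨x, hx⟩ : ∃ x : ℝ, x = ‖Fg (fun i => (ρ : ℂ) * z i)‖ := ⟨_, rfl⟩
  obtain ⟨u, hu⟩ : ∃ u : ℝ, u = ‖RF Fg z‖ := ⟨_, rfl⟩
  have hcdl : Conv (dl ρ g) := conv_dl hg.conv hρ0 hρ1
  have hxpos : 0 < x := by
    have h1 := ev_mul hcdl hG hz
    rw [hgG, ev_one, ev_dl, hg.ev_eq _ hρz] at h1
    rw [hx]
    exact norm_pos_iff.2 (left_ne_zero_of_mul_eq_one h1.symm)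
  have hu0 : 0 ≤ u := by rw [hu]; exact norm_nonneg _
  have hv : ‖Ff z‖ ≤ |C₀| * |C₀| * x := by
    have h1 := hfg z hz
    have h2 := hdil ρ hρ0 hρ1 z hz
    rw [← hx] at h2
    have h3 : ‖Fg z‖ ≤ |C₀| * x :=
      h2.trans (by gcongr; exact le_abs_self _)
    calc ‖Ff z‖ ≤ C₀ * ‖Fg z‖ := h1
      _ ≤ |C₀| * ‖Fg z‖ := by gcongr; exact le_abs_self _
      _ ≤ |C₀| * (|C₀| * x) := by gcongr
      _ = _ := by ring
  have hδ : 0 ≤ 1 - ρ := by linarith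
  -- decomposition
  obtain ⟨q, hq⟩ : ∃ q : A d, q = (R d g) ^ N * f ^ n := ⟨_, rfl⟩
  have hqc : Conv q := by rw [hq]; exact hq0.conv
  have hdec : (R d g) ^ N * f ^ n * g * G = q + q * ((g - dl ρ g) * G) := by
    rw [← hq, sub_mul, hgG]
    ring
  have hcd : Conv (g - dl ρ g) := conv_sub hg.conv hcdl
  have hc2 : ∀ k, Conv ((R d ^ k) ((g - dl ρ g) * G)) := fun k =>
    conv_R_pow (conv_mul hcd hG) k
  have hev : ev ((R d ^ K) ((R d g) ^ N * f ^ n * g * G)) z = ev ((R d ^ K) q) z +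
      ∑ a ∈ Finset.range (K + 1), (K.choose a : ℂ) *
        (ev ((R d ^ a) q) z * ∑ b ∈ Finset.range (K - a + 1), ((K - a).choose b : ℂ) *
          (((RF^[b] Fg) z - (RF^[b] Fg) (fun i => (ρ : ℂ) * z i)) *
            ev ((R d ^ (K - a - b)) G) z)) := by
    have hcq : ∀ a, Conv ((R d ^ a) q) := fun a => conv_R_pow hqc a
    have hterm : ∀ a b, Conv ((R d ^ b) (g - dl ρ g) * (R d ^ (a - b)) G) := fun a b =>
      conv_mul (conv_R_pow hcd b) (conv_R_pow hG _)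
    rw [hdec, map_add, ev_add (hcq K) (conv_R_pow (conv_mul hqc (conv_mul hcd hG)) K) hz,
      PCX.R_pow_mul]
    rw [ev_sum _ _ (fun a _ => conv_smul _ (conv_mul (hcq a) (hc2 _))) hz]
    congr 1
    refine Finset.sum_congr rfl (fun a _ => ?_)
    rw [ev_smul, ev_mul (hcq a) (hc2 _) hz, PCX.R_pow_mul,
      ev_sum _ _ (fun b _ => conv_smul _ (hterm _ b)) hz]
    congr 2
    refine Finset.sum_congr rfl (fun b _ => ?_)
    rw [ev_smul, ev_mul (conv_R_pow hcd b) (conv_R_pow hG _) hz, map_sub,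
      ev_sub (conv_R_pow hg.conv b) (conv_R_pow hcdl b) hz, dl_R_pow, ev_dl,
      (hol_R_pow b hg).ev_eq z hz, (hol_R_pow b hg).ev_eq _ hρz]
  rw [hev, ← hx, ← hu]
  obtain ⟨Y, hY⟩ : ∃ Y : ℝ, Y = (1 - ρ) * (u ^ (N - K) * (x ^ (K + 1 - n))⁻¹) := ⟨_, rfl⟩
  have hY0 : 0 ≤ Y := by rw [hY]; positivity
  have hsum : ‖∑ a ∈ Finset.range (K + 1), (K.choose a : ℂ) *
        (ev ((R d ^ a) q) z * ∑ b ∈ Finset.range (K - a + 1), ((K - a).choose b : ℂ) *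
          (((RF^[b] Fg) z - (RF^[b] Fg) (fun i => (ρ : ℂ) * z i)) *
            ev ((R d ^ (K - a - b)) G) z))‖ ≤
      (∑ a ∈ Finset.range (K + 1), ∑ b ∈ Finset.range (K - a + 1), T a b) * Y := by
    rw [Finset.sum_mul]
    refine (norm_sum_le _ _).trans (Finset.sum_le_sum (fun a ha => ?_))
    have haK : a ≤ K := Nat.lt_succ_iff.1 (Finset.mem_range.1 ha)
    rw [Finset.mul_sum, Finset.mul_sum, Finset.sum_mul]
    refine (norm_sum_le _ _).trans (Finset.sum_le_sum (fun b hb => ?_))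
    have hbK : b ≤ K - a := Nat.lt_succ_iff.1 (Finset.mem_range.1 hb)
    have hq1 := hZ a z hz
    rw [← hu, ← hq] at hq1
    have hl1 := hL b 1 ρ zero_le_one le_rfl hρ0 hρ1 z hzC
    rw [hz1, abs_of_nonneg hδ] at hl1
    have hG1 := hI (K - a - b) ρ G hρ0 hρ1 hG hgG z hz
    rw [← hx] at hG1
    have key := w3_real K N n a b hnK hKN haK hbK (Z a) (1 + E') (|C₀| * |C₀|) X (L b)
      (I (K - a - b)) u ‖Ff z‖ x ‖ev ((R d ^ a) q) z‖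
      ‖(RF^[b] Fg) z - (RF^[b] Fg) (fun i => (ρ : ℂ) * z i)‖
      ‖ev ((R d ^ (K - a - b)) G) z‖ (1 - ρ) (hZ0 a) (by linarith) (by positivity) hX0
      (hL0 b) (hI0 _) hu0 (norm_nonneg _) hxpos (norm_nonneg _) (norm_nonneg _) hδ
      (by
        have := hE' z hzC
        rw [← hu] at this
        linarith) hv (by rw [hx]; exact hX _ (ball_sub d hρz)) hq1 (norm_nonneg _) hl1 hG1
    rw [← hY] at key
    rw [norm_mul, norm_mul, norm_mul, norm_mul, Complex.norm_natCast, Complex.norm_natCast]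
    rw [hT]
    calc (K.choose a : ℝ) * (‖ev ((R d ^ a) q) z‖ * (((K - a).choose b : ℝ) *
          (‖(RF^[b] Fg) z - (RF^[b] Fg) (fun i => (ρ : ℂ) * z i)‖ *
            ‖ev ((R d ^ (K - a - b)) G) z‖)))
        = (K.choose a : ℝ) * (((K - a).choose b : ℝ) * (‖ev ((R d ^ a) q) z‖ *
          (‖(RF^[b] Fg) z - (RF^[b] Fg) (fun i => (ρ : ℂ) * z i)‖ *
            ‖ev ((R d ^ (K - a - b)) G) z‖))) := by ring
      _ ≤ (K.choose a : ℝ) * (((K - a).choose b : ℝ) * (_ * Y)) := by gcongr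
      _ = _ := by ring
  have h1 : ‖ev ((R d ^ K) q) z‖ ≤ CK := by
    rw [hq, (hol_R_pow K hq0).ev_eq z hz]
    exact hCK z hzC
  have hS0 : 0 ≤ ∑ a ∈ Finset.range (K + 1), ∑ b ∈ Finset.range (K - a + 1), T a b :=
    Finset.sum_nonneg (fun a _ => Finset.sum_nonneg (fun b _ => hT0 a b))
  rw [← hY]
  refine (norm_add_le _ _).trans ((add_le_add h1 hsum).trans ?_)
  nlinarith [mul_nonneg hCK0 hY0]

end PCY
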