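import Pool.Agent.PCY.U4
import Pool.Agent.PCY.H2

/-!
# [PCY-Z1] functions without zeros in the ball

`exists_ext`: `r > 1`, `M ≥ 1`, `F` analytic and `‖F‖ ≤ M` on `KB d r`.  `Λ, C, k` from `one_var r M`.
For a unit vector `e` (`∑ ‖e i‖² = 1`) put `G t = F (t e)`: analytic on `closedBall 0 r` (`t e ∈ KB d r`), bounded by `M`, `G 0 = 1`,
without zeros in `ball 0 1` (`t e ∈ Ball d`).  `t * deriv G t = RF F (t e)` (chain rule; `fderiv` is linear).
Every `z ∈ Ball d`, `z ≠ 0`, is `t e` with `t = √(∑ ‖z i‖²) ∈ (0,1)`, `e = z/t`; `ρ z = (ρ t) e`.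
For `z = 0`: `RF F 0 = 0`, `F 0 = 1` and everything is clear (`Λ, C ≥ 1`, `(1-s)^k ≤ 1`).
(`d = 0`: `z = 0` is the only point.)
-/

open MeasureTheory Set Filter Topology

namespace PCY

open PCM

variable {d : ℕ} {F : (Fin d → ℂ) → ℂ}

theorem radial (hF : AnalyticOnNhd ℂ F (CB d)) (h0 : F (fun _ => 0) = 1)
    (hF0 : ∀ z ∈ Ball d, F z ≠ 0) : ∃ (Λ C : ℝ) (k : ℕ), 1 ≤ Λ ∧ 1 ≤ C ∧ ∀ z ∈ Ball d,
      (RF F z / F z).re ≤ Λ ∧
      (∀ ρ : ℝ, 0 ≤ ρ → ρ ≤ 1 → ‖F z‖ ≤ C * ‖F (fun i => (ρ : ℂ) * z i)‖) ∧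
      (∀ s : ℝ, 0 ≤ s → s ≤ 1 → (1 - s) ^ k ≤ C * ‖F (fun i => (s : ℂ) * z i)‖) := by
  obtain ⟨r, M, hr, hM, hFr, hFM⟩ := exists_ext hF
  obtain ⟨Λ, C, k, hΛ, hC, h1⟩ := one_var r hr M hM
  refine ⟨Λ, C, k, hΛ, hC, fun z hz => ?_⟩
  have hz' : ∑ i, ‖z i‖ ^ 2 < 1 := hz
  have hV0 : 0 ≤ ∑ i, ‖z i‖ ^ 2 := Finset.sum_nonneg fun i _ => by positivity
  rcases hV0.eq_or_lt with hV | hV
  · have hz0 : z = fun _ => 0 := by
      funext i
      have h2 := (Finset.sum_eq_zero_iff_of_nonneg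
        (f := fun i => ‖z i‖ ^ 2) (fun i _ => by positivity)).1 hV.symm i (Finset.mem_univ i)
      simpa using h2
    have e1 : F z = 1 := by
      rw [hz0]
      exact h0
    have e2 : RF F z = 0 := by
      unfold RF
      have h3 : z = 0 := hz0
      rw [h3]
      exact map_zero _
    have e3 : ∀ c : ℂ, F (fun i => c * z i) = 1 := by
      intro c
      have h3 : (fun i => c * z i) = fun _ => 0 := by
        rw [hz0]
        funext i
        exact mul_zero c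
      rw [h3, h0]
    refine ⟨?_, ?_, ?_⟩
    · rw [e2, zero_div, Complex.zero_re]
      linarith
    · intro ρ _ _
      rw [e1, e3, norm_one]
      linarith
    · intro s hs0 hs1
      rw [e3, norm_one, mul_one]
      exact (pow_le_one₀ (by linarith) (by linarith)).trans hC
  · obtain ⟨t, ht0, htV⟩ : ∃ t : ℝ, 0 < t ∧ t ^ 2 = ∑ i, ‖z i‖ ^ 2 :=
      ⟨Real.sqrt (∑ i, ‖z i‖ ^ 2), Real.sqrt_pos.2 hV, Real.sq_sqrt hV.le⟩
    have ht1 : t < 1 := by nlinarith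
    have htc : (t : ℂ) ≠ 0 := by exact_mod_cast ht0.ne'
    obtain ⟨e, he⟩ : ∃ e : Fin d → ℂ, ∀ i, e i = z i / (t : ℂ) := ⟨fun i => z i / (t : ℂ), fun _ => rfl⟩
    have hez : ∀ c : ℂ, (fun i => (c * (t : ℂ)) * e i) = fun i => c * z i := by
      intro c
      funext i
      rw [he, mul_assoc, mul_div_cancel₀ _ htc]
    have hez1 : (fun i => (t : ℂ) * e i) = z := by
      have := hez 1
      simpa using this
    have hsum : ∑ i, ‖e i‖ ^ 2 = 1 := by
      have h2 : ∀ i, ‖e i‖ ^ 2 = ‖z i‖ ^ 2 / t ^ 2 := by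
        intro i
        rw [he, norm_div, div_pow, Complex.norm_real, Real.norm_of_nonneg ht0.le]
      rw [Finset.sum_congr rfl fun i _ => h2 i, ← Finset.sum_div, ← htV]
      exact div_self (by positivity)
    have hn : ∀ τ : ℂ, ∑ i, ‖τ * e i‖ ^ 2 = ‖τ‖ ^ 2 := by
      intro τ
      have h2 : ∀ i, ‖τ * e i‖ ^ 2 = ‖τ‖ ^ 2 * ‖e i‖ ^ 2 := by
        intro i
        rw [norm_mul, mul_pow]
      rw [Finset.sum_congr rfl fun i _ => h2 i, ← Finset.mul_sum, hsum, mul_one]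
    have hmem : ∀ τ ∈ Metric.closedBall (0 : ℂ) r, (fun i => τ * e i) ∈ KB d r := by
      intro τ hτ
      change ∑ i, ‖τ * e i‖ ^ 2 ≤ r ^ 2
      rw [hn]
      exact pow_le_pow_left₀ (norm_nonneg _) (by simpa using hτ) 2
    have hline : ∀ τ : ℂ, HasDerivAt (fun s : ℂ => (fun j => s * e j : Fin d → ℂ)) e τ := by
      intro τ
      rw [hasDerivAt_pi]
      intro j
      simpa using (hasDerivAt_id τ).mul_const (e j)
    have hG1 : AnalyticOnNhd ℂ (fun τ : ℂ => F (fun i => τ * e i)) (Metric.closedBall 0 r) := by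
      intro τ hτ
      have a1 : AnalyticAt ℂ F (fun i => τ * e i) := hFr _ (hmem τ hτ)
      have a2 : AnalyticAt ℂ (fun τ : ℂ => τ • e) τ :=
        ((ContinuousLinearMap.id ℂ ℂ).smulRight e).analyticAt τ
      exact AnalyticAt.comp (g := F) (f := fun τ : ℂ => τ • e) a1 a2
    have hG2 : ∀ τ ∈ Metric.closedBall (0 : ℂ) r, ‖F (fun i => τ * e i)‖ ≤ M := fun τ hτ =>
      hFM _ (hmem τ hτ)
    have hG3 : F (fun i => (0 : ℂ) * e i) = 1 := by
      have h3 : (fun i => (0 : ℂ) * e i) = fun _ => 0 := by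
        funext i
        exact zero_mul _
      rw [h3, h0]
    have hG4 : ∀ τ ∈ Metric.ball (0 : ℂ) 1, F (fun i => τ * e i) ≠ 0 := by
      intro τ hτ
      refine hF0 _ ?_
      change ∑ i, ‖τ * e i‖ ^ 2 < 1
      rw [hn]
      have h3 : ‖τ‖ < 1 := by simpa using hτ
      exact pow_lt_one₀ (norm_nonneg _) h3 two_ne_zero
    have htb : (t : ℂ) ∈ Metric.ball (0 : ℂ) 1 := by
      rw [mem_ball_zero_iff, Complex.norm_real, Real.norm_of_nonneg ht0.le]
      exact ht1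
    obtain ⟨g1, g2, g3⟩ := h1 (fun τ : ℂ => F (fun i => τ * e i)) hG1 hG2 hG3 hG4 (t : ℂ) htb
    have hFt : HasFDerivAt F (fderiv ℂ F (fun j => (t : ℂ) * e j)) (fun j => (t : ℂ) * e j) :=
      (hFr _ (hmem (t : ℂ) (Metric.mem_closedBall.2 (by
        rw [dist_zero_right, Complex.norm_real, Real.norm_of_nonneg ht0.le]
        linarith)))).differentiableAt.hasFDerivAt
    have hder : deriv (fun τ : ℂ => F (fun i => τ * e i)) (t : ℂ) = fderiv ℂ F z e := by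
      have h5 : HasDerivAt (fun s : ℂ => F (fun j => s * e j))
          (fderiv ℂ F (fun j => (t : ℂ) * e j) e) (t : ℂ) :=
        HasFDerivAt.comp_hasDerivAt (l := F) (f := fun s : ℂ => (fun j => s * e j : Fin d → ℂ)) (t : ℂ)
          hFt (hline t)
      rw [hez1] at h5
      exact h5.deriv
    have hR : (t : ℂ) * fderiv ℂ F z e = RF F z := by
      unfold RF
      rw [← smul_eq_mul, ← map_smul]
      congr 1
    refine ⟨?_, ?_, ?_⟩
    · rw [hder, hR] at g1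
      rw [hez1] at g1
      exact g1
    · intro ρ hρ0 hρ1
      have h6 := g2 ρ hρ0 hρ1
      change ‖F (fun i => (t : ℂ) * e i)‖ ≤ C * ‖F (fun i => ((ρ : ℂ) * (t : ℂ)) * e i)‖ at h6
      rw [hez1, hez] at h6
      exact h6
    · intro s hs0 hs1
      have h6 := g3 s hs0 hs1
      change (1 - s) ^ k ≤ C * ‖F (fun i => ((s : ℂ) * (t : ℂ)) * e i)‖ at h6
      rw [hez] at h6
      exact h6

end PCY
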