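import Pool.Agent.PCY.W4
import Pool.Agent.PCY.M10
import Pool.Agent.PCY.Z1
import Pool.Agent.PCV.N1
import Pool.Agent.PCM.P10

/-!
# [PCY-Z2] the uniform bound

Copy of `PCX/X17` (`uniform`).  `d = m+1`, `K = d`, `p = K + 1 - n` (`4 p ≤ 3 m + 10` because `m ≤ 4n + 2`, `n ≤ m+1`).
`L, C` from `radial` for `Fg` (`hdil`, `hlow` of `pointwise_sq`; take `C₀ := max C₀ C`).  `N₀` from `ball_int`; take
`N = K + max N₀ (p L)` (`N' = N - K`).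
Use `mem_of_bound` (`PCM/P10`) with `k = d` and the law `ν` of `exists_law_density d d` (`PCV/N1`) for
`a = (R g)^N * f^n * g * G` (`Conv`: `conv_mul`, `conv_pow`, `conv_R`).
* `coeff 0 a`: `coeff 0` is multiplicative (`MvPowerSeries.coeff_zero_eq_constantCoeff`), `coeff 0 (R g) = 0`
  (`coeff_R`), so `coeff 0 a = 0` as `N ≥ 1`.
* for `0 ≤ r < 1`: `∫ ‖ev (R^d a) (r z)‖² dν = (∫⁻ ofReal ..).toReal`, and
  `∫⁻ ofReal ‖..‖² dν = c ∫⁻ z in Ball, ofReal ((1-V)^d) * ofReal (‖..‖²)` (`lintegral_withDensity..`, measurability of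
  `z ↦ ev .. (r z)` by `measurable_ev_dilate` of `PCM/P7`).  `pointwise_sq` with `s = ρ r`:
  `≤ c C [∫⁻ Ball 1 + ofReal ((1-s)²) ∫⁻ Ball ofReal ((1-V)^d * (..))]`, bounded by `ball_int`, independently of `ρ, r`.
The result: `nrm a ^ 2 ≤ const`.
-/

open MeasureTheory Set Filter Topology

namespace PCY

open PCM PCV

/-- an integral is at most the upper integral -/
theorem z2_int {X : Type*} [MeasurableSpace X] (μ : Measure X) (G : X → ℝ) (hG : ∀ x, 0 ≤ G x)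
    (T : ENNReal) (hT : T ≠ ⊤) (h : ∫⁻ x, ENNReal.ofReal (G x) ∂μ ≤ T) :
    ∫ x, G x ∂μ ≤ T.toReal := by
  by_cases hi : Integrable G μ
  · rw [integral_eq_lintegral_of_nonneg_ae (Filter.Eventually.of_forall hG) hi.aestronglyMeasurable]
    exact ENNReal.toReal_mono hT h
  · rw [integral_undef hi]
    exact ENNReal.toReal_nonneg

theorem z2_vol (d : ℕ) : volume (PCM.Ball d) < ⊤ := by
  refine lt_of_le_of_lt (measure_mono (t := Metric.closedBall (0 : Fin d → ℂ) 1) ?_)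
    measure_closedBall_lt_top
  intro z hz
  rw [mem_closedBall_zero_iff, pi_norm_le_iff_of_nonneg zero_le_one]
  intro i
  have h1 : ‖z i‖ ^ 2 ≤ ∑ j, ‖z j‖ ^ 2 :=
    Finset.single_le_sum (f := fun j => ‖z j‖ ^ 2) (fun j _ => by positivity) (Finset.mem_univ i)
  have h2 : ∑ j, ‖z j‖ ^ 2 < 1 := hz
  nlinarith [norm_nonneg (z i)]

theorem z2_meas (d : ℕ) : MeasurableSet (PCM.Ball d) := by
  unfold PCM.Ball
  refine IsOpen.measurableSet (isOpen_lt ?_ continuous_const)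
  fun_prop

theorem z2_coef {d : ℕ} (f g G : A d) (N n : ℕ) (hN : 1 ≤ N) :
    MvPowerSeries.coeff 0 ((R d g) ^ N * f ^ n * g * G) = 0 := by
  have h1 : MvPowerSeries.constantCoeff (R d g) = 0 := by
    rw [← MvPowerSeries.coeff_zero_eq_constantCoeff_apply, coeff_R]
    simp
  rw [MvPowerSeries.coeff_zero_eq_constantCoeff_apply, map_mul, map_mul, map_mul, map_pow, h1,
    zero_pow (by omega), zero_mul, zero_mul, zero_mul]

theorem uniform (m n : ℕ) (hn : n ≤ m + 1) (hmn : m ≤ 4 * n + 2)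
    {f g : A (m + 1)} {Ff Fg : (Fin (m + 1) → ℂ) → ℂ} (hf : Hol f Ff) (hg : Hol g Fg) (C₀ : ℝ)
    (hfg : ∀ z ∈ Ball (m + 1), ‖Ff z‖ ≤ C₀ * ‖Fg z‖) (h0 : Fg (fun _ => 0) = 1)
    (hg0 : ∀ z ∈ Ball (m + 1), Fg z ≠ 0) :
    ∃ (N : ℕ) (M : ℝ), 1 ≤ N ∧ ∀ (ρ : ℝ) (G : A (m + 1)), 0 ≤ ρ → ρ < 1 → Conv G →
      dl ρ g * G = 1 → nrm ((R (m + 1) g) ^ N * f ^ n * g * G) ≤ M := by
  obtain ⟨Λ, C₂, k, _, hC₂, hrad⟩ := radial hg.an h0 hg0
  obtain ⟨C₃, hC₃⟩ : ∃ C₃ : ℝ, C₃ = max C₀ C₂ := ⟨_, rfl⟩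
  have hC₃0 : C₀ ≤ C₃ := by rw [hC₃]; exact le_max_left _ _
  have hC₃2 : C₂ ≤ C₃ := by rw [hC₃]; exact le_max_right _ _
  have hfg' : ∀ z ∈ Ball (m + 1), ‖Ff z‖ ≤ C₃ * ‖Fg z‖ := fun z hz =>
    (hfg z hz).trans (mul_le_mul_of_nonneg_right hC₃0 (norm_nonneg _))
  have hdil : ∀ ρ : ℝ, 0 ≤ ρ → ρ ≤ 1 → ∀ z ∈ Ball (m + 1),
      ‖Fg z‖ ≤ C₃ * ‖Fg (fun i => (ρ : ℂ) * z i)‖ := fun ρ h1 h2 z hz =>
    ((hrad z hz).2.1 ρ h1 h2).trans (mul_le_mul_of_nonneg_right hC₃2 (norm_nonneg _))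
  have hlow : ∀ s : ℝ, 0 ≤ s → s ≤ 1 → ∀ z ∈ Ball (m + 1),
      (1 - s) ^ k ≤ C₃ * ‖Fg (fun i => (s : ℂ) * z i)‖ := fun s h1 h2 z hz =>
    ((hrad z hz).2.2 s h1 h2).trans (mul_le_mul_of_nonneg_right hC₃2 (norm_nonneg _))
  obtain ⟨N₀, hN₀⟩ := ball_int m Fg hg.an hg0
  obtain ⟨N', hN'⟩ : ∃ N' : ℕ, N' = max N₀ ((m + 1 + 1 - n) * k) := ⟨_, rfl⟩
  have hN1 : N₀ ≤ N' := by rw [hN']; exact le_max_left _ _
  have hN2 : (m + 1 + 1 - n) * k ≤ N' := by rw [hN']; exact le_max_right _ _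
  obtain ⟨C, hC⟩ := hN₀ N' (m + 1 + 1 - n) hN1 (by omega)
  obtain ⟨C₁, hC₁0, hC₁⟩ := pointwise_sq hf hg C₃ hfg' hdil k hlow (m + 1)
    (m + 1 + N') n hn (by omega)
  obtain ⟨c, hlaw⟩ := exists_law_density (m + 1) (m + 1)
  obtain ⟨T, hT⟩ : ∃ T : ENNReal, T = (c : ENNReal) * (ENNReal.ofReal C₁ *
    (volume (Ball (m + 1)) + C)) := ⟨_, rfl⟩
  have hTt : T ≠ ⊤ := by
    rw [hT]
    refine ENNReal.mul_ne_top ENNReal.coe_ne_top (ENNReal.mul_ne_top ENNReal.ofReal_ne_top ?_)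
    exact ENNReal.add_ne_top.2 ⟨(z2_vol (m + 1)).ne, ENNReal.coe_ne_top⟩
  refine ⟨m + 1 + N', Real.sqrt ((2 * ((m + 1 : ℕ) : ℝ) + 1) * T.toReal), by omega,
    fun ρ G hρ0 hρ1 hG hGi => ?_⟩
  obtain ⟨a, ha⟩ : ∃ a : A (m + 1),
    a = (R (m + 1) g) ^ (m + 1 + N') * f ^ n * g * G := ⟨_, rfl⟩
  have hac : Conv a := by
    rw [ha]
    exact conv_mul (conv_mul (conv_mul (conv_pow (conv_R hg.conv) _) (conv_pow hf.conv _)) hg.conv) hG
  have hcoef : MvPowerSeries.coeff 0 a = 0 := by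
    rw [ha]
    exact z2_coef f g G _ _ (by omega)
  have hlaw' : IsLaw (m + 1) (2 * (m + 1)) ((c : ENNReal) •
      ((volume : Measure (Fin (m + 1) → ℂ)).restrict (PCM.Ball (m + 1))).withDensity
        fun z => ENNReal.ofReal ((1 - ∑ i, ‖z i‖ ^ 2) ^ (m + 1))) := by
    rw [two_mul]
    exact hlaw
  rw [← ha]
  have hmain := (mem_of_bound (m + 1) _ hlaw' hac T.toReal ?_).2
  · rw [hcoef, norm_zero, zero_pow two_ne_zero, zero_add] at hmain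
    exact (le_abs_self _).trans (Real.abs_le_sqrt hmain)
  · intro r hr0 hr1
    refine z2_int _ _ (fun z => by positivity) T hTt ?_
    have hwm : Measurable fun z : Fin (m + 1) → ℂ =>
        ENNReal.ofReal ((1 - ∑ i, ‖z i‖ ^ 2) ^ (m + 1)) := by
      fun_prop
    rw [lintegral_smul_measure, hT]
    refine mul_le_mul' le_rfl ((lintegral_withDensity_le_lintegral_mul _ hwm _).trans ?_)
    have hs0 : 0 ≤ ρ * r := mul_nonneg hρ0 hr0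
    have hs1 : ρ * r < 1 := by nlinarith
    have hpt : ∀ z ∈ Ball (m + 1), ((fun z : Fin (m + 1) → ℂ =>
        ENNReal.ofReal ((1 - ∑ i, ‖z i‖ ^ 2) ^ (m + 1))) *
        fun z : Fin (m + 1) → ℂ => ENNReal.ofReal
          (‖ev ((R (m + 1) ^ (m + 1)) a) (fun i => (r : ℂ) * z i)‖ ^ 2)) z ≤
        ENNReal.ofReal C₁ * (1 + ENNReal.ofReal ((1 - ρ * r) ^ 2) *
          ENNReal.ofReal ((1 - ∑ i, ‖z i‖ ^ 2) ^ (m + 1) *
          (‖RF Fg (fun i => ((ρ * r : ℝ) : ℂ) * z i)‖ ^ (2 * N') *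
            (‖Fg (fun i => ((ρ * r : ℝ) : ℂ) * z i)‖ ^
              (2 * (m + 1 + 1 - n)))⁻¹))) := by
      intro z hz
      have hz' : ∑ i, ‖z i‖ ^ 2 < 1 := hz
      have hV0 : 0 ≤ ∑ i, ‖z i‖ ^ 2 := Finset.sum_nonneg fun i _ => by positivity
      have hw0 : 0 ≤ (1 - ∑ i, ‖z i‖ ^ 2) ^ (m + 1) := pow_nonneg (by linarith) _
      have hw1 : (1 - ∑ i, ‖z i‖ ^ 2) ^ (m + 1) ≤ 1 := pow_le_one₀ (by linarith) (by linarith)
      have h1 := hC₁ ρ r G hρ0 hρ1 hr0 hr1 hG hGi z hz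
      rw [← ha, Nat.add_sub_cancel_left] at h1
      rw [← ENNReal.ofReal_one, ← ENNReal.ofReal_mul (by positivity),
        ← ENNReal.ofReal_add zero_le_one (by positivity), ← ENNReal.ofReal_mul hC₁0]
      show ENNReal.ofReal ((1 - ∑ i, ‖z i‖ ^ 2) ^ (m + 1)) * ENNReal.ofReal
          (‖ev ((R (m + 1) ^ (m + 1)) a) (fun i => (r : ℂ) * z i)‖ ^ 2) ≤ _
      rw [← ENNReal.ofReal_mul hw0]
      refine ENNReal.ofReal_le_ofReal ?_
      refine (mul_le_mul_of_nonneg_left h1 hw0).trans ?_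
      set X : ℝ := ‖RF Fg (fun i => ((ρ * r : ℝ) : ℂ) * z i)‖ ^ (2 * N') *
        (‖Fg (fun i => ((ρ * r : ℝ) : ℂ) * z i)‖ ^ (2 * (m + 1 + 1 - n)))⁻¹ with hX
      set W : ℝ := (1 - ∑ i, ‖z i‖ ^ 2) ^ (m + 1) with hW
      have h2 : W * (C₁ * (1 + (1 - ρ * r) ^ 2 * X)) = C₁ * (W + (1 - ρ * r) ^ 2 * (W * X)) := by
        ring
      rw [h2]
      refine mul_le_mul_of_nonneg_left ?_ hC₁0
      linarith
    refine (setLIntegral_mono' (z2_meas (m + 1)) hpt).trans ?_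
    rw [lintegral_const_mul' _ _ ENNReal.ofReal_ne_top, lintegral_add_left measurable_const,
      lintegral_const_mul' _ _ ENNReal.ofReal_ne_top, setLIntegral_const, one_mul]
    refine mul_le_mul' le_rfl (add_le_add le_rfl ?_)
    exact hC (ρ * r) hs0 hs1

end PCY
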