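import Pool.Agent.PCY.Z2
import Pool.Agent.PCY.H5
import Pool.Agent.PCX.X18

/-!
# [PCY-Z3] one step: `(R g)^N f^n ∈ [g f^n]`

Copy of `PCX/X19` (`step`).  `N, M` from `uniform`.  `ρ_j = 1 - 1/(j+2)`, `G_j` from `inv_dil` (`H5`): an inverse of `dl ρ_j g`, a
multiplier, with `ev G_j z = (Fg (ρ_j z))⁻¹` on the ball.
`X_j = ((R g)^N f^n g) * G_j = (G_j * (R g)^N) * (g f^n) ∈ inv (g f^n)` (`mul_mem_inv`, `PCM/P19`; `hol_mult`, `hol_R`,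
`mult_mul`, `mult_pow`), `nrm (X_j) ≤ M`, and `ev (X_j) z = ev ((R g)^N f^n) z * Fg z / Fg (ρ_j z) → ev ((R g)^N f^n) z`
(continuity of `Fg` at `z`, `Fg z ≠ 0`).  `inv_lim` (`PCX/X18`).
-/

open MeasureTheory Set Filter Topology

namespace PCY

open PCM PCX

theorem step (m n : ℕ) (hn : n ≤ m + 1) (hmn : m ≤ 4 * n + 2)
    {f g : A (m + 1)} {Ff Fg : (Fin (m + 1) → ℂ) → ℂ} (hf : Hol f Ff) (hg : Hol g Fg) (C₀ : ℝ)
    (hfg : ∀ z ∈ Ball (m + 1), ‖Ff z‖ ≤ C₀ * ‖Fg z‖) (h0 : Fg (fun _ => 0) = 1)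
    (hg0 : ∀ z ∈ Ball (m + 1), Fg z ≠ 0) :
    ∃ N : ℕ, 1 ≤ N ∧ (R (m + 1) g) ^ N * f ^ n ∈ inv (g * f ^ n) := by
  obtain ⟨N, M, hN, hM⟩ := uniform m n hn hmn hf hg C₀ hfg h0 hg0
  refine ⟨N, hN, ?_⟩
  have hρ0 : ∀ j : ℕ, (0 : ℝ) ≤ 1 - 1 / ((j : ℝ) + 1 + 1) := by
    intro j
    have h1 : (1 : ℝ) / ((j : ℝ) + 1 + 1) ≤ 1 := by
      rw [div_le_one (by positivity)]
      have : (0 : ℝ) ≤ j := Nat.cast_nonneg j
      linarith
    linarith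
  have hρ1 : ∀ j : ℕ, 1 - 1 / ((j : ℝ) + 1 + 1) < 1 := by
    intro j
    have h1 : (0 : ℝ) < 1 / ((j : ℝ) + 1 + 1) := by positivity
    linarith
  choose G hG1 hG2 hG3 hG4 using fun j : ℕ => inv_dil hg hg0 (hρ0 j) (hρ1 j)
  have hlim : Tendsto (fun j : ℕ => 1 - 1 / ((j : ℝ) + 1 + 1)) atTop (𝓝 1) := by
    have h1 : Tendsto (fun j : ℕ => (1 : ℝ) / ((j : ℝ) + 1)) atTop (𝓝 0) :=
      tendsto_one_div_add_atTop_nhds_zero_nat
    have h2 := (tendsto_add_atTop_iff_nat 1).2 h1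
    have h3 : Tendsto (fun j : ℕ => (1 : ℝ) - 1 / (((j + 1 : ℕ) : ℝ) + 1)) atTop (𝓝 (1 - 0)) :=
      tendsto_const_nhds.sub h2
    rw [sub_zero] at h3
    refine h3.congr fun j => ?_
    push_cast
    ring
  have hRN : Hol ((R (m + 1) g) ^ N) (fun z => (RF Fg z) ^ N) := hol_pow N (hol_R hg)
  have hfn : Hol (f ^ n) (fun z => (Ff z) ^ n) := hol_pow n hf
  have hP := hol_mul hRN hfn
  have hPg := hol_mul hP hg
  have hgf := hol_mul hg hfn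
  refine PCX.inv_lim (hol_mult hgf) (mem_of_mult (hol_mult hP))
    (fun j => ((R (m + 1) g) ^ N * f ^ n * g) * G j)
    (fun j => ?_) M (fun j => hM _ (G j) (hρ0 j) (hρ1 j) (hG1 j) (hG3 j)) (fun z hz => ?_)
  · have h1 : ((R (m + 1) g) ^ N * f ^ n * g) * G j =
        ((R (m + 1) g) ^ N * G j) * (g * f ^ n) := by
      ring
    show ((R (m + 1) g) ^ N * f ^ n * g) * G j ∈ _
    rw [h1]
    exact mul_mem_inv (hol_mult hgf) (mult_mul (hol_mult hRN) (hG2 j))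
  · have h2 : ∀ j, ev (((R (m + 1) g) ^ N * f ^ n * g) * G j) z
        = ((RF Fg z) ^ N * (Ff z) ^ n) * (Fg z *
          (Fg (fun i => ((1 - 1 / ((j : ℝ) + 1 + 1) : ℝ) : ℂ) * z i))⁻¹) := by
      intro j
      rw [ev_mul hPg.conv (hG1 j) hz, hPg.ev_eq z hz, hG4 j z hz]
      ring
    rw [hP.ev_eq z hz]
    simp only [h2]
    have h3 : Tendsto (fun j : ℕ => Fg
        (fun i => ((1 - 1 / ((j : ℝ) + 1 + 1) : ℝ) : ℂ) * z i)) atTop
        (𝓝 (Fg z)) := by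
      have h4 : Continuous fun r : ℝ => (fun i => (r : ℂ) * z i : Fin (m + 1) → ℂ) := by
        fun_prop
      have h5 := (h4.tendsto 1).comp hlim
      have h6 : (fun i => ((1 : ℝ) : ℂ) * z i) = z := by
        funext i
        simp
      rw [h6] at h5
      have h7 : Tendsto Fg (𝓝 z) (𝓝 (Fg z)) := (hg.an z (ball_sub _ hz)).continuousAt
      exact h7.comp h5
    have h7 := (h3.inv₀ (hg0 z hz)).const_mul (Fg z)
    rw [mul_inv_cancel₀ (hg0 z hz)] at h7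
    have h8 := h7.const_mul ((RF Fg z) ^ N * (Ff z) ^ n)
    rw [mul_one] at h8
    exact h8

end PCY
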