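import Pool.Agent.PCY.H2

/-!
# [PCY-Z4] the order of vanishing on the sphere

* `ord_exists`.  First, for every `z ∈ CB d` some `(RF^[j] F) z ≠ 0`: the function `G t = F (t z)` is analytic on a ball of
  radius `> 1` (`exists_ext`; `t z ∈ KB d r` for `‖t‖ ≤ r`), `G 0 = 1`.  `t G'(t) = RF F (t z)`, and by induction
  `(θ^j G)(t) = (RF^[j] F)(t z)` near the closed unit disc, `θ = t d/dt`.  If all of them vanish at `t = 1`, then `G` has a zero of infinite
  order at `1`: otherwise `G t = (t-1)^n u(t)` near `1` with `u(1) ≠ 0` (`AnalyticAt.exists_eventuallyEq_pow_smul_nonzero_iff`),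
  `n ≥ 1`, and `θ^n G (1) = n! u(1) ≠ 0` (`θ ((t-1)^j v) = (t-1)^(j-1) (j t v + (t-1) θ v)`).  So `G = 0` near `1`, hence on the ball
  (identity theorem, `AnalyticOnNhd.eqOn_zero_of_preconnected_of_eventuallyEq_zero`), contradicting `G 0 = 1`.
  Then the sets `{z | (RF^[j] F) z ≠ 0}`, relatively open in the compact set `CB d` (`RF^[j] F` is analytic on `CB d`, so continuous),
  cover it; finitely many suffice (`IsCompact.elim_finite_subcover`, or a contradiction with a convergent sequence).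
* `ord_step`: let `z ∈ CB d`.  If `F z ≠ 0` then `F₁ z ≠ 0` by `hle` (`j = 0`).  If `F z = 0` take the least `j` with `(RF^[j] F) z ≠ 0`;
  `1 ≤ j ≤ k + 1`.  `hol_R_pow` and linearity of `R^(j-1)`: both `RF^[j-1] F₁` and `c (RF^[j-1] F) - c' (RF^[j] F)` are the function
  of the series `(R^(j-1)) a₁`, so they agree at `z` (`hol_unique`); the value is `- c' (RF^[j] F) z ≠ 0`.
-/

open MeasureTheory Set Filter Topology

namespace PCY

open PCM

variable {d : ℕ}

/-- a sequence of functions with `g (j+1) = t g_j'` which all vanish at `1` -/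
theorem z4_seq (g : ℕ → ℂ → ℂ) (hg : ∀ j, AnalyticAt ℂ (g j) 1)
    (hs : ∀ j, ∀ᶠ t in 𝓝 (1 : ℂ), g (j + 1) t = t * deriv (g j) t) (h0 : ∀ j, g j 1 = 0) :
    ∀ᶠ t in 𝓝 (1 : ℂ), g 0 t = 0 := by
  have key : ∀ n : ℕ, ∀ j, analyticOrderAt (g j) 1 ≠ n := by
    intro n
    induction n with
    | zero =>
      intro j h
      have h' : analyticOrderAt (g j) 1 = 0 := by
        rw [h]
        rfl
      exact ((hg j).analyticOrderAt_eq_zero.mp h') (h0 j)
    | succ n ih =>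
      intro j h
      have h' : analyticOrderAt (g j) 1 = (n : ℕ∞) + 1 := by
        rw [h]
        rfl
      have h1 := analyticOrderAt_deriv_of_pos (hg j) h'
      have h2 : analyticOrderAt (g (j + 1)) 1 = analyticOrderAt (fun t => t * deriv (g j) t) 1 :=
        analyticOrderAt_congr (hs j)
      have h3 : analyticOrderAt (fun t : ℂ => t * deriv (g j) t) 1 =
          analyticOrderAt (fun t : ℂ => t) 1 + analyticOrderAt (deriv (g j)) 1 :=
        analyticOrderAt_mul analyticAt_id (hg j).deriv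
      have h4 : analyticOrderAt (fun t : ℂ => t) 1 = 0 :=
        (analyticAt_id (𝕜 := ℂ) (z := (1 : ℂ))).analyticOrderAt_eq_zero.mpr one_ne_zero
      rw [h3, h4, h1, zero_add] at h2
      exact ih (j + 1) h2
  have htop : analyticOrderAt (g 0) 1 = ⊤ := by
    by_contra hne
    obtain ⟨n, hn⟩ := ENat.ne_top_iff_exists.mp hne
    exact key n 0 hn.symm
  exact analyticOrderAt_eq_top.mp htop

theorem z4_RF {F : (Fin d → ℂ) → ℂ} {s : Set (Fin d → ℂ)} (hF : AnalyticOnNhd ℂ F s) :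
    AnalyticOnNhd ℂ (RF F) s := by
  intro x hx
  have h1 : AnalyticAt ℂ (fderiv ℂ F) x := (hF x hx).fderiv
  have h2 := (ContinuousLinearMap.id ℂ ((Fin d → ℂ) →L[ℂ] ℂ)).analyticAt_bilinear (fderiv ℂ F x, x)
  exact AnalyticAt.fun_comp (f := fun z => (fderiv ℂ F z, z)) h2 (h1.prod analyticAt_id)

theorem z4_RF_iter {F : (Fin d → ℂ) → ℂ} {s : Set (Fin d → ℂ)} (hF : AnalyticOnNhd ℂ F s) (j : ℕ) :
    AnalyticOnNhd ℂ (RF^[j] F) s := by
  induction j with
  | zero => exact hF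
  | succ j ih =>
    rw [Function.iterate_succ_apply']
    exact z4_RF ih

theorem z4_mem {z : Fin d → ℂ} (hz : z ∈ CB d) {r : ℝ} {t : ℂ} (ht : ‖t‖ ≤ r) :
    t • z ∈ KB d r := by
  have hz' : ∑ i, ‖z i‖ ^ 2 ≤ 1 := hz
  change ∑ i, ‖(t • z) i‖ ^ 2 ≤ r ^ 2
  have h1 : ∑ i, ‖(t • z) i‖ ^ 2 = ‖t‖ ^ 2 * ∑ i, ‖z i‖ ^ 2 := by
    rw [Finset.mul_sum]
    refine Finset.sum_congr rfl fun i _ => ?_
    rw [Pi.smul_apply, smul_eq_mul, norm_mul, mul_pow]
  rw [h1]
  have h2 : ‖t‖ ^ 2 ≤ r ^ 2 := pow_le_pow_left₀ (norm_nonneg _) ht 2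
  have h3 : 0 ≤ ‖t‖ ^ 2 := sq_nonneg _
  have h4 : 0 ≤ ∑ i, ‖z i‖ ^ 2 := Finset.sum_nonneg fun i _ => sq_nonneg _
  nlinarith

/-- at every point of the closed ball some radial derivative is not zero -/
theorem z4_point {F : (Fin d → ℂ) → ℂ} (hF : AnalyticOnNhd ℂ F (CB d))
    (h0 : F (fun _ => 0) = 1) (z : Fin d → ℂ) (hz : z ∈ CB d) : ∃ j, (RF^[j] F) z ≠ 0 := by
  by_contra hcon
  push Not at hcon
  obtain ⟨r, M, hr, -, hFr, -⟩ := exists_ext hF
  have hlin : ∀ t : ℂ, AnalyticAt ℂ (fun t : ℂ => t • z) t := fun t =>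
    analyticAt_id.smul analyticAt_const
  have hg : ∀ j, ∀ t ∈ Metric.ball (0 : ℂ) r,
      AnalyticAt ℂ (fun t : ℂ => (RF^[j] F) (t • z)) t := by
    intro j t ht
    have ht' : ‖t‖ ≤ r := by
      rw [mem_ball_zero_iff] at ht
      exact ht.le
    exact AnalyticAt.fun_comp (z4_RF_iter hFr j (t • z) (z4_mem hz ht')) (hlin t)
  have h1 : (1 : ℂ) ∈ Metric.ball (0 : ℂ) r := by
    rw [mem_ball_zero_iff, norm_one]
    exact hr
  have hd : ∀ j, ∀ t ∈ Metric.ball (0 : ℂ) r,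
      (RF^[j + 1] F) (t • z) = t * deriv (fun t : ℂ => (RF^[j] F) (t • z)) t := by
    intro j t ht
    have ht' : ‖t‖ ≤ r := by
      rw [mem_ball_zero_iff] at ht
      exact ht.le
    have h2 : HasFDerivAt (RF^[j] F) (fderiv ℂ (RF^[j] F) (t • z)) (t • z) :=
      (z4_RF_iter hFr j (t • z) (z4_mem hz ht')).differentiableAt.hasFDerivAt
    have h3 : HasDerivAt (fun t : ℂ => t • z) ((1 : ℂ) • z) t := (hasDerivAt_id t).smul_const z
    have h4 := h2.comp_hasDerivAt t h3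
    have h5 : deriv (fun t : ℂ => (RF^[j] F) (t • z)) t = fderiv ℂ (RF^[j] F) (t • z) z := by
      have h6 := h4.deriv
      rw [one_smul] at h6
      exact h6
    rw [h5, Function.iterate_succ_apply']
    change fderiv ℂ (RF^[j] F) (t • z) (t • z) = _
    rw [map_smul, smul_eq_mul]
  have h2 := z4_seq (fun j t => (RF^[j] F) (t • z)) (fun j => hg j 1 h1)
    (fun j => by
      filter_upwards [Metric.isOpen_ball.mem_nhds h1] with t ht
      exact hd j t ht)
    (fun j => by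
      simp only [one_smul]
      exact hcon j)
  have h3 : EqOn (fun t : ℂ => F (t • z)) 0 (Metric.ball (0 : ℂ) r) :=
    AnalyticOnNhd.eqOn_zero_of_preconnected_of_eventuallyEq_zero (fun t ht => hg 0 t ht)
      (convex_ball (0 : ℂ) r).isPreconnected h1 h2
  have h4 : F ((0 : ℂ) • z) = 0 := h3 (Metric.mem_ball_self (by linarith))
  have h5 : ((0 : ℂ) • z) = (fun _ => 0) := by
    rw [zero_smul]
    rfl
  rw [h5, h0] at h4
  exact one_ne_zero h4

theorem ord_exists {a : A d} {F : (Fin d → ℂ) → ℂ} (ha : Hol a F) (h0 : F (fun _ => 0) = 1) :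
    ∃ k : ℕ, Ord k F := by
  by_contra hcon
  have hcon' : ∀ k : ℕ, ¬ Ord k F := fun k hk => hcon ⟨k, hk⟩
  have hcl : ∀ j, IsClosed (CB d ∩ (RF^[j] F) ⁻¹' {0}) := by
    intro j
    exact (z4_RF_iter ha.an j).continuousOn.preimage_isClosed_of_isClosed
      (isCompact_CB d).isClosed isClosed_singleton
  have h1 := IsCompact.nonempty_iInter_of_sequence_nonempty_isCompact_isClosed
    (fun k : ℕ => CB d ∩ ⋂ j ∈ Set.Iic k, (CB d ∩ (RF^[j] F) ⁻¹' {0})) ?_ ?_ ?_ ?_
  · obtain ⟨z, hz⟩ := h1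
    rw [Set.mem_iInter] at hz
    obtain ⟨j, hj⟩ := z4_point ha.an h0 z (hz 0).1
    have h2 := (hz j).2
    simp only [Set.mem_iInter] at h2
    exact hj (h2 j (Set.mem_Iic.mpr le_rfl)).2
  · intro k z hz
    refine ⟨hz.1, ?_⟩
    have h2 := hz.2
    simp only [Set.mem_iInter] at h2 ⊢
    intro j hj
    exact h2 j (Set.mem_Iic.mpr (le_trans (Set.mem_Iic.mp hj) (Nat.le_succ k)))
  · intro k
    have h2 := hcon' k
    unfold Ord at h2
    push Not at h2
    obtain ⟨z, hz, h3⟩ := h2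
    refine ⟨z, hz, ?_⟩
    simp only [Set.mem_iInter]
    intro j hj
    exact ⟨hz, h3 j (Set.mem_Iic.mp hj)⟩
  · apply (isCompact_CB d).inter_right
    exact isClosed_biInter fun j _ => hcl j
  · intro k
    exact (isCompact_CB d).isClosed.inter (isClosed_biInter fun j _ => hcl j)

theorem ord_step {a a₁ : A d} {F F₁ : (Fin d → ℂ) → ℂ} (ha : Hol a F) (ha₁ : Hol a₁ F₁)
    (c c' : ℂ) (hc : c' ≠ 0) (h : a₁ = c • a - c' • R d a) (C : ℝ)
    (hle : ∀ z ∈ CB d, ‖F z‖ ≤ C * ‖F₁ z‖) (k : ℕ) (hk : Ord (k + 1) F) : Ord k F₁ := by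
  intro z hz
  by_cases hF0 : F z = 0
  · have hex : ∃ j, (RF^[j] F) z ≠ 0 := by
      obtain ⟨j, -, hj⟩ := hk z hz
      exact ⟨j, hj⟩
    classical
    have hmin := Nat.find_spec hex
    have hlt : ∀ j < Nat.find hex, (RF^[j] F) z = 0 := by
      intro j hj
      by_contra hne
      exact Nat.find_min hex hj hne
    have hle' : Nat.find hex ≤ k + 1 := by
      obtain ⟨j, hj1, hj2⟩ := hk z hz
      exact le_trans (Nat.find_min' hex hj2) hj1
    have hpos : Nat.find hex ≠ 0 := by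
      intro h1
      rw [h1] at hmin
      exact hmin hF0
    obtain ⟨n, hn⟩ := Nat.exists_eq_succ_of_ne_zero hpos
    rw [hn] at hmin hlt hle'
    refine ⟨n, by omega, ?_⟩
    have h1 : (R d ^ n) a₁ = c • (R d ^ n) a + (-c') • (R d ^ (n + 1)) a := by
      rw [h, map_sub, map_smul, map_smul, pow_succ, neg_smul, sub_eq_add_neg]
      rfl
    have h2 := hol_add (hol_smul c (hol_R_pow n ha)) (hol_smul (-c') (hol_R_pow (n + 1) ha))
    rw [← h1] at h2
    have h3 := hol_unique (hol_R_pow n ha₁) h2 z hz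
    rw [h3, hlt n (Nat.lt_succ_self n), mul_zero, zero_add]
    exact mul_ne_zero (neg_ne_zero.mpr hc) hmin
  · refine ⟨0, Nat.zero_le k, ?_⟩
    intro h1
    have h2 : F₁ z = 0 := h1
    have h3 := hle z hz
    rw [h2, norm_zero, mul_zero] at h3
    exact hF0 (norm_le_zero_iff.mp h3)

end PCY
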