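import Pool.Agent.PCY.Z3
import Pool.Agent.PCY.Z4

/-!
# [PCY-Z5] induction on the order of vanishing, main theorem
-/

open MeasureTheory Set Filter Topology

namespace PCY

open PCM PCX

theorem chain (m n : ℕ) (hn : n ≤ m + 1) (hmn : m ≤ 4 * n + 2)
    {f : A (m + 1)} {Ff : (Fin (m + 1) → ℂ) → ℂ} (hf : Hol f Ff) (k : ℕ) :
    ∀ (g : A (m + 1)) (Fg : (Fin (m + 1) → ℂ) → ℂ) (C₀ : ℝ), Hol g Fg →
    (∀ z ∈ Ball (m + 1), ‖Ff z‖ ≤ C₀ * ‖Fg z‖) → Fg (fun _ => 0) = 1 →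
    (∀ z ∈ Ball (m + 1), Fg z ≠ 0) → Ord k Fg → f ^ n ∈ inv (g * f ^ n) := by
  have hfn : IsMult (f ^ n) := mult_pow (hol_mult hf) n
  induction k with
  | zero =>
    intro g Fg C₀ hg hfg h0 hg0 hord
    have h1 : ∀ z ∈ CB (m + 1), Fg z ≠ 0 := by
      intro z hz
      obtain ⟨j, hj, hj2⟩ := hord z hz
      have hj0 : j = 0 := by omega
      subst hj0
      simpa using hj2
    obtain ⟨b, hb, hgb⟩ := hol_inv hg h1
    have h2 := mul_mem_inv (mult_mul (hol_mult hg) hfn) (hol_mult hb)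
    have h3 : b * (g * f ^ n) = f ^ n := by
      rw [← mul_assoc, mul_comm b g, hgb, one_mul]
    rwa [h3] at h2
  | succ k ih =>
    intro g Fg C₀ hg hfg h0 hg0 hord
    obtain ⟨Λ, C, k', hΛ, hC, hrad⟩ := radial hg.an h0 hg0
    have hΛ' : (0 : ℝ) < Λ + 1 := by linarith
    have hΛc : ((Λ + 1 : ℝ) : ℂ) ≠ 0 := by exact_mod_cast hΛ'.ne'
    set c' : ℂ := ((Λ + 1 : ℝ) : ℂ)⁻¹ with hc'
    have hc'0 : c' ≠ 0 := inv_ne_zero hΛc
    have hRg := hol_R hg
    set y : A (m + 1) := (-c') • R (m + 1) g with hy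
    set g₁ : A (m + 1) := (1 : ℂ) • g + y with hg₁
    set F₁ : (Fin (m + 1) → ℂ) → ℂ := fun z => 1 * Fg z + (-c') * RF Fg z with hF₁
    have hH₁ : Hol g₁ F₁ := hol_add (hol_smul 1 hg) (hol_smul (-c') hRg)
    have hbdB : ∀ z ∈ Ball (m + 1), ‖Fg z‖ ≤ (Λ + 1) * ‖F₁ z‖ := by
      intro z hz
      have h1 := (hrad z hz).1
      have h2 := hg0 z hz
      have h3 : F₁ z = Fg z * (1 - c' * (RF Fg z / Fg z)) := by
        rw [hF₁]
        field_simp
        ring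
      have h4 : (1 - c' * (RF Fg z / Fg z)).re = 1 - (Λ + 1)⁻¹ * (RF Fg z / Fg z).re := by
        rw [Complex.sub_re, Complex.one_re, hc', ← Complex.ofReal_inv, Complex.re_ofReal_mul]
      have h5 : (Λ + 1)⁻¹ ≤ ‖1 - c' * (RF Fg z / Fg z)‖ := by
        refine le_trans ?_ (Complex.re_le_norm _)
        rw [h4]
        have h6 : (Λ + 1)⁻¹ * (RF Fg z / Fg z).re ≤ (Λ + 1)⁻¹ * Λ :=
          mul_le_mul_of_nonneg_left h1 (by positivity)
        have h7 : (Λ + 1)⁻¹ * Λ = 1 - (Λ + 1)⁻¹ := by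
          field_simp
          ring
        linarith
      rw [h3, norm_mul]
      have h8 : ‖Fg z‖ * (Λ + 1)⁻¹ ≤ ‖Fg z‖ * ‖1 - c' * (RF Fg z / Fg z)‖ :=
        mul_le_mul_of_nonneg_left h5 (norm_nonneg _)
      have h9 : ‖Fg z‖ = (Λ + 1) * (‖Fg z‖ * (Λ + 1)⁻¹) := by
        field_simp
      calc ‖Fg z‖ = (Λ + 1) * (‖Fg z‖ * (Λ + 1)⁻¹) := h9
        _ ≤ _ := mul_le_mul_of_nonneg_left h8 hΛ'.le
    have hbdC : ∀ z ∈ CB (m + 1), ‖Fg z‖ ≤ (Λ + 1) * ‖F₁ z‖ := by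
      intro z hz
      have hc1 : Tendsto (fun r : ℝ => (fun i => (r : ℂ) * z i)) (𝓝[<] 1) (𝓝 z) := by
        have h1 : Continuous (fun r : ℝ => (fun i => (r : ℂ) * z i)) := by fun_prop
        have h2 := (h1.tendsto 1).mono_left (nhdsWithin_le_nhds (s := Set.Iio 1))
        simpa using h2
      have h1 : Tendsto (fun r : ℝ => ‖Fg (fun i => (r : ℂ) * z i)‖) (𝓝[<] 1) (𝓝 ‖Fg z‖) :=
        ((hg.an z hz).continuousAt.tendsto.comp hc1).norm
      have h2 : Tendsto (fun r : ℝ => (Λ + 1) * ‖F₁ (fun i => (r : ℂ) * z i)‖) (𝓝[<] 1)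
          (𝓝 ((Λ + 1) * ‖F₁ z‖)) :=
        (((hH₁.an z hz).continuousAt.tendsto.comp hc1).norm).const_mul _
      refine le_of_tendsto_of_tendsto h1 h2 ?_
      have h3 : ∀ᶠ r : ℝ in 𝓝[<] 1, 0 ≤ r ∧ r < 1 := by
        filter_upwards [self_mem_nhdsWithin, mem_nhdsWithin_of_mem_nhds
          (Ioi_mem_nhds (zero_lt_one' ℝ))] with r hr1 hr2
        exact ⟨le_of_lt hr2, hr1⟩
      filter_upwards [h3] with r hr
      exact hbdB _ (smul_mem_ball hz hr.1 hr.2)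
    have hF₁0 : F₁ (fun _ => 0) = 1 := by
      have h1 : RF Fg (fun _ => 0) = 0 := by
        unfold RF
        exact map_zero _
      rw [hF₁]
      simp only [h0, h1]
      ring
    have hF₁ne : ∀ z ∈ Ball (m + 1), F₁ z ≠ 0 := by
      intro z hz h1
      have h2 := hbdB z hz
      rw [h1, norm_zero, mul_zero] at h2
      exact hg0 z hz (norm_le_zero_iff.1 h2)
    have hC₀ : 0 ≤ C₀ := by
      have h1 := hfg _ (p20_zero_mem_ball (d := m + 1))
      rw [h0, norm_one, mul_one] at h1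
      exact (norm_nonneg _).trans h1
    have hfg₁ : ∀ z ∈ Ball (m + 1), ‖Ff z‖ ≤ C₀ * (Λ + 1) * ‖F₁ z‖ := by
      intro z hz
      refine (hfg z hz).trans ?_
      rw [mul_assoc]
      exact mul_le_mul_of_nonneg_left (hbdB z hz) hC₀
    have hord₁ : Ord k F₁ := by
      refine ord_step hg hH₁ 1 c' hc'0 ?_ (Λ + 1) hbdC k hord
      rw [hg₁, hy, neg_smul, sub_eq_add_neg]
    have hih := ih g₁ F₁ _ hH₁ hfg₁ hF₁0 hF₁ne hord₁
    have hgm := hol_mult hg
    have hg₁m := hol_mult hH₁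
    have hym : IsMult y := hol_mult (hol_smul (-c') hRg)
    -- powers of `g₁`
    have hpow : ∀ j : ℕ, f ^ n ∈ inv (g₁ ^ j * f ^ n) := by
      intro j
      induction j with
      | zero =>
        rw [pow_zero, one_mul]
        exact e1_self_mem hfn
      | succ j hj =>
        have h1 := inv_mul_mult (mult_mul (mult_pow hg₁m j) hfn) hg₁m hj
        have h2 : g₁ * (g₁ ^ j * f ^ n) = g₁ ^ (j + 1) * f ^ n := by ring
        rw [h2] at h1
        exact inv_trans (mult_mul hg₁m hfn) (mult_mul (mult_pow hg₁m (j + 1)) hfn) hih h1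
    obtain ⟨N, -, hN⟩ := step m n hn hmn hf hg C₀ hfg h0 hg0
    -- binomial
    have hgy : g₁ = g + y := by rw [hg₁, one_smul]
    have hQ : ∀ j : ℕ, ∃ Q : A (m + 1), IsMult Q ∧ g₁ ^ j = Q * g + y ^ j := by
      intro j
      induction j with
      | zero => exact ⟨0, p19_mult_zero, by rw [pow_zero, pow_zero, zero_mul, zero_add]⟩
      | succ j hj =>
        obtain ⟨Q, hQ1, hQ2⟩ := hj
        refine ⟨g₁ * Q + y ^ j, mult_add (mult_mul hg₁m hQ1) (mult_pow hym j), ?_⟩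
        rw [pow_succ', hQ2, mul_add]
        nth_rewrite 2 [hgy]
        ring
    obtain ⟨Q, hQ1, hQ2⟩ := hQ N
    have hgfm := mult_mul hgm hfn
    have h7 : g₁ ^ N * f ^ n ∈ inv (g * f ^ n) := by
      have h5 : g₁ ^ N * f ^ n = Q * (g * f ^ n) + y ^ N * f ^ n := by
        rw [hQ2]
        ring
      have h6 : y ^ N * f ^ n = ((-c') ^ N) • (R (m + 1) g ^ N * f ^ n) := by
        rw [hy, smul_pow, smul_mul_assoc]
      have h8 : y ^ N * f ^ n ∈ inv (g * f ^ n) := by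
        have h9 : ((-c') ^ N) • (R (m + 1) g ^ N * f ^ n) =
            (((-c') ^ N) • (1 : A (m + 1))) * (R (m + 1) g ^ N * f ^ n) := by
          rw [smul_mul_assoc, one_mul]
        rw [h6, h9]
        exact inv_smul_mult hgfm (hol_mult (hol_smul ((-c') ^ N) hol_one)) hN
      rw [h5]
      exact inv_add hgfm (mul_mem_inv hgfm hQ1) h8
    exact inv_trans (mult_mul (mult_pow hg₁m N) hfn) hgfm (hpow N) h7

/-- the main theorem: every function holomorphic in a neighbourhood of the closed ball and without zeros in the open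
ball belongs to `C_⌊d/4⌋` -/
theorem main (d : ℕ) (hd : 1 ≤ d) (a : A d) (F : (Fin d → ℂ) → ℂ) (ha : Hol a F)
    (hF : ∀ z ∈ Ball d, F z ≠ 0) : a ∈ C d (d / 4) := by
  obtain ⟨m, rfl⟩ : ∃ m, d = m + 1 := ⟨d - 1, by omega⟩
  have ham := hol_mult ha
  set c : ℂ := F (fun _ => 0) with hcdef
  have hc : c ≠ 0 := hF _ (p20_zero_mem_ball (d := m + 1))
  have hg : Hol (c⁻¹ • a) (fun z => c⁻¹ * F z) := hol_smul c⁻¹ ha
  have h0 : (fun z => c⁻¹ * F z) (fun _ => 0) = 1 := inv_mul_cancel₀ hc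
  obtain ⟨k, hk⟩ := ord_exists hg h0
  have h1 := chain m ((m + 1) / 4) (by omega) (by omega) ha k (c⁻¹ • a) _ ‖c‖ hg
    (fun z hz => by
      rw [norm_mul, norm_inv, ← mul_assoc, mul_inv_cancel₀ (norm_ne_zero_iff.2 hc), one_mul])
    h0 (fun z hz => mul_ne_zero (inv_ne_zero hc) (hF z hz)) hk
  have h2 : (c⁻¹ • a) * a ^ ((m + 1) / 4) ∈ inv (a ^ ((m + 1) / 4 + 1)) := by
    have h3 : (c⁻¹ • a) * a ^ ((m + 1) / 4) =
        (c⁻¹ • (1 : A (m + 1))) * a ^ ((m + 1) / 4 + 1) := by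
      rw [smul_mul_assoc, smul_mul_assoc, one_mul, pow_succ']
    rw [h3]
    exact mul_mem_inv (mult_pow ham _) (hol_mult (hol_smul c⁻¹ hol_one))
  refine ⟨ham, ?_, inv_eq ham _ ?_⟩
  · intro h3
    have h4 : F (fun _ => 0) = 0 := by
      rw [hol_zero ha, h3]
      exact map_zero _
    exact hc h4
  · exact inv_trans (mult_mul (hol_mult hg) (mult_pow ham _)) (mult_pow ham _) h1 h2

end PCY
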